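import Pool.Agent.H359R4.Deep

/-! Colourings of the chain of triangles with two permitted sums. -/

namespace H359R4

open Finset H359R2 H359R3

variable {H : Type*} [AddCommGroup H] [DecidableEq H]

/-- the set of values that can occur beyond an edge with values `x`, `y` -/
def TS (V : Finset H) (x y : H) : Finset H := if x = y then V.image (fun v => v - x) else {x, y}

lemma TS_card {V : Finset H} (hV : V.card ≤ 2) (x y : H) : (TS V x y).card ≤ 2 := by
  unfold TS
  split_ifs
  · exact Finset.card_image_le.trans hV
  · exact Finset.card_le_two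

lemma TS_step {V : Finset H} (hV : V.card ≤ 2) {x y z : H} (hxy : x + y ∈ V) (hxz : x + z ∈ V)
    (hyz : y + z ∈ V) : TS V x z = TS V x y ∧ TS V z y = TS V x y ∧ z ∈ TS V x y := by
  by_cases h : x = y
  · subst h
    by_cases hz : x = z
    · subst hz
      refine ⟨rfl, rfl, ?_⟩
      unfold TS
      rw [if_pos rfl, Finset.mem_image]
      exact ⟨x + x, hxy, by abel⟩
    · have hsub : ({x, z} : Finset H) ⊆ V.image (fun v => v - x) := by
        intro t ht
        rw [Finset.mem_insert, Finset.mem_singleton] at ht
        rw [Finset.mem_image]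
        rcases ht with rfl | rfl
        · exact ⟨t + t, hxy, by abel⟩
        · exact ⟨x + t, hxz, by abel⟩
      have hcard : (V.image (fun v => v - x)).card ≤ ({x, z} : Finset H).card := by
        rw [Finset.card_pair hz]
        exact Finset.card_image_le.trans hV
      have heq := Finset.eq_of_subset_of_card_le hsub hcard
      refine ⟨?_, ?_, ?_⟩
      · unfold TS
        rw [if_neg hz, if_pos rfl, heq]
      · unfold TS
        rw [if_neg (Ne.symm hz), if_pos rfl, ← heq, Finset.pair_comm]
      · unfold TS
        rw [if_pos rfl, ← heq]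
        simp
  · have hne : x + z ≠ y + z := fun h' => h (add_right_cancel h')
    have hVeq : ({x + z, y + z} : Finset H) = V := by
      apply Finset.eq_of_subset_of_card_le
      · intro t ht
        rw [Finset.mem_insert, Finset.mem_singleton] at ht
        rcases ht with rfl | rfl
        · exact hxz
        · exact hyz
      · rw [Finset.card_pair hne]; exact hV
    have hmem := hxy
    rw [← hVeq, Finset.mem_insert, Finset.mem_singleton] at hmem
    have hTxy : TS V x y = {x, y} := by unfold TS; rw [if_neg h]
    rcases hmem with h1 | h1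
    · have hz : z = y := (add_left_cancel h1).symm
      subst hz
      refine ⟨rfl, ?_, ?_⟩
      · rw [hTxy]
        unfold TS
        rw [if_pos rfl, ← hVeq, Finset.image_insert, Finset.image_singleton, add_sub_cancel_right,
          add_sub_cancel_right]
      · rw [hTxy]; simp
    · have hz : z = x := by
        rw [add_comm x y] at h1
        exact (add_left_cancel h1).symm
      subst hz
      refine ⟨?_, rfl, ?_⟩
      · rw [hTxy]
        unfold TS
        rw [if_pos rfl, ← hVeq, Finset.image_insert, Finset.image_singleton, add_sub_cancel_right,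
          add_sub_cancel_right]
      · rw [hTxy]; simp

lemma descent_T {A C : ℕ} (hd : 1 ≤ C) {f : ℕ → H}
    (hf : ∀ m n : ℕ, m ≠ 0 → n ≠ 0 → f (m * n) = f m + f n) {V : Finset H} (hV : V.card ≤ 2)
    {B : Set ℕ} (hB : ∀ n, n ∉ B → f (PP A C n) ∈ V) {Y w1 w2 : ℕ} (hY : 1 ≤ Y)
    (hw : ¬ AffE A C (EA A C B) Y w1 w2) (hcop : Nat.Coprime w1 w2) :
    ∀ (k a b c e p q : ℕ), p + q ≤ k → a * e = b * c + 1 → 2 * Y ≤ dt A C a b c e → 1 ≤ p → 1 ≤ q →
      w1 = p * a + q * c → w2 = p * b + q * e →
      f (Nm A C w1 w2) ∈ TS V (f (Nm A C a b)) (f (Nm A C c e)) := by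
  intro k
  induction k with
  | zero => intro a b c e p q hk; omega
  | succ k ih =>
    intro a b c e p q hk h hdt hp hq h1 h2
    obtain ⟨g1, g2, g3⟩ := unaff_good hd hY hw a b c e p q h hdt hp hq h1 h2
    have hr : a * (b + e) = b * (a + c) + 1 := by
      have : a * (b + e) = a * b + a * e := by ring
      rw [this, h]; ring
    have hl : (a + c) * e = (b + e) * c + 1 := by
      have : (a + c) * e = a * e + c * e := by ring
      rw [this, h]; ring
    have k1 := hB _ g1
    have k2 := hB _ g2
    have k3 := hB _ g3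
    rw [← nm_mul_nm A C _ _ _ _ h, hf _ _ (nm_pos hd (edge_left_ne h)).ne'
      (nm_pos hd (edge_right_ne h)).ne'] at k1
    rw [← nm_mul_nm A C _ _ _ _ hr, hf _ _ (nm_pos hd (edge_left_ne hr)).ne'
      (nm_pos hd (edge_right_ne hr)).ne'] at k2
    rw [← nm_mul_nm A C _ _ _ _ hl, hf _ _ (nm_pos hd (edge_left_ne hl)).ne'
      (nm_pos hd (edge_right_ne hl)).ne', add_comm] at k3
    obtain ⟨s1, s2, s3⟩ := TS_step hV k1 k2 k3
    rcases lt_trichotomy p q with hpq | hpq | hpq
    · obtain ⟨r, hr', rfl⟩ : ∃ r, 1 ≤ r ∧ q = p + r := ⟨q - p, by omega, by omega⟩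
      have := ih (a + c) (b + e) c e p r (by omega) hl (hdt.trans (dt_add_left A C a b c e)) hp hr'
        (by rw [h1]; ring) (by rw [h2]; ring)
      rwa [s2] at this
    · subst hpq
      have hp1 : p = 1 := by
        have e1 : p ∣ w1 := ⟨a + c, by rw [h1]; ring⟩
        have e2 : p ∣ w2 := ⟨b + e, by rw [h2]; ring⟩
        exact Nat.eq_one_of_dvd_coprimes hcop e1 e2
      subst hp1
      rw [h1, h2, one_mul, one_mul, one_mul, one_mul]
      exact s3
    · obtain ⟨r, hr', rfl⟩ : ∃ r, 1 ≤ r ∧ p = q + r := ⟨p - q, by omega, by omega⟩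
      have := ih a b (a + c) (b + e) r q (by omega) hr (hdt.trans (dt_add_right A C a b c e)) hr' hq
        (by rw [h1]; ring) (by rw [h2]; ring)
      rwa [s1] at this

end H359R4
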