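import Mathlib

/-! Powers of a Gaussian prime close to the real axis, with exponent in a given class. -/

namespace H359R4

open Complex GaussianInt

lemma toComplex_re (x : ℤ√(-1)) : (toComplex x).re = (x.re : ℝ) := (intCast_re x).symm

lemma toComplex_im (x : ℤ√(-1)) : (toComplex x).im = (x.im : ℝ) := (intCast_im x).symm

lemma pow_congr (p s t : ℤ) (hst : s ^ 2 + t ^ 2 = p) (n : ℕ) :
    ∃ a b : ℤ, ((⟨s, t⟩ : ℤ√(-1)) ^ (n + 1)).re = (2 * s) ^ n * s + p * a ∧
      ((⟨s, t⟩ : ℤ√(-1)) ^ (n + 1)).im = (2 * s) ^ n * t + p * b := by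
  induction n with
  | zero => exact ⟨0, 0, by simp, by simp⟩
  | succ n ih =>
    obtain ⟨a, b, h1, h2⟩ := ih
    rw [pow_succ]
    refine ⟨a * s - b * t - (2 * s) ^ n, a * t + b * s, ?_, ?_⟩
    · rw [Zsqrtd.re_mul, h1, h2]
      simp only
      rw [← hst]
      ring
    · rw [Zsqrtd.im_mul, h1, h2]
      simp only
      ring

lemma not_dvd_im (p s t : ℕ) (hp : p.Prime) (hp2 : p ≠ 2) (hst : s ^ 2 + t ^ 2 = p) (n : ℕ) :
    ¬ (p : ℤ) ∣ ((⟨s, t⟩ : ℤ√(-1)) ^ (n + 1)).im := by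
  have hs : 0 < s := by
    rcases Nat.eq_zero_or_pos s with h | h
    · subst h
      exfalso
      have h1 : t ∣ p := ⟨t, by rw [← hst]; ring⟩
      rcases (Nat.dvd_prime hp).mp h1 with h2 | h2
      · subst h2; simp at hst; exact hp.one_lt.ne hst
      · subst h2
        have := hp.one_lt
        nlinarith
    · exact h
  have ht : 0 < t := by
    rcases Nat.eq_zero_or_pos t with h | h
    · subst h
      exfalso
      have h1 : s ∣ p := ⟨s, by rw [← hst]; ring⟩
      rcases (Nat.dvd_prime hp).mp h1 with h2 | h2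
      · subst h2; simp at hst; exact hp.one_lt.ne hst
      · subst h2
        have := hp.one_lt
        nlinarith
    · exact h
  have hsp : s < p := by nlinarith
  have htp : t < p := by nlinarith
  obtain ⟨a, b, -, h2⟩ := pow_congr p s t (by exact_mod_cast hst) n
  rw [h2]
  intro hdvd
  have h3 : (p : ℤ) ∣ (2 * (s : ℤ)) ^ n * t := by
    have := dvd_sub hdvd (Dvd.intro b rfl : (p : ℤ) ∣ p * b)
    simpa using this
  have hpi : Prime (p : ℤ) := Nat.prime_iff_prime_int.mp hp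
  rcases hpi.dvd_or_dvd h3 with h4 | h4
  · have h5 := hpi.dvd_of_dvd_pow h4
    rcases hpi.dvd_or_dvd h5 with h6 | h6
    · have : p ∣ 2 := by exact_mod_cast h6
      exact hp2 ((Nat.prime_dvd_prime_iff_eq hp Nat.prime_two).mp this)
    · have : p ∣ s := by exact_mod_cast h6
      exact absurd (Nat.le_of_dvd hs this) (by omega)
  · have : p ∣ t := by exact_mod_cast h4
    exact absurd (Nat.le_of_dvd ht this) (by omega)

lemma polar (x : ℤ√(-1)) : toComplex x = (‖toComplex x‖ : ℂ) * Complex.exp ((arg (toComplex x) : ℂ) * I) :=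
  (Complex.norm_mul_exp_arg_mul_I _).symm

lemma irr (p s t : ℕ) (hp : p.Prime) (hp2 : p ≠ 2) (hst : s ^ 2 + t ^ 2 = p) (m : ℕ) (hm : 1 ≤ m) :
    Irrational ((m * arg (toComplex ⟨s, t⟩)) / (Real.pi / 2)) := by
  rintro ⟨q, hq⟩
  set θ := arg (toComplex ⟨s, t⟩) with hθ
  have hpi := Real.pi_pos
  have h1 : (m : ℝ) * θ = q * (Real.pi / 2) := by
    rw [hq]; field_simp
  have hden : (q.den : ℝ) ≠ 0 := by exact_mod_cast q.den_nz
  have h2 : (q.den : ℝ) * q = q.num := by
    rw [mul_comm]; exact_mod_cast Rat.mul_den_eq_num q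
  have h3 : ((4 * m * q.den : ℕ) : ℝ) * θ = q.num * (2 * Real.pi) := by
    push_cast
    calc (4 : ℝ) * m * q.den * θ = 4 * q.den * (m * θ) := by ring
      _ = 4 * q.den * (q * (Real.pi / 2)) := by rw [h1]
      _ = (q.den * q) * (2 * Real.pi) := by ring
      _ = _ := by rw [h2]
  set N := 4 * m * q.den with hN
  have hNpos : 0 < N := by
    have := q.den_pos
    positivity
  have h4 : toComplex ((⟨s, t⟩ : ℤ√(-1)) ^ N) = ((‖toComplex ⟨s, t⟩‖ ^ N : ℝ) : ℂ) := by
    rw [map_pow]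
    conv_lhs => rw [polar]
    rw [mul_pow, ← Complex.exp_nat_mul]
    have h5 : (N : ℂ) * ((θ : ℂ) * I) = q.num * (2 * Real.pi * I) := by
      have h6 : ((N : ℝ) : ℂ) * (θ : ℂ) = (((q.num : ℝ) * (2 * Real.pi) : ℝ) : ℂ) := by
        rw [← h3]; push_cast; ring
      push_cast at h6
      rw [← mul_assoc, h6]; ring
    rw [h5, Complex.exp_int_mul_two_pi_mul_I, mul_one]
    push_cast
    rfl
  have h5 : ((⟨s, t⟩ : ℤ√(-1)) ^ N).im = 0 := by
    have h6 := congrArg Complex.im h4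
    rw [Complex.ofReal_im, toComplex_im] at h6
    exact_mod_cast h6
  obtain ⟨n, hn⟩ : ∃ n, N = n + 1 := ⟨N - 1, by omega⟩
  rw [hn] at h5
  apply not_dvd_im p s t hp hp2 hst n
  rw [h5]
  exact dvd_zero _

/-- Realisation: an integer combination of the argument of `s + t i` and `π/2` that is a small
positive angle gives a primitive vector with small slope and norm a power of `p`. -/
theorem realize (p s t : ℕ) (hp : p.Prime) (hp2 : p ≠ 2) (hst : s ^ 2 + t ^ 2 = p) (M0 : ℕ)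
    (hs : s % 2 = 1) (n j : ℤ)
    (hφ0 : 0 < n * arg (toComplex ⟨s, t⟩) + j * (Real.pi / 2))
    (hφδ : n * arg (toComplex ⟨s, t⟩) + j * (Real.pi / 2) < 1 / (2 * M0 + 1)) :
    ∃ G1 G2 : ℕ, 1 ≤ G2 ∧ M0 * G2 ≤ G1 ∧ Nat.Coprime G1 G2 ∧
      G1 ^ 2 + G2 ^ 2 = p ^ n.natAbs ∧ ((G1 : ℤ) + j) % 2 = 1 := by
  set θ := arg (toComplex ⟨s, t⟩) with hθ
  set δ : ℝ := 1 / (2 * M0 + 1) with hδ
  have hδpos : 0 < δ := by positivity
  have hδ1 : δ ≤ 1 := by
    rw [hδ, div_le_one (by positivity)]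
    have : (0 : ℝ) ≤ M0 := by positivity
    linarith
  have hδM : M0 * δ ≤ 1 / 2 := by
    rw [hδ, mul_one_div, div_le_div_iff₀ (by positivity) (by norm_num)]
    linarith
  set φ : ℝ := n * θ + j * (Real.pi / 2) with hφ
  -- the Gaussian integer
  set k := n.natAbs with hk
  set w : ℤ√(-1) := if 0 ≤ n then ⟨s, t⟩ else ⟨s, -t⟩ with hw
  set j' := (j % 4).toNat with hj'
  set g : ℤ√(-1) := w ^ k * (⟨0, 1⟩ : ℤ√(-1)) ^ j' with hg
  set ρ : ℝ := ‖toComplex ⟨s, t⟩‖ with hρ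
  have hz0 : toComplex (⟨s, t⟩ : ℤ√(-1)) ≠ 0 := by
    intro h0
    rw [toComplex_eq_zero] at h0
    have h1 := congrArg Zsqrtd.re h0
    have h2 := congrArg Zsqrtd.im h0
    simp only [Zsqrtd.re_zero, Zsqrtd.im_zero] at h1 h2
    have h1' : s = 0 := by exact_mod_cast h1
    have h2' : t = 0 := by exact_mod_cast h2
    subst h1' h2'
    simp at hst
    exact hp.ne_zero hst.symm
  have hρpos : 0 < ρ := by rw [hρ]; exact norm_pos_iff.mpr hz0
  have hstar : toComplex (⟨s, -t⟩ : ℤ√(-1)) = (starRingEnd ℂ) (toComplex ⟨s, t⟩) := by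
    apply Complex.ext
    · rw [Complex.conj_re, toComplex_re, toComplex_re]
    · rw [Complex.conj_im, toComplex_im, toComplex_im]
      push_cast
      rfl
  have hwk : toComplex (w ^ k) = ((ρ ^ k : ℝ) : ℂ) * Complex.exp (((n * θ : ℝ) : ℂ) * I) := by
    rw [map_pow]
    by_cases hn0 : 0 ≤ n
    · have hwe : w = ⟨s, t⟩ := by rw [hw, if_pos hn0]
      rw [hwe]
      conv_lhs => rw [polar]
      rw [mul_pow, ← Complex.exp_nat_mul]
      have hkn : (k : ℝ) = n := by
        have : (k : ℤ) = n := Int.natAbs_of_nonneg hn0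
        exact_mod_cast this
      have e1 : (k : ℂ) * ((θ : ℂ) * I) = ((n * θ : ℝ) : ℂ) * I := by
        have : ((k : ℝ) : ℂ) = ((n : ℝ) : ℂ) := by rw [hkn]
        push_cast at this ⊢
        rw [this]; ring
      rw [e1]
      push_cast
      rfl
    · have hwe : w = ⟨s, -t⟩ := by rw [hw, if_neg hn0]
      rw [hwe, hstar]
      conv_lhs => rw [polar]
      rw [map_mul, mul_pow, ← Complex.exp_conj, ← Complex.exp_nat_mul, Complex.conj_ofReal, map_mul,
        Complex.conj_ofReal, Complex.conj_I]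
      have hkn : (k : ℝ) = -n := by
        have : (k : ℤ) = -n := Int.ofNat_natAbs_of_nonpos (by omega)
        exact_mod_cast this
      have e1 : (k : ℂ) * ((θ : ℂ) * -I) = ((n * θ : ℝ) : ℂ) * I := by
        have : ((k : ℝ) : ℂ) = ((-n : ℝ) : ℂ) := by rw [hkn]
        push_cast at this ⊢
        rw [this]; ring
      rw [e1]
      push_cast
      rfl
  have hI : toComplex (⟨0, 1⟩ : ℤ√(-1)) = I := by
    apply Complex.ext
    · rw [toComplex_re]; simp
    · rw [toComplex_im]; simp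
  have hIj : I ^ j' = Complex.exp (((j * (Real.pi / 2) : ℝ) : ℂ) * I) := by
    have hI1 : I = Complex.exp ((Real.pi / 2 : ℂ) * I) := by
      rw [Complex.exp_pi_div_two_mul_I]
    have hjj : (j : ℤ) = 4 * (j / 4) + (j' : ℤ) := by
      rw [hj', Int.toNat_of_nonneg (Int.emod_nonneg _ (by norm_num))]
      omega
    have e0 : (((j * (Real.pi / 2) : ℝ) : ℂ) * I) = (j' : ℂ) * ((Real.pi / 2 : ℂ) * I) +
        ((j / 4 : ℤ) : ℂ) * (2 * Real.pi * I) := by
      have : (j : ℂ) = 4 * ((j / 4 : ℤ) : ℂ) + (j' : ℂ) := by exact_mod_cast congrArg (Int.cast (R := ℂ)) hjj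
      push_cast
      rw [this]
      ring
    rw [e0, Complex.exp_add, Complex.exp_int_mul_two_pi_mul_I, mul_one, Complex.exp_nat_mul, ← hI1]
  have hgc : toComplex g = ((ρ ^ k : ℝ) : ℂ) * Complex.exp ((φ : ℂ) * I) := by
    rw [hg, map_mul, hwk, map_pow, hI, hIj, mul_assoc, ← Complex.exp_add, ← add_mul, ← Complex.ofReal_add]
  have hre : (g.re : ℝ) = ρ ^ k * Real.cos φ := by
    have := congrArg Complex.re hgc
    rw [toComplex_re, Complex.re_ofReal_mul, Complex.exp_ofReal_mul_I_re] at this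
    exact this
  have him : (g.im : ℝ) = ρ ^ k * Real.sin φ := by
    have := congrArg Complex.im hgc
    rw [toComplex_im, Complex.im_ofReal_mul, Complex.exp_ofReal_mul_I_im] at this
    exact this
  have hρk : 0 < ρ ^ k := pow_pos hρpos k
  have hsin0 : 0 < Real.sin φ := Real.sin_pos_of_pos_of_lt_pi hφ0 (by
    have := Real.pi_gt_three
    linarith)
  have hsin1 : Real.sin φ < φ := Real.sin_lt hφ0
  have hcos : 1 / 2 ≤ Real.cos φ := by
    have := Real.one_sub_sq_div_two_le_cos (x := φ)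
    nlinarith
  have himpos : 0 < g.im := by
    have : (0 : ℝ) < g.im := by rw [him]; positivity
    exact_mod_cast this
  have hrepos : 0 < g.re := by
    have : (0 : ℝ) < g.re := by rw [hre]; positivity
    exact_mod_cast this
  have hslope : (M0 : ℤ) * g.im ≤ g.re := by
    have : (M0 : ℝ) * g.im ≤ g.re := by
      rw [hre, him]
      have h1 : (M0 : ℝ) * Real.sin φ ≤ M0 * δ := by
        apply mul_le_mul_of_nonneg_left _ (by positivity)
        linarith
      have h2 : (M0 : ℝ) * Real.sin φ ≤ Real.cos φ := by linarith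
      calc (M0 : ℝ) * (ρ ^ k * Real.sin φ) = ρ ^ k * (M0 * Real.sin φ) := by ring
        _ ≤ ρ ^ k * Real.cos φ := mul_le_mul_of_nonneg_left h2 hρk.le
    exact_mod_cast this
  -- the norm
  have hnorm : g.norm = (p : ℤ) ^ k := by
    rw [hg, Zsqrtd.norm_mul]
    have e1 : ∀ (x : ℤ√(-1)) (r : ℕ), (x ^ r).norm = x.norm ^ r := by
      intro x r
      induction r with
      | zero => simp
      | succ r ih => rw [pow_succ, Zsqrtd.norm_mul, ih, pow_succ]
    rw [e1, e1]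
    have e2 : (⟨0, 1⟩ : ℤ√(-1)).norm = 1 := by simp [Zsqrtd.norm_def]
    have e3 : w.norm = p := by
      rw [hw]
      split_ifs
      · rw [Zsqrtd.norm_def]
        simp only
        rw [← hst]; push_cast; ring
      · rw [Zsqrtd.norm_def]
        simp only
        rw [← hst]; push_cast; ring
    rw [e2, e3, one_pow, mul_one]
  have hsum : g.re ^ 2 + g.im ^ 2 = (p : ℤ) ^ k := by
    rw [← hnorm, Zsqrtd.norm_def]; ring
  -- primitivity
  have hndvd : ¬ ((p : ℤ) ∣ g.re ∧ (p : ℤ) ∣ g.im) := by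
    intro hdv
    have h1 : ((p : ℤ) : ℤ√(-1)) ∣ g := (Zsqrtd.intCast_dvd _ _).mpr hdv
    have hunit : IsUnit ((⟨0, 1⟩ : ℤ√(-1)) ^ j') := by
      apply IsUnit.pow
      apply IsUnit.of_mul_eq_one (⟨0, -1⟩ : ℤ√(-1))
      ext <;> simp
    rw [hg, hunit.dvd_mul_right, Zsqrtd.intCast_dvd] at h1
    rcases Nat.eq_zero_or_pos k with hk0 | hk0
    · rw [hk0, pow_zero] at h1
      have h2 : (p : ℤ) ∣ 1 := by simpa using h1.1
      have : p ∣ 1 := by exact_mod_cast h2
      exact hp.one_lt.ne' (Nat.dvd_one.mp this)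
    · obtain ⟨k', hk'⟩ : ∃ k', k = k' + 1 := ⟨k - 1, by omega⟩
      rw [hk'] at h1
      have h2 := not_dvd_im p s t hp hp2 hst k'
      by_cases hn0 : 0 ≤ n
      · have hwe : w = ⟨s, t⟩ := by rw [hw, if_pos hn0]
        rw [hwe] at h1
        exact h2 h1.2
      · have hwe : w = star (⟨s, t⟩ : ℤ√(-1)) := by rw [hw, if_neg hn0]; rfl
        rw [hwe, ← star_pow, Zsqrtd.im_star] at h1
        exact h2 ((dvd_neg).mp h1.2)
  have hre' : ((g.re.toNat : ℕ) : ℤ) = g.re := Int.toNat_of_nonneg hrepos.le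
  have him' : ((g.im.toNat : ℕ) : ℤ) = g.im := Int.toNat_of_nonneg himpos.le
  have hpar : (g.re + j') % 2 = 1 ∧ (g.im + j') % 2 = 0 := by
    have hw2 : w.re % 2 = 1 ∧ w.im % 2 = 0 := by
      have ht2 : t % 2 = 0 := by
        have hodd : p % 2 = 1 := by
          rcases hp.eq_two_or_odd with h | h
          · exact absurd h hp2
          · exact h
        have h1 : (s ^ 2 + t ^ 2) % 2 = 1 := by rw [hst]; exact hodd
        rw [Nat.add_mod, Nat.pow_mod s, hs] at h1
        rcases Nat.mod_two_eq_zero_or_one t with h2 | h2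
        · exact h2
        · rw [Nat.pow_mod t, h2] at h1
          norm_num at h1
      rw [hw]
      split_ifs
      · simp only; omega
      · simp only; omega
    have hwk2 : ∀ r : ℕ, (w ^ r).re % 2 = 1 ∧ (w ^ r).im % 2 = 0 := by
      intro r
      induction r with
      | zero => simp
      | succ r ih =>
        rw [pow_succ, Zsqrtd.re_mul, Zsqrtd.im_mul]
        obtain ⟨h1, h2⟩ := ih
        obtain ⟨h3, h4⟩ := hw2
        obtain ⟨a, ha⟩ : ∃ a, w.re = 2 * a + 1 := ⟨w.re / 2, by omega⟩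
        obtain ⟨b, hb⟩ : ∃ b, w.im = 2 * b := ⟨w.im / 2, by omega⟩
        obtain ⟨c, hc⟩ : ∃ c, (w ^ r).re = 2 * c + 1 := ⟨(w ^ r).re / 2, by omega⟩
        obtain ⟨d, hd⟩ : ∃ d, (w ^ r).im = 2 * d := ⟨(w ^ r).im / 2, by omega⟩
        rw [ha, hb, hc, hd]
        constructor
        · have : (2 * c + 1) * (2 * a + 1) + -1 * (2 * d) * (2 * b) =
              2 * (2 * c * a + c + a - 2 * d * b) + 1 := by ring
          omega
        · have : (2 * c + 1) * (2 * b) + (2 * d) * (2 * a + 1) =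
              2 * ((2 * c + 1) * b + d * (2 * a + 1)) := by ring
          omega
    have hij : ∀ r : ℕ, ((w ^ k * (⟨0, 1⟩ : ℤ√(-1)) ^ r).re + r) % 2 = 1 ∧
        ((w ^ k * (⟨0, 1⟩ : ℤ√(-1)) ^ r).im + r) % 2 = 0 := by
      intro r
      induction r with
      | zero =>
        rw [pow_zero, mul_one]
        have := hwk2 k
        push_cast
        omega
      | succ r ih =>
        rw [pow_succ, ← mul_assoc]
        generalize (w ^ k * (⟨0, 1⟩ : ℤ√(-1)) ^ r) = y at ih ⊢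
        rw [Zsqrtd.re_mul, Zsqrtd.im_mul]
        simp only
        push_cast
        omega
    exact hij j'
  have hj2 : (j' : ℤ) % 2 = j % 2 := by
    rw [hj', Int.toNat_of_nonneg (Int.emod_nonneg _ (by norm_num))]
    omega
  refine ⟨g.re.toNat, g.im.toNat, by omega, ?_, ?_, ?_, ?_⟩
  · zify
    rw [hre', him']
    exact hslope
  · apply Nat.coprime_of_dvd
    intro l hl h1 h2
    have h3 : l ∣ p ^ k := by
      have h4 : l ∣ g.re.toNat ^ 2 + g.im.toNat ^ 2 :=
        dvd_add (dvd_pow h1 (by norm_num)) (dvd_pow h2 (by norm_num))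
      have h5 : g.re.toNat ^ 2 + g.im.toNat ^ 2 = p ^ k := by
        zify
        rw [hre', him']
        exact hsum
      rwa [h5] at h4
    have h4 : l = p := (Nat.prime_dvd_prime_iff_eq hl hp).mp (hl.dvd_of_dvd_pow h3)
    subst h4
    apply hndvd
    rw [← hre', ← him']
    exact ⟨by exact_mod_cast h1, by exact_mod_cast h2⟩
  · zify
    rw [hre', him']
    exact hsum
  · rw [hre']
    have := hpar.1
    omega

lemma odd_rep (p : ℕ) (hp : p.Prime) (hp4 : p % 4 = 1) : ∃ s t : ℕ, s ^ 2 + t ^ 2 = p ∧ s % 2 = 1 := by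
  have := Fact.mk hp
  obtain ⟨s, t, hst⟩ := Nat.Prime.sq_add_sq (p := p) (by omega)
  rcases Nat.mod_two_eq_zero_or_one s with h | h
  · refine ⟨t, s, by rw [add_comm]; exact hst, ?_⟩
    rcases Nat.mod_two_eq_zero_or_one t with h' | h'
    · exfalso
      have h1 : (s ^ 2 + t ^ 2) % 2 = 1 := by rw [hst]; omega
      rw [Nat.add_mod, Nat.pow_mod s, h, Nat.pow_mod t, h'] at h1
      norm_num at h1
    · exact h'
  · exact ⟨s, t, hst, h⟩

theorem small_angle (p : ℕ) (hp : p.Prime) (hp4 : p % 4 = 1) (m M0 : ℕ) (hm : 1 ≤ m) :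
    ∃ k G1 G2 : ℕ, 1 ≤ G2 ∧ M0 * G2 ≤ G1 ∧ Nat.Coprime G1 G2 ∧ G1 ^ 2 + G2 ^ 2 = p ^ k ∧
      ∃ i : ℤ, (k : ℤ) = i * m + 1 ∨ (k : ℤ) = -(i * m + 1) := by
  have hp2 : p ≠ 2 := by rintro rfl; omega
  obtain ⟨s, t, hst, hs⟩ := odd_rep p hp hp4
  set θ := arg (toComplex ⟨s, t⟩) with hθ
  have hirr := irr p s t hp hp2 hst m hm
  have hdense := dense_addSubgroupClosure_pair_iff.mpr hirr
  set δ : ℝ := 1 / (2 * M0 + 1) with hδ
  have hδpos : 0 < δ := by positivity
  obtain ⟨x, hxI, hxc⟩ := hdense.inter_open_nonempty (Set.Ioo (-θ) (-θ + δ)) isOpen_Ioo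
    ⟨-θ + δ / 2, by constructor <;> linarith⟩
  obtain ⟨i, j, hij⟩ := AddSubgroup.mem_closure_pair.mp hxc
  rw [zsmul_eq_mul, zsmul_eq_mul] at hij
  have hφx : ((i * m + 1 : ℤ) : ℝ) * θ + j * (Real.pi / 2) = x + θ := by
    rw [← hij]; push_cast; ring
  obtain ⟨G1, G2, h1, h2, h3, h4, -⟩ := realize p s t hp hp2 hst M0 hs (i * m + 1) j
    (by rw [hφx]; linarith [hxI.1]) (by rw [hφx]; linarith [hxI.2])
  refine ⟨(i * m + 1).natAbs, G1, G2, h1, h2, h3, h4, i, ?_⟩
  rcases Int.natAbs_eq (i * m + 1) with h | h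
  · left; exact h.symm
  · right; omega

/-- small slope, odd real part, exponent `≡ ±1` -/
theorem small_angle_odd (p : ℕ) (hp : p.Prime) (hp4 : p % 4 = 1) (m M0 : ℕ) (hm : 1 ≤ m) :
    ∃ k G1 G2 : ℕ, 1 ≤ G2 ∧ M0 * G2 ≤ G1 ∧ Nat.Coprime G1 G2 ∧ G1 ^ 2 + G2 ^ 2 = p ^ k ∧
      G1 % 2 = 1 ∧ ∃ i : ℤ, (k : ℤ) = i * m + 1 ∨ (k : ℤ) = -(i * m + 1) := by
  have hp2 : p ≠ 2 := by rintro rfl; omega
  obtain ⟨s, t, hst, hs⟩ := odd_rep p hp hp4
  set θ := arg (toComplex ⟨s, t⟩) with hθ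
  have hirr : Irrational ((m * θ) / Real.pi) := by
    have h1 := irr p s t hp hp2 hst m hm
    have h2 : (m * θ) / Real.pi =
        ((m * arg (toComplex ⟨s, t⟩)) / (Real.pi / 2)) * ((1 / 2 : ℚ) : ℝ) := by
      have := Real.pi_pos
      rw [hθ]
      push_cast
      field_simp
    rw [h2]
    exact h1.mul_ratCast (by norm_num)
  have hdense := dense_addSubgroupClosure_pair_iff.mpr hirr
  set δ : ℝ := 1 / (2 * M0 + 1) with hδ
  have hδpos : 0 < δ := by positivity
  obtain ⟨x, hxI, hxc⟩ := hdense.inter_open_nonempty (Set.Ioo (-θ) (-θ + δ)) isOpen_Ioo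
    ⟨-θ + δ / 2, by constructor <;> linarith⟩
  obtain ⟨i, j, hij⟩ := AddSubgroup.mem_closure_pair.mp hxc
  rw [zsmul_eq_mul, zsmul_eq_mul] at hij
  have hφx : ((i * m + 1 : ℤ) : ℝ) * θ + ((2 * j : ℤ) : ℝ) * (Real.pi / 2) = x + θ := by
    rw [← hij]; push_cast; ring
  obtain ⟨G1, G2, h1, h2, h3, h4, h5⟩ := realize p s t hp hp2 hst M0 hs (i * m + 1) (2 * j)
    (by rw [hφx]; linarith [hxI.1]) (by rw [hφx]; linarith [hxI.2])
  refine ⟨(i * m + 1).natAbs, G1, G2, h1, h2, h3, h4, by omega, i, ?_⟩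
  rcases Int.natAbs_eq (i * m + 1) with h | h
  · left; exact h.symm
  · right; omega

end H359R4
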