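import Pool.Agent.H359R4.Geo3
import Pool.Agent.H359R4.SmallAngle

/-! The rigidity theorem for sums of two squares. -/

namespace H359R4

open Finset H359R2 H359R3

lemma coprime_rot (P G1 G2 : ℕ)
    (hN : ∀ l : ℕ, l.Prime → l ∣ G1 ^ 2 + G2 ^ 2 → l ∣ P)
    (hcop : Nat.Coprime G1 G2) (hG : 4 * G2 ≤ G1) {R : ℕ} {x : ℕ × ℕ} (hx : x ∈ TT R)
    (hxc : Nat.Coprime x.1 x.2) (hx1 : x.1 % P = 1 % P) (hx2 : P ∣ x.2) :
    Nat.Coprime (r1 1 G1 G2 x) (r2 0 G1 G2 x) := by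
  have hr := r1_add (A := 0) (C := 1) (G1 := G1) (G2 := G2) (by omega) hx
  rw [one_mul] at hr
  have hr2 : r2 0 G1 G2 x = G1 * x.2 + G2 * x.1 := by unfold r2; ring
  apply Nat.coprime_of_dvd
  intro l hl h1 h2
  have hlP : l ∣ P := by
    apply hN l hl
    by_contra hne
    have e1 : l ∣ (G1 ^ 2 + G2 ^ 2) * x.1 := by
      have h3 : l ∣ r1 1 G1 G2 x * G1 + r2 0 G1 G2 x * G2 :=
        dvd_add (dvd_mul_of_dvd_left h1 _) (dvd_mul_of_dvd_left h2 _)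
      have h4 : r1 1 G1 G2 x * G1 + r2 0 G1 G2 x * G2 = (G1 ^ 2 + G2 ^ 2) * x.1 := by
        rw [hr2]
        zify at hr ⊢
        linear_combination (G1 : ℤ) * hr
      rwa [h4] at h3
    have e2 : l ∣ (G1 ^ 2 + G2 ^ 2) * x.2 := by
      have h3 : (l : ℤ) ∣ r2 0 G1 G2 x * G1 - r1 1 G1 G2 x * G2 :=
        dvd_sub (dvd_mul_of_dvd_left (by exact_mod_cast h2) _)
          (dvd_mul_of_dvd_left (by exact_mod_cast h1) _)
      have h4 : (r2 0 G1 G2 x : ℤ) * G1 - r1 1 G1 G2 x * G2 =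
          (((G1 ^ 2 + G2 ^ 2) * x.2 : ℕ) : ℤ) := by
        rw [hr2]
        zify at hr ⊢
        linear_combination (-(G2 : ℤ)) * hr
      rw [h4] at h3
      exact_mod_cast h3
    have e3 := (hl.dvd_mul.mp e1).resolve_left hne
    have e4 := (hl.dvd_mul.mp e2).resolve_left hne
    exact hl.one_lt.ne' (Nat.eq_one_of_dvd_coprimes hxc e3 e4)
  have hlx1 : ¬ l ∣ x.1 := by
    intro h
    have h3 : x.1 ≡ 1 [MOD l] := Nat.ModEq.of_dvd hlP hx1
    have h4 := (Nat.modEq_zero_iff_dvd.mpr h).symm.trans h3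
    have h5 := Nat.modEq_zero_iff_dvd.mp h4.symm
    exact hl.one_lt.ne' (Nat.dvd_one.mp h5)
  have hlx2 : l ∣ x.2 := dvd_trans hlP hx2
  have e1 : l ∣ G1 := by
    have h3 : l ∣ G1 * x.1 := by
      rw [← hr]
      exact dvd_add h1 (dvd_mul_of_dvd_right hlx2 _)
    exact (hl.dvd_mul.mp h3).resolve_right hlx1
  have e2 : l ∣ G2 := by
    rw [hr2] at h2
    have h3 : l ∣ G2 * x.1 := (Nat.dvd_add_right (dvd_mul_of_dvd_right hlx2 _)).mp h2
    exact (hl.dvd_mul.mp h3).resolve_right hlx1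
  exact hl.one_lt.ne' (Nat.eq_one_of_dvd_coprimes hcop e1 e2)

variable {H : Type*} [AddCommGroup H]

lemma f_one {f : ℕ → H} (hf : ∀ m n : ℕ, m ≠ 0 → n ≠ 0 → f (m * n) = f m + f n) : f 1 = 0 := by
  have := hf 1 1 one_ne_zero one_ne_zero
  simpa using this

lemma f_pow {f : ℕ → H} (hf : ∀ m n : ℕ, m ≠ 0 → n ≠ 0 → f (m * n) = f m + f n) {a : ℕ}
    (ha : a ≠ 0) (k : ℕ) : f (a ^ k) = k • f a := by
  induction k with
  | zero => rw [pow_zero, f_one hf, zero_smul]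
  | succ k ih => rw [pow_succ, hf _ _ (pow_ne_zero k ha) ha, ih, succ_nsmul]

theorem rigid_pair [DecidableEq H] (f : ℕ → H)
    (hf : ∀ m n : ℕ, m ≠ 0 → n ≠ 0 → f (m * n) = f m + f n)
    (V : Finset H) (hV : V.card ≤ 2) (hsum : Summable (wtK 0 1 {n | f (PP 0 1 n) ∉ V}))
    (P : ℕ) (hP : 2 ≤ P)
    (hgh : ∀ M0 : ℕ, ∃ G1 G2 H1 H2 : ℕ, 1 ≤ G2 ∧ M0 * G2 ≤ G1 ∧ 1 ≤ H2 ∧ M0 * H2 ≤ H1 ∧
      G2 * H1 < G1 * H2 ∧ Nat.Coprime G1 G2 ∧ Nat.Coprime H1 H2 ∧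
      (∀ l : ℕ, l.Prime → l ∣ G1 ^ 2 + G2 ^ 2 → l ∣ P) ∧
      (∀ l : ℕ, l.Prime → l ∣ H1 ^ 2 + H2 ^ 2 → l ∣ P) ∧
      f (G1 ^ 2 + G2 ^ 2) ≠ 0 ∧ f (H1 ^ 2 + H2 ^ 2) ≠ 0 ∧
      f (G1 ^ 2 + G2 ^ 2) ≠ f (H1 ^ 2 + H2 ^ 2)) : False := by
  set B : Set ℕ := {n | f (PP 0 1 n) ∉ V} with hB
  have hBv : ∀ n, n ∉ B → f (PP 0 1 n) ∈ V := by
    intro n hn
    rw [hB, Set.mem_ofPred_eq, not_not] at hn
    exact hn
  obtain ⟨Y, M0, hY, hM0, hgood⟩ := exists_good3 0 1 le_rfl (EA 0 1 B)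
    (summable_EA 0 1 le_rfl B hsum) P hP
  obtain ⟨G1, G2, H1, H2, hG2, hMG, hH2, hMH, hdet, hcG, hcH, hlG, hlH, hfG, hfH, hfGH⟩ := hgh M0
  obtain ⟨R, x, hxT, hxc, hx1, hx2, hA1, hA2, hA3, a, b, c, e, q1, q2, q3, q4, q5, q6, hYd, hedge,
    t1, t2, t3, t4, t5, t6, s1, s2, s3, s4, s5, s6⟩ := hgood G1 G2 H1 H2 hG2 hMG hH2 hMH hdet
  have h4G : 4 * G2 ≤ G1 := (Nat.mul_le_mul_right _ hM0).trans hMG
  have h4H : 4 * H2 ≤ H1 := (Nat.mul_le_mul_right _ hM0).trans hMH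
  have hNg : Nm 0 1 G1 G2 = G1 ^ 2 + G2 ^ 2 := by unfold Nm; ring
  have hNh : Nm 0 1 H1 H2 = H1 ^ 2 + H2 ^ 2 := by unfold Nm; ring
  have hc1 := coprime_rot P G1 G2 hlG hcG h4G hxT hxc hx1 hx2
  have hc2 := coprime_rot P H1 H2 hlH hcH h4H hxT hxc hx1 hx2
  have d1 := descent_T le_rfl hf hV hBv hY hA1 hxc (q1 + q2) a b c e q1 q2 le_rfl hedge hYd t1 t2 s1 s2
  have d2 := descent_T le_rfl hf hV hBv hY hA2 hc1 (q3 + q4) a b c e q3 q4 le_rfl hedge hYd t3 t4 s3 s4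
  have d3 := descent_T le_rfl hf hV hBv hY hA3 hc2 (q5 + q6) a b c e q5 q6 le_rfl hedge hYd t5 t6 s5 s6
  have hx0 : Nm 0 1 x.1 x.2 ≠ 0 := by
    rw [mem_TT] at hxT
    exact (nm_pos le_rfl (by omega)).ne'
  rw [nm_rot (by omega) hxT, hNg, hf _ _ (by positivity) hx0] at d2
  rw [nm_rot (by omega) hxT, hNh, hf _ _ (by positivity) hx0] at d3
  generalize f (Nm 0 1 x.1 x.2) = t at d1 d2 d3
  generalize f (G1 ^ 2 + G2 ^ 2) = u at d2 hfG hfGH
  generalize f (H1 ^ 2 + H2 ^ 2) = v at d3 hfH hfGH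
  have hT := TS_card hV (f (Nm 0 1 a b)) (f (Nm 0 1 c e))
  set T := TS V (f (Nm 0 1 a b)) (f (Nm 0 1 c e)) with hTdef
  have hsub : ({t, u + t, v + t} : Finset H) ⊆ T := by
    intro z hz
    rw [Finset.mem_insert, Finset.mem_insert, Finset.mem_singleton] at hz
    rcases hz with rfl | rfl | rfl
    · exact d1
    · exact d2
    · exact d3
  have hcard3 : ({t, u + t, v + t} : Finset H).card = 3 := by
    rw [Finset.card_insert_of_notMem, Finset.card_pair]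
    · intro h3
      exact hfGH (add_right_cancel h3)
    · rw [Finset.mem_insert, Finset.mem_singleton]
      rintro (h3 | h3)
      · exact hfG (right_eq_add.mp h3)
      · exact hfH (right_eq_add.mp h3)
  have := Finset.card_le_card hsub
  omega

/-- one prime whose value has order at least three -/
theorem rigid3 [DecidableEq H] (f : ℕ → H)
    (hf : ∀ m n : ℕ, m ≠ 0 → n ≠ 0 → f (m * n) = f m + f n)
    (V : Finset H) (hV : V.card ≤ 2) (hsum : Summable (wtK 0 1 {n | f (PP 0 1 n) ∉ V}))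
    (p : ℕ) (hp : p.Prime) (hp4 : p % 4 = 1) (m : ℕ) (hm : 1 ≤ m) (hmf : m • f p = 0)
    (h2 : 2 • f p ≠ 0) : False := by
  apply rigid_pair f hf V hV hsum p hp.two_le
  intro M
  set M0 := M + 4 with hM0def
  have hM0 : 4 ≤ M0 := by omega
  have hMM0 : M ≤ M0 := by omega
  obtain ⟨k, G1, G2, hG2, hslope, hcop, hnorm, i, hi⟩ := small_angle p hp hp4 m (4 * M0) hm
  have hMG : M0 * G2 ≤ G1 := by nlinarith
  have h16 : 16 * G2 ≤ G1 := by nlinarith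
  have hG1 : 1 ≤ G1 := by omega
  have hsq : G2 ^ 2 ≤ G1 ^ 2 := Nat.pow_le_pow_left (by omega) 2
  obtain ⟨H1, hH1⟩ : ∃ H1, G1 ^ 2 = H1 + G2 ^ 2 := ⟨G1 ^ 2 - G2 ^ 2, by omega⟩
  set H2 := 2 * (G1 * G2) with hH2
  have hH2pos : 1 ≤ H2 := by
    have := Nat.mul_le_mul hG1 hG2
    omega
  have e1 : (4 * M0 * G2) * G1 ≤ G1 * G1 := Nat.mul_le_mul_right _ hslope
  have e2 : (16 * G2) * G1 ≤ G1 * G1 := Nat.mul_le_mul_right _ h16
  have e3 : G2 * G2 ≤ G2 * G1 := Nat.mul_le_mul_left _ (by omega)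
  have hMH : M0 * H2 ≤ H1 := by
    rw [hH2]
    nlinarith
  have hdet : G2 * H1 < G1 * H2 := by
    rw [hH2]
    have h4 : G2 * H1 ≤ G2 * G1 ^ 2 := Nat.mul_le_mul_left _ (by omega)
    have h5 : 0 < G2 * G1 ^ 2 := by positivity
    nlinarith
  have hNh : H1 ^ 2 + H2 ^ 2 = p ^ (2 * k) := by
    rw [mul_comm 2 k, pow_mul, ← hnorm, hH2]
    zify at hH1 ⊢
    have : (H1 : ℤ) = G1 ^ 2 - G2 ^ 2 := by linarith
    rw [this]; ring
  have hcopH : Nat.Coprime H1 H2 := by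
    apply Nat.coprime_of_dvd
    intro l hl h3 h4
    have h5 : l ∣ p ^ (2 * k) := by
      rw [← hNh]
      exact dvd_add (dvd_pow h3 (by norm_num)) (dvd_pow h4 (by norm_num))
    have h6 : l = p := (Nat.prime_dvd_prime_iff_eq hl hp).mp (hl.dvd_of_dvd_pow h5)
    subst h6
    have h7 : l ∣ G1 * G2 := by
      rw [hH2] at h4
      rcases hl.dvd_mul.mp h4 with h8 | h8
      · have := (Nat.prime_dvd_prime_iff_eq hl Nat.prime_two).mp h8
        omega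
      · exact h8
    have h8 : l ∣ G1 ^ 2 + G2 ^ 2 := by
      rw [hnorm]
      apply dvd_pow_self
      rintro rfl
      rw [pow_zero] at hnorm
      nlinarith
    have h9 : l ∣ G1 ∧ l ∣ G2 := by
      rcases hl.dvd_mul.mp h7 with h10 | h10
      · exact ⟨h10, hl.dvd_of_dvd_pow ((Nat.dvd_add_right (dvd_pow h10 (by norm_num))).mp h8)⟩
      · exact ⟨hl.dvd_of_dvd_pow ((Nat.dvd_add_left (dvd_pow h10 (by norm_num))).mp h8), h10⟩
    exact hl.one_lt.ne' (Nat.eq_one_of_dvd_coprimes hcop h9.1 h9.2)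
  have hp0 : p ≠ 0 := hp.ne_zero
  set φ := k • f p with hφ
  have h2k : (2 * k) • f p = φ + φ := by rw [hφ, two_mul, add_smul]
  -- the value φ
  have hφ2 : φ + φ ≠ 0 := by
    have hz : ∀ j : ℤ, (j * m + 1) • f p = f p := by
      intro j
      rw [add_smul, one_smul, mul_smul]
      have : (m : ℤ) • f p = 0 := by rw [natCast_zsmul]; exact hmf
      rw [this, smul_zero, zero_add]
    have hφ' : φ = (k : ℤ) • f p := by rw [hφ, natCast_zsmul]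
    rw [two_smul] at h2
    rcases hi with hi | hi
    · rw [hφ', hi, hz]; exact h2
    · rw [hφ', hi, neg_smul, hz]
      intro h3
      apply h2
      have h4 : -(f p + f p) = 0 := by rw [neg_add]; exact h3
      exact neg_eq_zero.mp h4
  have hφ1 : φ ≠ 0 := by
    intro h0
    apply hφ2
    rw [h0, add_zero]
  refine ⟨G1, G2, H1, H2, hG2, (Nat.mul_le_mul_right _ hMM0).trans hMG, hH2pos,
    (Nat.mul_le_mul_right _ hMM0).trans hMH, hdet, hcop, hcopH, ?_, ?_, ?_, ?_, ?_⟩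
  · intro l hl h
    rw [hnorm] at h
    exact hl.dvd_of_dvd_pow h
  · intro l hl h
    rw [hNh] at h
    exact hl.dvd_of_dvd_pow h
  · rw [hnorm, f_pow hf hp0]; exact hφ1
  · rw [hNh, f_pow hf hp0, h2k]; exact hφ2
  · rw [hnorm, hNh, f_pow hf hp0, f_pow hf hp0, h2k]
    intro h3
    exact hφ1 (left_eq_add.mp h3)

/-- two primes with different nonzero values of order two -/
theorem rigid22 [DecidableEq H] (f : ℕ → H)
    (hf : ∀ m n : ℕ, m ≠ 0 → n ≠ 0 → f (m * n) = f m + f n)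
    (V : Finset H) (hV : V.card ≤ 2) (hsum : Summable (wtK 0 1 {n | f (PP 0 1 n) ∉ V}))
    (p q : ℕ) (hp : p.Prime) (hq : q.Prime) (hp4 : p % 4 = 1) (hq4 : q % 4 = 1)
    (h2p : 2 • f p = 0) (h2q : 2 • f q = 0) (hfp : f p ≠ 0) (hfq : f q ≠ 0) (hpq : f p ≠ f q) :
    False := by
  apply rigid_pair f hf V hV hsum (p * q) (by have := hp.two_le; have := hq.two_le; nlinarith)
  intro M
  set M0 := M + 4 with hM0def
  have hMM0 : M ≤ M0 := by omega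
  obtain ⟨k, G1, G2, hG2, hG, hcG, hnG, i, hi⟩ := small_angle p hp hp4 2 M0 (by norm_num)
  obtain ⟨k', H1, H2, hH2, hH, hcH, hnH, i', hi'⟩ := small_angle q hq hq4 2 M0 (by norm_num)
  have key : ∀ (r : ℕ) (x : H), 2 • x = 0 → (∃ i : ℤ, (r : ℤ) = i * (2 : ℕ) + 1 ∨
      (r : ℤ) = -(i * (2 : ℕ) + 1)) → r • x = x := by
    intro r x hx hr
    have hodd : r % 2 = 1 := by
      obtain ⟨i, hi⟩ := hr
      rcases hi with hi | hi
      · push_cast at hi; omega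
      · push_cast at hi; omega
    have : r = 2 * (r / 2) + 1 := by omega
    rw [this, add_smul, one_smul, mul_comm, mul_smul, hx, smul_zero, zero_add]
  have vG : f (G1 ^ 2 + G2 ^ 2) = f p := by
    rw [hnG, f_pow hf hp.ne_zero]; exact key k _ h2p ⟨i, hi⟩
  have vH : f (H1 ^ 2 + H2 ^ 2) = f q := by
    rw [hnH, f_pow hf hq.ne_zero]; exact key k' _ h2q ⟨i', hi'⟩
  have lG : ∀ l : ℕ, l.Prime → l ∣ G1 ^ 2 + G2 ^ 2 → l ∣ p * q := by
    intro l hl h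
    rw [hnG] at h
    exact dvd_mul_of_dvd_left (hl.dvd_of_dvd_pow h) _
  have lH : ∀ l : ℕ, l.Prime → l ∣ H1 ^ 2 + H2 ^ 2 → l ∣ p * q := by
    intro l hl h
    rw [hnH] at h
    exact dvd_mul_of_dvd_right (hl.dvd_of_dvd_pow h) _
  have hMG : M * G2 ≤ G1 := (Nat.mul_le_mul_right _ hMM0).trans hG
  have hMH : M * H2 ≤ H1 := (Nat.mul_le_mul_right _ hMM0).trans hH
  have hne : G2 * H1 ≠ G1 * H2 := by
    intro h
    have h1 : G1 ∣ H1 := hcG.dvd_of_dvd_mul_left (by rw [h]; exact Dvd.intro _ rfl)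
    have h2 : H1 ∣ G1 := hcH.dvd_of_dvd_mul_right (by rw [← h]; exact Dvd.intro_left _ rfl)
    have h3 : G1 = H1 := Nat.dvd_antisymm h1 h2
    have hG1 : 0 < G1 := by nlinarith
    rw [← h3, mul_comm] at h
    have h4 : G2 = H2 := Nat.eq_of_mul_eq_mul_left hG1 h
    apply hpq
    rw [← vG, ← vH, h3, h4]
  rcases lt_or_gt_of_ne hne with h | h
  · exact ⟨G1, G2, H1, H2, hG2, hMG, hH2, hMH, h, hcG, hcH, lG, lH, by rw [vG]; exact hfp,
      by rw [vH]; exact hfq, by rw [vG, vH]; exact hpq⟩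
  · exact ⟨H1, H2, G1, G2, hH2, hMH, hG2, hMG, by rw [mul_comm H2, mul_comm H1]; exact h, hcH, hcG,
      lH, lG, by rw [vH]; exact hfq, by rw [vG]; exact hfp, by rw [vG, vH]; exact hpq.symm⟩

end H359R4
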