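import Pool.Agent.H359R4.Geo3
import Pool.Agent.H359R4.Rigid

/-! The ramified prime `3`: values `n^2+n+1` with `n ≡ 1 (mod 3)`. -/

namespace H359R4

open Finset H359R2 H359R3

/-- the form `a^2+ab+b^2` is divisible by `3` at `(a,b)` -/
def Q3 (a b : ℕ) : Prop := a % 3 = b % 3

instance (a b : ℕ) : Decidable (Q3 a b) := by unfold Q3; infer_instance

lemma nm_mod_of_Q3 {a b : ℕ} (h : Q3 a b) : 3 ∣ Nm 1 1 a b := by
  unfold Q3 at h
  have e : (a ^ 2 + 1 * (a * b) + 1 * b ^ 2) ≡ 0 [MOD 3] := by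
    have h1 : a ≡ b [MOD 3] := h
    calc a ^ 2 + 1 * (a * b) + 1 * b ^ 2 ≡ b ^ 2 + 1 * (b * b) + 1 * b ^ 2 [MOD 3] :=
          Nat.ModEq.add_right _ ((h1.pow 2).add ((h1.mul_right b).mul_left 1))
      _ = 3 * b ^ 2 := by ring
      _ ≡ 0 [MOD 3] := (Nat.modEq_zero_iff_dvd).mpr (Dvd.intro _ rfl)
  exact (Nat.modEq_zero_iff_dvd).mp e

lemma Q3_of_nm {a b : ℕ} (h : 3 ∣ Nm 1 1 a b) : Q3 a b := by
  unfold Q3
  have e : (a ^ 2 + 1 * (a * b) + 1 * b ^ 2) % 3 = 0 := Nat.mod_eq_zero_of_dvd h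
  have ha : a % 3 = 0 ∨ a % 3 = 1 ∨ a % 3 = 2 := by omega
  have hb : b % 3 = 0 ∨ b % 3 = 1 ∨ b % 3 = 2 := by omega
  rcases ha with ha | ha | ha <;> rcases hb with hb | hb | hb <;>
    simp [Nat.add_mod, Nat.mul_mod, Nat.pow_mod, ha, hb] at e ⊢

lemma pp_mod {n : ℕ} (h : 3 ∣ PP 1 1 n) : n % 3 = 1 := by
  have e : (n ^ 2 + 1 * n + 1) % 3 = 0 := Nat.mod_eq_zero_of_dvd h
  have hn : n % 3 = 0 ∨ n % 3 = 1 ∨ n % 3 = 2 := by omega
  rcases hn with hn | hn | hn <;> simp [Nat.add_mod, Nat.mul_mod, Nat.pow_mod, hn] at e ⊢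

lemma dt_mod {a b c e : ℕ} (h : a * e = b * c + 1) (hQ : Q3 a b ∨ Q3 c e) :
    dt 1 1 a b c e % 3 = 1 := by
  apply pp_mod
  rw [← nm_mul_nm 1 1 a b c e h]
  rcases hQ with h1 | h1
  · exact dvd_mul_of_dvd_left (nm_mod_of_Q3 h1) _
  · exact dvd_mul_of_dvd_right (nm_mod_of_Q3 h1) _

lemma not_both {a b c e : ℕ} (h : a * e = b * c + 1) : ¬ (Q3 a b ∧ Q3 c e) := by
  rintro ⟨h1, h2⟩
  unfold Q3 at h1 h2
  have h3 : a * e ≡ b * c [MOD 3] := Nat.ModEq.mul h1 (Eq.symm h2)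
  rw [h] at h3
  have h4 : (b * c + 1) % 3 = (b * c) % 3 := h3
  omega

lemma cls {a b c e : ℕ} (h1 : ¬ Q3 a b) (h2 : ¬ Q3 c e) (h3 : ¬ Q3 (a + c) (b + e)) :
    Q3 (a + (a + c)) (b + (b + e)) ∧ Q3 ((a + c) + c) ((b + e) + e) := by
  unfold Q3 at *
  have ha : a % 3 = 0 ∨ a % 3 = 1 ∨ a % 3 = 2 := by omega
  have hb : b % 3 = 0 ∨ b % 3 = 1 ∨ b % 3 = 2 := by omega
  have hc : c % 3 = 0 ∨ c % 3 = 1 ∨ c % 3 = 2 := by omega
  have he : e % 3 = 0 ∨ e % 3 = 1 ∨ e % 3 = 2 := by omega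
  rcases ha with ha | ha | ha <;> rcases hb with hb | hb | hb <;>
    rcases hc with hc | hc | hc <;> rcases he with he | he | he <;> omega

/-- relation between the values at an edge and the value `t` of the component -/
def Inv3 (v t fx fy fz : ZMod 2) (a b c e : ℕ) : Prop :=
  (Q3 a b ∧ fx = v - t) ∨ (Q3 c e ∧ fy = v - t) ∨
  (¬ Q3 a b ∧ ¬ Q3 c e ∧ Q3 (a + c) (b + e) ∧ (fx = t ∨ fy = t)) ∨
  (¬ Q3 a b ∧ ¬ Q3 c e ∧ ¬ Q3 (a + c) (b + e) ∧ fx = t ∧ fy = t) ∨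
  (¬ Q3 a b ∧ ¬ Q3 c e ∧ ¬ Q3 (a + c) (b + e) ∧ fz = t)

lemma Inv3_step {a b c e : ℕ} (h : a * e = b * c + 1) {v t fx fy fz : ZMod 2}
    (k1 : (Q3 a b ∨ Q3 c e) → fx + fy = v)
    (k2 : (Q3 a b ∨ Q3 (a + c) (b + e)) → fx + fz = v)
    (k3 : (Q3 (a + c) (b + e) ∨ Q3 c e) → fz + fy = v)
    (hI : Inv3 v t fx fy fz a b c e) :
    (∀ fl, Inv3 v t fx fz fl a b (a + c) (b + e)) ∧
    (∀ fl, Inv3 v t fz fy fl (a + c) (b + e) c e) ∧
    (Q3 (a + c) (b + e) → fz = v - t) := by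
  have hb := not_both h
  have g1 : fx + fy = v → fx = v - fy := fun h => by rw [← h]; ring
  have g2 : fx + fy = v → fy = v - fx := fun h => by rw [← h]; ring
  have g3 : fx + fz = v → fx = v - fz := fun h => by rw [← h]; ring
  have g4 : fx + fz = v → fz = v - fx := fun h => by rw [← h]; ring
  have g5 : fz + fy = v → fz = v - fy := fun h => by rw [← h]; ring
  have g6 : fz + fy = v → fy = v - fz := fun h => by rw [← h]; ring
  unfold Inv3 at hI ⊢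
  rcases hI with ⟨q, hx⟩ | ⟨q, hy⟩ | ⟨q1, q2, q3, hv⟩ | ⟨q1, q2, q3, hx, hy⟩ | ⟨q1, q2, q3, hz⟩
  · -- x in Q
    have hy : fy = t := by rw [g2 (k1 (Or.inl q)), hx]; ring
    have hz : fz = t := by rw [g4 (k2 (Or.inl q)), hx]; ring
    have nq : ¬ Q3 c e := fun h' => hb ⟨q, h'⟩
    refine ⟨fun _ => Or.inl ⟨q, hx⟩, fun _ => ?_, ?_⟩
    · right; right; right; left
      unfold Q3 at *
      refine ⟨by omega, by omega, by omega, hz, hy⟩
    · intro h'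
      exfalso
      unfold Q3 at *
      omega
  · have hx : fx = t := by rw [g1 (k1 (Or.inr q)), hy]; ring
    have hz : fz = t := by rw [g5 (k3 (Or.inr q)), hy]; ring
    have nq : ¬ Q3 a b := fun h' => hb ⟨h', q⟩
    refine ⟨fun _ => ?_, fun _ => Or.inr (Or.inl ⟨q, hy⟩), ?_⟩
    · right; right; right; left
      unfold Q3 at *
      refine ⟨by omega, by omega, by omega, hx, hz⟩
    · intro h'
      exfalso
      unfold Q3 at *
      omega
  · have hz : fz = v - t := by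
      rcases hv with h1 | h1
      · rw [g4 (k2 (Or.inr q3)), h1]
      · rw [g5 (k3 (Or.inl q3)), h1]
    exact ⟨fun _ => Or.inr (Or.inl ⟨q3, hz⟩), fun _ => Or.inl ⟨q3, hz⟩, fun _ => hz⟩
  · have hc := cls q1 q2 q3
    refine ⟨fun _ => ?_, fun _ => ?_, fun h' => absurd h' q3⟩
    · right; right; left
      exact ⟨q1, q3, hc.1, Or.inl hx⟩
    · right; right; left
      exact ⟨q3, q2, hc.2, Or.inr hy⟩
  · have hc := cls q1 q2 q3
    refine ⟨fun _ => ?_, fun _ => ?_, fun h' => absurd h' q3⟩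
    · right; right; left
      exact ⟨q1, q3, hc.1, Or.inr hz⟩
    · right; right; left
      exact ⟨q3, q2, hc.2, Or.inl hz⟩

/-- the value of the component of an edge -/
def T3v (v fx fy fz : ZMod 2) (a b c e : ℕ) : ZMod 2 :=
  if Q3 a b then v - fx else if Q3 c e then v - fy else
  if Q3 (a + c) (b + e) then fx else fz

lemma Inv3_T3v (v fx fy fz : ZMod 2) (a b c e : ℕ) :
    Inv3 v (T3v v fx fy fz a b c e) fx fy fz a b c e := by
  unfold Inv3 T3v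
  by_cases h1 : Q3 a b
  · rw [if_pos h1]
    left
    exact ⟨h1, by ring⟩
  · rw [if_neg h1]
    by_cases h2 : Q3 c e
    · rw [if_pos h2]
      right; left
      exact ⟨h2, by ring⟩
    · rw [if_neg h2]
      by_cases h3 : Q3 (a + c) (b + e)
      · rw [if_pos h3]
        right; right; left
        exact ⟨h1, h2, h3, Or.inl rfl⟩
      · rw [if_neg h3]
        right; right; right; right
        exact ⟨h1, h2, h3, rfl⟩

lemma zmod2_two (x : ZMod 2) : x + x = 0 := by revert x; decide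

lemma f_sq2 {f : ℕ → ZMod 2} (hf : ∀ m n : ℕ, m ≠ 0 → n ≠ 0 → f (m * n) = f m + f n) {k n : ℕ}
    (hk : k ≠ 0) (hn : n ≠ 0) : f (k ^ 2 * n) = f n := by
  rw [hf _ _ (pow_ne_zero 2 hk) hn, pow_two, hf _ _ hk hk, zmod2_two, zero_add]

lemma nm_scale (A C k a b : ℕ) : Nm A C (k * a) (k * b) = k ^ 2 * Nm A C a b := by
  unfold Nm; ring

lemma descent_Q3 {f : ℕ → ZMod 2}
    (hf : ∀ m n : ℕ, m ≠ 0 → n ≠ 0 → f (m * n) = f m + f n) {v : ZMod 2}
    {B : Set ℕ} (hB : ∀ n, n ∉ B → n % 3 = 1 → f (PP 1 1 n) = v) {Y w1 w2 : ℕ} (hY : 1 ≤ Y)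
    (hw : ¬ AffE 1 1 (EA 1 1 B) Y w1 w2) (hwQ : 3 ∣ Nm 1 1 w1 w2) (hw9 : ¬ 9 ∣ Nm 1 1 w1 w2)
    (t : ZMod 2) :
    ∀ (k a b c e p q : ℕ), p + q ≤ k → a * e = b * c + 1 → 2 * Y ≤ dt 1 1 a b c e → 1 ≤ p → 1 ≤ q →
      w1 = p * a + q * c → w2 = p * b + q * e →
      Inv3 v t (f (Nm 1 1 a b)) (f (Nm 1 1 c e)) (f (Nm 1 1 (a + c) (b + e))) a b c e →
      f (Nm 1 1 w1 w2) = v - t := by
  intro k
  induction k with
  | zero => intro a b c e p q hk; omega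
  | succ k ih =>
    intro a b c e p q hk h hdt hp hq h1 h2 hI
    obtain ⟨g1, g2, g3⟩ := unaff_good le_rfl hY hw a b c e p q h hdt hp hq h1 h2
    have hr : a * (b + e) = b * (a + c) + 1 := by
      have : a * (b + e) = a * b + a * e := by ring
      rw [this, h]; ring
    have hl : (a + c) * e = (b + e) * c + 1 := by
      have : (a + c) * e = a * e + c * e := by ring
      rw [this, h]; ring
    have k1 : (Q3 a b ∨ Q3 c e) → f (Nm 1 1 a b) + f (Nm 1 1 c e) = v := by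
      intro hQ
      have := hB _ g1 (dt_mod h hQ)
      rwa [← nm_mul_nm 1 1 _ _ _ _ h, hf _ _ (nm_pos le_rfl (edge_left_ne h)).ne'
        (nm_pos le_rfl (edge_right_ne h)).ne'] at this
    have k2 : (Q3 a b ∨ Q3 (a + c) (b + e)) → f (Nm 1 1 a b) + f (Nm 1 1 (a + c) (b + e)) = v := by
      intro hQ
      have := hB _ g2 (dt_mod hr hQ)
      rwa [← nm_mul_nm 1 1 _ _ _ _ hr, hf _ _ (nm_pos le_rfl (edge_left_ne hr)).ne'
        (nm_pos le_rfl (edge_right_ne hr)).ne'] at this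
    have k3 : (Q3 (a + c) (b + e) ∨ Q3 c e) → f (Nm 1 1 (a + c) (b + e)) + f (Nm 1 1 c e) = v := by
      intro hQ
      have := hB _ g3 (dt_mod hl hQ)
      rwa [← nm_mul_nm 1 1 _ _ _ _ hl, hf _ _ (nm_pos le_rfl (edge_left_ne hl)).ne'
        (nm_pos le_rfl (edge_right_ne hl)).ne'] at this
    obtain ⟨s1, s2, s3⟩ := Inv3_step h k1 k2 k3 hI
    rcases lt_trichotomy p q with hpq | hpq | hpq
    · obtain ⟨r, hr', rfl⟩ : ∃ r, 1 ≤ r ∧ q = p + r := ⟨q - p, by omega, by omega⟩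
      exact ih (a + c) (b + e) c e p r (by omega) hl (hdt.trans (dt_add_left 1 1 a b c e)) hp hr'
        (by rw [h1]; ring) (by rw [h2]; ring) (s2 _)
    · subst hpq
      have e1 : w1 = p * (a + c) := by rw [h1]; ring
      have e2 : w2 = p * (b + e) := by rw [h2]; ring
      have hne : Nm 1 1 (a + c) (b + e) ≠ 0 := (nm_pos le_rfl (edge_right_ne hr)).ne'
      rw [e1, e2, nm_scale] at hwQ hw9 ⊢
      rw [f_sq2 hf (by omega) hne]
      apply s3
      apply Q3_of_nm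
      have h3 : ¬ 3 ∣ p := by
        intro h3
        apply hw9
        apply dvd_mul_of_dvd_left
        have := pow_dvd_pow_of_dvd h3 2
        norm_num at this
        exact this
      have hcop : Nat.Coprime 3 (p ^ 2) :=
        Nat.Coprime.pow_right 2 ((Nat.Prime.coprime_iff_not_dvd Nat.prime_three).mpr h3)
      exact hcop.dvd_of_dvd_mul_left hwQ
    · obtain ⟨r, hr', rfl⟩ : ∃ r, 1 ≤ r ∧ p = q + r := ⟨p - q, by omega, by omega⟩
      exact ih a b (a + c) (b + e) r q (by omega) hr (hdt.trans (dt_add_right 1 1 a b c e)) hr' hq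
        (by rw [h1]; ring) (by rw [h2]; ring) (s1 _)

end H359R4
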