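import Pool.Agent.H359R4.Families

/-! Sparse sets have summable weights, also with the balance factor. -/

namespace H359R4

open Finset H359R2 H359R3

lemma wtK_le_wt (A C : ℕ) (B : Set ℕ) (j n : ℕ) (hj : jj n = j) :
    wtK A C B n ≤ ((j : ℝ) + 1) ^ 2 * wt A C B n := by
  by_cases hB : n ∈ B
  · rw [wtK_of_mem hB, wt_of_mem hB]
    unfold KK
    rw [hj]
    push_cast
    rw [mul_div_assoc]
  · unfold wtK wt
    rw [Set.indicator_of_notMem hB, Set.indicator_of_notMem hB, mul_zero]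

theorem summable_of_sparse2 (A C : ℕ) (hd : A ^ 2 ≠ 4 * C) (hC : 1 ≤ C) (B : Set ℕ) (X0 : ℕ)
    (hB : ∀ X : ℕ, X0 ≤ X → (cnt B X : ℝ) ≤ X / (Real.log X) ^ 40) : Summable (wtK A C B) := by
  apply summable_of_dyadic _ (wtK_nonneg A C B)
  set L2 := Real.log 2 with hL2
  have hL2pos : 0 < L2 := Real.log_pos (by norm_num)
  set d : ℝ := A + C with hddef
  have hCR : (1 : ℝ) ≤ C := by exact_mod_cast hC
  have hAR : (0 : ℝ) ≤ A := by positivity
  have hdR : (1 : ℝ) ≤ d := by rw [hddef]; linarith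
  set Al : ℝ := 2 + Real.log (2 + d) with hA
  have hApos : 0 < Al := by
    have : 0 ≤ Real.log (2 + d) := Real.log_nonneg (by linarith)
    linarith
  have hDpos : (1 : ℝ) ≤ DD A C := by exact_mod_cast DD_pos hd
  set Cl : ℝ := 4 * DD A C * (3 + d) * Al ^ 32 / L2 ^ 40 with hCdef
  have hCpos : 0 < Cl := by positivity
  have hbound : ∀ j : ℕ, X0 + 1 ≤ j →
      ‖∑ n ∈ Finset.Ioc (2 ^ j) (2 ^ j + 2 ^ j), wtK A C B n‖ ≤
        4 * Real.sqrt Cl * (1 / (j : ℝ) ^ 2) := by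
    intro j hj
    have hj1 : (1 : ℝ) ≤ j := by exact_mod_cast (by omega : 1 ≤ j)
    have hjpos : (0 : ℝ) < j := by linarith
    have hX1 : 1 ≤ 2 ^ j := Nat.one_le_two_pow
    have hXX : X0 ≤ 2 ^ j := by
      have := Nat.lt_two_pow_self (n := j)
      omega
    have h1 := block_sq_le A C hd hC B (2 ^ j) hX1
    have h2 := hB (2 ^ j) hXX
    have hlog : Real.log ((2 ^ j : ℕ) : ℝ) = j * L2 := by
      push_cast
      rw [Real.log_pow]
    rw [hlog] at h2
    have hXpos : (0 : ℝ) < ((2 ^ j : ℕ) : ℝ) := by positivity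
    have hlog2 : 1 + Real.log ((2 * 2 ^ j + A + C : ℕ) : ℝ) ≤ Al * j := by
      have h3 : ((2 * 2 ^ j + A + C : ℕ) : ℝ) ≤ (2 + d) * 2 ^ j := by
        push_cast
        have : (1 : ℝ) ≤ 2 ^ j := one_le_pow₀ (by norm_num)
        rw [hddef] at hdR ⊢
        nlinarith
      have h4 : Real.log ((2 * 2 ^ j + A + C : ℕ) : ℝ) ≤ Real.log ((2 + d) * 2 ^ j) := by
        apply Real.log_le_log _ h3
        positivity
      rw [Real.log_mul (by positivity) (by positivity), Real.log_pow] at h4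
      have h5 : L2 ≤ 1 := by
        rw [hL2]
        have := Real.log_two_lt_d9
        linarith
      have h6 : 0 ≤ Real.log (2 + d) := Real.log_nonneg (by linarith)
      rw [hA]
      nlinarith
    have hlog0 : 0 ≤ 1 + Real.log ((2 * 2 ^ j + A + C : ℕ) : ℝ) := by
      have : 0 ≤ Real.log ((2 * 2 ^ j + A + C : ℕ) : ℝ) := Real.log_natCast_nonneg _
      linarith
    have h7 : (∑ n ∈ Finset.Ioc (2 ^ j) (2 ^ j + 2 ^ j), wt A C B n) ^ 2 ≤
        Cl * (1 / (j : ℝ) ^ 4) ^ 2 := by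
      refine h1.trans ?_
      set X : ℝ := ((2 ^ j : ℕ) : ℝ) with hX
      have hX1' : (1 : ℝ) ≤ X := by rw [hX]; exact_mod_cast hX1
      calc (cnt B (2 ^ j) : ℝ) / X ^ 2 * (4 * DD A C * (3 * X + A + C) *
            (1 + Real.log ((2 * 2 ^ j + A + C : ℕ) : ℝ)) ^ 32)
          ≤ (X / (j * L2) ^ 40) / X ^ 2 * (4 * DD A C * ((3 + d) * X) * (Al * j) ^ 32) := by
            apply mul_le_mul _ _ (by positivity) (by positivity)
            · exact div_le_div_of_nonneg_right h2 (by positivity)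
            · apply mul_le_mul _ _ (by positivity) (by positivity)
              · apply mul_le_mul_of_nonneg_left _ (by positivity)
                rw [hddef] at hdR ⊢
                nlinarith
              · exact pow_le_pow_left₀ hlog0 hlog2 32
        _ = Cl * (1 / (j : ℝ) ^ 4) ^ 2 := by
            rw [hCdef]
            field_simp
    have h0 : 0 ≤ ∑ n ∈ Finset.Ioc (2 ^ j) (2 ^ j + 2 ^ j), wt A C B n :=
      Finset.sum_nonneg (fun n _ => wt_nonneg A C B n)
    have h0' : 0 ≤ ∑ n ∈ Finset.Ioc (2 ^ j) (2 ^ j + 2 ^ j), wtK A C B n :=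
      Finset.sum_nonneg (fun n _ => wtK_nonneg A C B n)
    rw [Real.norm_of_nonneg h0']
    have h8 : (Real.sqrt Cl * (1 / (j : ℝ) ^ 4)) ^ 2 = Cl * (1 / (j : ℝ) ^ 4) ^ 2 := by
      rw [mul_pow, Real.sq_sqrt hCpos.le]
    rw [← h8] at h7
    have h9 := (pow_le_pow_iff_left₀ h0 (by positivity) two_ne_zero).mp h7
    have h10 : ∑ n ∈ Finset.Ioc (2 ^ j) (2 ^ j + 2 ^ j), wtK A C B n ≤
        ((j : ℝ) + 1) ^ 2 * ∑ n ∈ Finset.Ioc (2 ^ j) (2 ^ j + 2 ^ j), wt A C B n := by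
      rw [Finset.mul_sum]
      apply Finset.sum_le_sum
      intro n hn
      rw [Finset.mem_Ioc] at hn
      apply wtK_le_wt
      exact jj_eq hn.1 (by rw [pow_succ]; omega)
    calc ∑ n ∈ Finset.Ioc (2 ^ j) (2 ^ j + 2 ^ j), wtK A C B n
        ≤ ((j : ℝ) + 1) ^ 2 * ∑ n ∈ Finset.Ioc (2 ^ j) (2 ^ j + 2 ^ j), wt A C B n := h10
      _ ≤ ((j : ℝ) + 1) ^ 2 * (Real.sqrt Cl * (1 / (j : ℝ) ^ 4)) :=
          mul_le_mul_of_nonneg_left h9 (by positivity)
      _ ≤ (2 * (j : ℝ)) ^ 2 * (Real.sqrt Cl * (1 / (j : ℝ) ^ 4)) := by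
          apply mul_le_mul_of_nonneg_right _ (by positivity)
          exact pow_le_pow_left₀ (by positivity) (by linarith) 2
      _ = 4 * Real.sqrt Cl * (1 / (j : ℝ) ^ 2) := by
          field_simp
          norm_num
  have hsum : Summable (fun j : ℕ => 4 * Real.sqrt Cl * (1 / (j : ℝ) ^ 2)) := by
    apply Summable.mul_left
    exact Real.summable_one_div_nat_pow.mpr (by norm_num)
  exact Summable.of_norm_bounded_eventually_nat hsum
    (Filter.eventually_atTop.mpr ⟨X0 + 1, hbound⟩)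

end H359R4
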