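import Pool.Agent.H359R4.CubRigid
import Pool.Agent.H359R4.Sparse2
import Pool.Agent.H359R3.NearSqf
import Pool.Agent.H359R2.MainOne

/-! Values `3k^2+3k+1`. -/

namespace H359R4

open Finset H359R2 H359R3

/-- the `k` in `(X,2X]` with `Q k` and `3k^2+3k+1 = s^2 m`, `m` squarefree, `s` small. -/
def KQ (Q : ℕ → Prop) (X : ℕ) : Set ℕ :=
  {k : ℕ | X < k ∧ k ≤ 2 * X ∧ Q k ∧
    ∃ s m : ℕ, 3 * k ^ 2 + 3 * k + 1 = s ^ 2 * m ∧ Squarefree m ∧ (s : ℝ) ≤ Real.log X ^ 45}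

lemma KQ_finite (Q : ℕ → Prop) (X : ℕ) : (KQ Q X).Finite := by
  apply Set.Finite.subset (Set.finite_Icc 0 (2 * X))
  intro n hn
  exact ⟨Nat.zero_le _, hn.2.1⟩

lemma pp_three (k : ℕ) : PP 1 1 (3 * k + 1) = 3 * (3 * k ^ 2 + 3 * k + 1) := by
  unfold PP; ring

open Classical in
lemma cnt_leK (Q : ℕ → Prop) (Y Z : ℕ) (hY : 12 ≤ Y) :
    (H359R3.cnt {n | n % 3 = 1 ∧ Q (n / 3)} Y : ℝ) ≤ ((KQ Q (Y / 3)).ncard : ℝ) + 2 +
      (3 * Y * (1 + Real.log Z) ^ 4 / (Real.log (Y / 3 : ℕ) ^ 45) + 3 * Z * (1 + Real.log Z) ^ 4 +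
        208 * (Y : ℝ) ^ 2 / (Z + 1) ^ 2) := by
  set X := Y / 3 with hX
  have hlog : 0 < Real.log X := Real.log_pos (by exact_mod_cast (by omega : 1 < X))
  have h1 := card_large_square 1 1 Y Z (Real.log X ^ 45) le_rfl (by norm_num) (by omega)
    (by positivity)
  have hDD : DD 1 1 = 3 := by unfold DD; norm_num
  rw [hDD] at h1
  norm_num at h1
  set L := (Finset.Ioc Y (Y + Y)).filter (fun n => ∃ s : ℕ, Real.log X ^ 45 < s ∧ s ^ 2 ∣ PP 1 1 n)
    with hL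
  have hsub : (Finset.Ioc Y (Y + Y)).filter (fun n => n ∈ {n | n % 3 = 1 ∧ Q (n / 3)}) ⊆
      (((KQ_finite Q X).toFinset ∪ {X, 2 * X + 1}).image (fun k => 3 * k + 1)) ∪ L := by
    intro n hn
    rw [Finset.mem_filter, Finset.mem_Ioc, Set.mem_ofPred_eq] at hn
    obtain ⟨⟨hn1, hn2⟩, hn3, hfn⟩ := hn
    obtain ⟨k, hk⟩ : ∃ k, n = 3 * k + 1 := ⟨n / 3, by omega⟩
    have hkn : n / 3 = k := by omega
    rw [hkn] at hfn
    obtain ⟨m, s, hms, hm⟩ := Nat.sq_mul_squarefree (3 * k ^ 2 + 3 * k + 1)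
    rw [Finset.mem_union]
    by_cases hs : (s : ℝ) ≤ Real.log X ^ 45
    · left
      rw [Finset.mem_image]
      refine ⟨k, ?_, hk.symm⟩
      rw [Finset.mem_union, Set.Finite.mem_toFinset, Finset.mem_insert, Finset.mem_singleton]
      by_cases hk1 : k = X
      · right; left; exact hk1
      · by_cases hk2 : k = 2 * X + 1
        · right; right; exact hk2
        · left
          exact ⟨by omega, by omega, hfn, s, m, hms.symm, hm, hs⟩
    · right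
      rw [hL, Finset.mem_filter, Finset.mem_Ioc]
      push Not at hs
      refine ⟨⟨hn1, hn2⟩, s, hs, ?_⟩
      rw [hk, pp_three, ← hms]
      exact dvd_mul_of_dvd_right (Dvd.intro _ rfl) _
  have h2 : H359R3.cnt {n | n % 3 = 1 ∧ Q (n / 3)} Y ≤ (KQ Q X).ncard + 2 + L.card := by
    unfold H359R3.cnt
    rw [Set.ncard_eq_toFinset_card _ (KQ_finite Q X)]
    have h3 := (Finset.card_le_card hsub).trans (Finset.card_union_le _ _)
    have h4 : (((KQ_finite Q X).toFinset ∪ {X, 2 * X + 1}).image (fun k => 3 * k + 1)).card ≤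
        (KQ_finite Q X).toFinset.card + 2 :=
      Finset.card_image_le.trans ((Finset.card_union_le _ _).trans
        (Nat.add_le_add_left Finset.card_le_two _))
    refine le_trans (le_of_eq ?_) (h3.trans (Nat.add_le_add_right h4 _))
    congr
  have h4 : (H359R3.cnt {n | n % 3 = 1 ∧ Q (n / 3)} Y : ℝ) ≤ ((KQ Q X).ncard : ℝ) + 2 + (L.card : ℝ) := by
    exact_mod_cast h2
  linarith

lemma summable_of_rareK (Q : ℕ → Prop)
    (hV : ¬ ∀ X0 : ℕ, ∃ X : ℕ, X0 ≤ X ∧ (X : ℝ) / Real.log X ^ 41 ≤ ((KQ Q X).ncard : ℝ)) :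
    Summable (wtK 1 1 {n | n % 3 = 1 ∧ Q (n / 3)}) := by
  push Not at hV
  obtain ⟨X0, hX0⟩ := hV
  set c : ℝ := 2 ^ 52 with hc
  have hcpos : 0 < c := by positivity
  have hev : ∀ᶠ x : ℝ in Filter.atTop, ‖Real.log x ^ 133‖ ≤ 1 * ‖id x‖ :=
    Real.isLittleO_pow_log_id_atTop.bound (by norm_num)
  have hev2 : ∀ᶠ x : ℝ in Filter.atTop, c ≤ Real.log x :=
    Real.tendsto_log_atTop.eventually_ge_atTop _
  obtain ⟨x1, hx1⟩ := Filter.eventually_atTop.mp (hev.and hev2)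
  apply summable_of_sparse2 1 1 (by norm_num) le_rfl _ (3 * X0 + ⌈x1⌉₊ + 12)
  intro Y hY
  have hYX0 : X0 ≤ Y / 3 := by omega
  have hxY : x1 ≤ (Y : ℝ) := by
    calc x1 ≤ (⌈x1⌉₊ : ℝ) := Nat.le_ceil _
      _ ≤ Y := by exact_mod_cast (by omega : ⌈x1⌉₊ ≤ Y)
  obtain ⟨hA, hB⟩ := hx1 Y hxY
  set L := Real.log Y with hL
  have hL4 : 4 ≤ L := by
    have : (4 : ℝ) ≤ 2 ^ 52 := by norm_num
    rw [hc] at hB
    linarith
  have hLpos : 0 < L := by linarith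
  have hYpos : (0 : ℝ) < Y := by exact_mod_cast (by omega : 0 < Y)
  rw [id, Real.norm_of_nonneg (by positivity), Real.norm_of_nonneg hYpos.le, one_mul] at hA
  set X := Y / 3 with hX
  have hX4 : (Y : ℝ) / 4 ≤ X := by
    have : Y ≤ 4 * X := by omega
    have : (Y : ℝ) ≤ 4 * X := by exact_mod_cast this
    linarith
  have hXY : (X : ℝ) ≤ Y := by exact_mod_cast (by omega : X ≤ Y)
  have hlogX : L / 2 ≤ Real.log X := by
    have h1 : Real.log ((Y : ℝ) / 4) ≤ Real.log X := Real.log_le_log (by positivity) hX4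
    rw [Real.log_div hYpos.ne' (by norm_num)] at h1
    have h2 : Real.log 4 ≤ 2 := by
      have h3 : Real.log 4 = 2 * Real.log 2 := by
        rw [show (4 : ℝ) = 2 ^ 2 by norm_num, Real.log_pow]; norm_num
      have := Real.log_two_lt_d9
      rw [h3]; linarith
    linarith
  have hlogXpos : 0 < Real.log X := by linarith
  set Z := ⌊(Y : ℝ) / L ^ 46⌋₊ with hZ
  have hZle : (Z : ℝ) ≤ Y / L ^ 46 := Nat.floor_le (by positivity)
  have hZgt : (Y : ℝ) / L ^ 46 < Z + 1 := Nat.lt_floor_add_one _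
  have hZY : (Z : ℝ) ≤ Y := by
    refine hZle.trans ?_
    rw [div_le_iff₀ (by positivity)]
    have : (1 : ℝ) ≤ L ^ 46 := one_le_pow₀ (by linarith)
    nlinarith
  have hlogZ : 1 + Real.log Z ≤ 2 * L := by
    have h1 : Real.log Z ≤ L := by
      rcases Nat.eq_zero_or_pos Z with h | h
      · rw [h]; simp only [Nat.cast_zero, Real.log_zero]; linarith
      · exact Real.log_le_log (by exact_mod_cast h) hZY
    linarith
  have hlogZ0 : 0 ≤ 1 + Real.log Z := by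
    have : 0 ≤ Real.log Z := Real.log_natCast_nonneg _
    linarith
  have hpow : (1 + Real.log Z) ^ 4 ≤ 16 * L ^ 4 := by
    calc (1 + Real.log Z) ^ 4 ≤ (2 * L) ^ 4 := pow_le_pow_left₀ hlogZ0 hlogZ 4
      _ = 16 * L ^ 4 := by ring
  have hmain := cnt_leK Q Y Z (by omega)
  rw [← hX] at hmain
  have hsum1 : ((KQ Q X).ncard : ℝ) ≤ 2 ^ 41 * (Y / L ^ 41) := by
    refine (hX0 X hYX0).le.trans ?_
    calc (X : ℝ) / Real.log X ^ 41 ≤ Y / (L / 2) ^ 41 := by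
          apply div_le_div₀ hYpos.le hXY (by positivity)
          exact pow_le_pow_left₀ (by positivity) hlogX 41
      _ = 2 ^ 41 * (Y / L ^ 41) := by rw [div_pow]; field_simp
  have t1 : 3 * Y * (1 + Real.log Z) ^ 4 / (Real.log X ^ 45) ≤ 48 * 2 ^ 45 * (Y / L ^ 41) := by
    calc 3 * Y * (1 + Real.log Z) ^ 4 / (Real.log X ^ 45) ≤
          3 * Y * (16 * L ^ 4) / ((L / 2) ^ 45) := by
          apply div_le_div₀ (by positivity) _ (by positivity)
          · exact pow_le_pow_left₀ (by positivity) hlogX 45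
          · exact mul_le_mul_of_nonneg_left hpow (by positivity)
      _ = 48 * 2 ^ 45 * (Y / L ^ 41) := by rw [div_pow]; field_simp; norm_num
  have t2 : 3 * Z * (1 + Real.log Z) ^ 4 ≤ 48 * (Y / L ^ 41) := by
    calc 3 * Z * (1 + Real.log Z) ^ 4 ≤ 3 * (Y / L ^ 46) * (16 * L ^ 4) := by
          apply mul_le_mul _ hpow (by positivity) (by positivity)
          exact mul_le_mul_of_nonneg_left hZle (by positivity)
      _ = 48 * (Y / L ^ 41) / L := by field_simp; norm_num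
      _ ≤ 48 * (Y / L ^ 41) := by
          apply div_le_self (by positivity)
          linarith
  have hbig : L ^ 92 ≤ Y / L ^ 41 := by
    rw [le_div_iff₀ (by positivity)]
    calc L ^ 92 * L ^ 41 = L ^ 133 := by ring
      _ ≤ (Y : ℝ) := hA
  have t3 : 208 * (Y : ℝ) ^ 2 / (Z + 1) ^ 2 ≤ 208 * (Y / L ^ 41) := by
    have h1 : (Y / L ^ 46) ^ 2 ≤ ((Z : ℝ) + 1) ^ 2 :=
      pow_le_pow_left₀ (by positivity) hZgt.le 2
    calc 208 * (Y : ℝ) ^ 2 / (Z + 1) ^ 2 ≤ 208 * (Y : ℝ) ^ 2 / (Y / L ^ 46) ^ 2 :=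
          div_le_div_of_nonneg_left (by positivity) (by positivity) h1
      _ = 208 * L ^ 92 := by field_simp
      _ ≤ 208 * (Y / L ^ 41) := mul_le_mul_of_nonneg_left hbig (by norm_num)
  have t4 : (2 : ℝ) ≤ 2 * (Y / L ^ 41) := by
    have : (1 : ℝ) ≤ L ^ 92 := one_le_pow₀ (by linarith)
    linarith
  have hW : 0 ≤ (Y : ℝ) / L ^ 41 := by positivity
  have hfin : (H359R3.cnt {n | n % 3 = 1 ∧ Q (n / 3)} Y : ℝ) ≤ c * (Y / L ^ 41) := by
    have e1 : (2 : ℝ) ^ 41 + 48 * 2 ^ 45 + 48 + 208 + 2 ≤ c := by rw [hc]; norm_num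
    calc (H359R3.cnt {n | n % 3 = 1 ∧ Q (n / 3)} Y : ℝ) ≤
          (2 ^ 41 + 48 * 2 ^ 45 + 48 + 208 + 2) * (Y / L ^ 41) := by linarith
      _ ≤ c * (Y / L ^ 41) := mul_le_mul_of_nonneg_right e1 hW
  calc (H359R3.cnt {n | n % 3 = 1 ∧ Q (n / 3)} Y : ℝ) ≤ c * (Y / L ^ 41) := hfin
    _ = (c / L) * (Y / L ^ 40) := by field_simp
    _ ≤ 1 * (Y / L ^ 40) := by
        apply mul_le_mul_of_nonneg_right _ (by positivity)
        rw [div_le_one hLpos]; exact hB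
    _ = Y / L ^ 40 := one_mul _

theorem cub_main (S : Set ℕ) (hS : ∃ p ∈ S, p.Prime ∧ p % 3 = 1) (e : ℕ) (he : e < 2) (X0 : ℕ) :
    ∃ X : ℕ, X0 ≤ X ∧ (X : ℝ) / Real.log X ^ 41 ≤
      (Set.ncard {k : ℕ | X < k ∧ k ≤ 2 * X ∧ ∃ s m : ℕ, 3 * k ^ 2 + 3 * k + 1 = s ^ 2 * m ∧
        Squarefree m ∧ (s : ℝ) ≤ Real.log X ^ 45 ∧
        Set.ncard {p : ℕ | p.Prime ∧ p ∣ m ∧ p ∈ S} % 2 = e} : ℝ) := by
  obtain ⟨p, hpS, hp, hp3⟩ := hS
  set f := fS S with hfdef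
  have hf : ∀ m n : ℕ, m ≠ 0 → n ≠ 0 → f (m * n) = f m + f n := fS_mul S
  set Q : ℕ → Prop := fun k => f (3 * k ^ 2 + 3 * k + 1) = (e : ZMod 2) with hQ
  have hmain : ∀ X0 : ℕ, ∃ X : ℕ, X0 ≤ X ∧ (X : ℝ) / Real.log X ^ 41 ≤ ((KQ Q X).ncard : ℝ) := by
    by_contra hcon
    have hsum := summable_of_rareK Q hcon
    have heq : {n : ℕ | n % 3 = 1 ∧ Q (n / 3)} =
        {n | n % 3 = 1 ∧ f (PP 1 1 n) ≠ f 3 + (e + 1 : ZMod 2)} := by
      ext n
      simp only [Set.mem_ofPred_eq, hQ]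
      constructor
      · rintro ⟨h1, h2⟩
        refine ⟨h1, ?_⟩
        obtain ⟨k, hk⟩ : ∃ k, n = 3 * k + 1 := ⟨n / 3, by omega⟩
        have hkn : n / 3 = k := by omega
        rw [hkn] at h2
        rw [hk, pp_three, hf _ _ (by norm_num) (by omega), h2]
        intro h3
        have h4 := add_left_cancel h3
        have h5 : (1 : ZMod 2) = 0 := by
          have : (e : ZMod 2) + 0 = e + 1 := by rw [add_zero]; exact h4
          exact (add_left_cancel this).symm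
        exact one_ne_zero h5
      · rintro ⟨h1, h2⟩
        refine ⟨h1, ?_⟩
        obtain ⟨k, hk⟩ : ∃ k, n = 3 * k + 1 := ⟨n / 3, by omega⟩
        have hkn : n / 3 = k := by omega
        rw [hkn]
        rw [hk, pp_three, hf _ _ (by norm_num) (by omega)] at h2
        have h6 : f (3 * k ^ 2 + 3 * k + 1) ≠ (e : ZMod 2) + 1 := fun h => h2 (by rw [h])
        generalize f (3 * k ^ 2 + 3 * k + 1) = z at h6 ⊢
        generalize (e : ZMod 2) = y at h6 ⊢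
        revert z y
        decide
    rw [heq] at hsum
    have hfp : f p ≠ 0 := by
      rw [hfdef, fS_prime hp hpS]
      exact one_ne_zero
    exact rigid_cub f hf _ hsum p hp hp3 hfp
  obtain ⟨X, hX, hc⟩ := hmain X0
  refine ⟨X, hX, hc.trans ?_⟩
  have hfin : {k : ℕ | X < k ∧ k ≤ 2 * X ∧ ∃ s m : ℕ, 3 * k ^ 2 + 3 * k + 1 = s ^ 2 * m ∧
        Squarefree m ∧ (s : ℝ) ≤ Real.log X ^ 45 ∧
        Set.ncard {p : ℕ | p.Prime ∧ p ∣ m ∧ p ∈ S} % 2 = e}.Finite := by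
    apply Set.Finite.subset (Set.finite_Icc 0 (2 * X))
    intro n hn
    exact ⟨Nat.zero_le _, hn.2.1⟩
  have hsub : KQ Q X ⊆ {k : ℕ | X < k ∧ k ≤ 2 * X ∧ ∃ s m : ℕ, 3 * k ^ 2 + 3 * k + 1 = s ^ 2 * m ∧
        Squarefree m ∧ (s : ℝ) ≤ Real.log X ^ 45 ∧
        Set.ncard {p : ℕ | p.Prime ∧ p ∣ m ∧ p ∈ S} % 2 = e} := by
    rintro k ⟨h1, h2, h3, s, m, h4, h5, h6⟩
    refine ⟨h1, h2, s, m, h4, h5, h6, ?_⟩
    have hs0 : s ≠ 0 := by
      rintro rfl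
      simp at h4
    simp only [hQ] at h3
    rw [h4, f_sq2 hf hs0 h5.ne_zero, hfdef, fS_squarefree h5] at h3
    have h7 := (ZMod.natCast_eq_natCast_iff' _ _ 2).mp h3
    rw [h7]
    exact Nat.mod_eq_of_lt he
  exact_mod_cast Set.ncard_le_ncard hsub hfin

end H359R4
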