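import Pool.Agent.H359R4.Cub

/-! The ramified prime `3`: rigidity. -/

namespace H359R4

open Finset H359R2 H359R3

lemma exists_root3 (p : ℕ) (hp : p.Prime) (hp3 : p % 3 = 1) : ∃ n : ℕ, p ∣ n ^ 2 + n + 1 := by
  have := Fact.mk hp
  have h1 : 3 ∣ Nat.card (ZMod p)ˣ := by
    rw [Nat.card_eq_fintype_card, ZMod.card_units]
    omega
  obtain ⟨x, hx⟩ := exists_prime_orderOf_dvd_card' 3 h1
  have hx3 : x ^ 3 = 1 := by rw [← hx]; exact pow_orderOf_eq_one x
  have hx1 : x ≠ 1 := by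
    rintro rfl
    rw [orderOf_one] at hx
    norm_num at hx
  have hy3 : (x : ZMod p) ^ 3 = 1 := by
    rw [← Units.val_pow_eq_pow_val, hx3, Units.val_one]
  have hy1 : (x : ZMod p) - 1 ≠ 0 := by
    intro h
    apply hx1
    ext
    rw [Units.val_one]
    linear_combination h
  have h2 : (x : ZMod p) ^ 2 + x + 1 = 0 := by
    have h3 : ((x : ZMod p) - 1) * ((x : ZMod p) ^ 2 + x + 1) = 0 := by
      linear_combination hy3
    exact (mul_eq_zero.mp h3).resolve_left hy1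
  refine ⟨(x : ZMod p).val, ?_⟩
  rw [← CharP.cast_eq_zero_iff (ZMod p) p]
  push_cast
  rw [ZMod.natCast_val, ZMod.cast_id]
  exact h2

lemma pp_not_nine (n : ℕ) : ¬ 9 ∣ PP 1 1 n := by
  intro h
  have h3 : 3 ∣ PP 1 1 n := dvd_trans (by norm_num) h
  have h4 := pp_mod h3
  obtain ⟨k, hk⟩ : ∃ k, n = 3 * k + 1 := ⟨n / 3, by omega⟩
  have : PP 1 1 n = 9 * (k ^ 2 + k) + 3 := by unfold PP; rw [hk]; ring
  rw [this] at h
  omega

lemma pp_mod' {n : ℕ} (h : n % 3 = 1) : 3 ∣ PP 1 1 n := by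
  obtain ⟨k, hk⟩ : ∃ k, n = 3 * k + 1 := ⟨n / 3, by omega⟩
  exact ⟨3 * (k ^ 2 + k) + 1, by unfold PP; rw [hk]; ring⟩

/-- if `f` vanishes on all values `n^2+n+1` then it vanishes on all primes dividing them -/
lemma zero_primes {f : ℕ → ZMod 2} (hf : ∀ m n : ℕ, m ≠ 0 → n ≠ 0 → f (m * n) = f m + f n)
    (h0 : ∀ n, f (PP 1 1 n) = 0) : ∀ q : ℕ, q.Prime → (∃ n, q ∣ PP 1 1 n) → f q = 0 := by
  intro q
  induction q using Nat.strong_induction_on with
  | _ q ih =>
    rintro hq ⟨n0, hn0⟩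
    have hone : f 1 = 0 := by
      have := hf 1 1 one_ne_zero one_ne_zero
      simpa using this
    -- reduce `n`
    set n := n0 % q with hn
    have hdvd : q ∣ PP 1 1 n := by
      have h1 : n ≡ n0 [MOD q] := Nat.mod_modEq n0 q
      have h2 : PP 1 1 n ≡ PP 1 1 n0 [MOD q] := by
        unfold PP
        exact Nat.ModEq.add_right _ ((h1.pow 2).add (h1.mul_left 1))
      exact (Nat.ModEq.dvd_iff h2 dvd_rfl).mpr hn0
    have hlt : n < q := Nat.mod_lt _ hq.pos
    obtain ⟨r, hr⟩ := hdvd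
    have hr0 : r ≠ 0 := by
      rintro rfl
      unfold PP at hr
      omega
    have hrq : r < q := by
      have h1 : PP 1 1 n < q * q := by
        unfold PP
        have h2 : n + 1 ≤ q := hlt
        have h3 : (n + 1) * (n + 1) ≤ q * q := Nat.mul_le_mul h2 h2
        have h4 : 2 * 2 ≤ q * q := Nat.mul_le_mul hq.two_le hq.two_le
        rcases Nat.eq_zero_or_pos n with h5 | h5
        · rw [h5]; omega
        · nlinarith
      rw [hr] at h1
      exact lt_of_mul_lt_mul_left h1 (Nat.zero_le _)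
    have hfr : ∀ s : ℕ, s ∣ r → f s = 0 := by
      intro s
      induction s using Nat.strong_induction_on with
      | _ s ihs =>
        intro hs
        have hs0 : s ≠ 0 := by
          rintro rfl
          exact hr0 (Nat.eq_zero_of_zero_dvd hs)
        by_cases hs1 : s = 1
        · rw [hs1]; exact hone
        · have hmp := Nat.minFac_prime hs1
          obtain ⟨u, hu⟩ := Nat.minFac_dvd s
          have hu0 : u ≠ 0 := by
            rintro rfl
            rw [mul_zero] at hu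
            exact hs0 hu
          have h2 := hmp.two_le
          have hus : u < s := by
            have : 1 * u < s.minFac * u := Nat.mul_lt_mul_of_pos_right (by omega) (by omega)
            omega
          have hmr : s.minFac ∣ r := (Nat.minFac_dvd s).trans hs
          have hmq : s.minFac < q := lt_of_le_of_lt (Nat.le_of_dvd (by omega) hmr) hrq
          have e1 := ih s.minFac hmq hmp ⟨n, by rw [hr]; exact dvd_mul_of_dvd_right hmr _⟩
          have e2 := ihs u hus (dvd_trans ⟨s.minFac, by rw [mul_comm]; exact hu⟩ hs)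
          rw [hu, hf _ _ (by omega) hu0, e1, e2, add_zero]
    have h1 := h0 n
    rw [hr, hf _ _ hq.ne_zero hr0, hfr r dvd_rfl, add_zero] at h1
    exact h1

theorem rigid_cub (f : ℕ → ZMod 2)
    (hf : ∀ m n : ℕ, m ≠ 0 → n ≠ 0 → f (m * n) = f m + f n) (v : ZMod 2)
    (hsum : Summable (wtK 1 1 {n | n % 3 = 1 ∧ f (PP 1 1 n) ≠ v}))
    (p : ℕ) (hp : p.Prime) (hp3 : p % 3 = 1) (hfp : f p ≠ 0) : False := by
  set B : Set ℕ := {n | n % 3 = 1 ∧ f (PP 1 1 n) ≠ v} with hB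
  have hBv : ∀ n, n ∉ B → n % 3 = 1 → f (PP 1 1 n) = v := by
    intro n hn hn2
    rw [hB, Set.mem_ofPred_eq] at hn
    by_contra hne
    exact hn ⟨hn2, hne⟩
  obtain ⟨Y, M0, hY, hM0, hgood⟩ := exists_good3 1 1 le_rfl (EA 1 1 B)
    (summable_EA 1 1 le_rfl B hsum) 3 (by norm_num)
  -- the value is constant
  have hconst : ∀ G1 G2 H1 H2 : ℕ, 1 ≤ G2 → M0 * G2 ≤ G1 → 1 ≤ H2 → M0 * H2 ≤ H1 →
      G2 * H1 < G1 * H2 → 3 ∣ Nm 1 1 G1 G2 → ¬ 9 ∣ Nm 1 1 G1 G2 → 3 ∣ Nm 1 1 H1 H2 →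
      ¬ 9 ∣ Nm 1 1 H1 H2 → f (Nm 1 1 G1 G2) = f (Nm 1 1 H1 H2) := by
    intro G1 G2 H1 H2 hG2 hG hH2 hH hdet g3 g9 h3 h9
    obtain ⟨R, x, hxT, hxc, hx1, hx2, hA1, hA2, hA3, a, b, c, e, q1, q2, q3, q4, q5, q6, hYd, hedge,
      t1, t2, t3, t4, t5, t6, s1, s2, s3, s4, s5, s6⟩ := hgood G1 G2 H1 H2 hG2 hG hH2 hH hdet
    have hNx : ¬ 3 ∣ Nm 1 1 x.1 x.2 := by
      intro h
      have h1 := Q3_of_nm h
      unfold Q3 at h1
      have h2 : x.2 % 3 = 0 := Nat.mod_eq_zero_of_dvd hx2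
      omega
    have hx0 : Nm 1 1 x.1 x.2 ≠ 0 := by
      rw [mem_TT] at hxT
      exact (nm_pos le_rfl (by omega)).ne'
    have hcop9 : Nat.Coprime 9 (Nm 1 1 x.1 x.2) := by
      have : Nat.Coprime (3 ^ 2) (Nm 1 1 x.1 x.2) :=
        Nat.Coprime.pow_left 2 ((Nat.Prime.coprime_iff_not_dvd Nat.prime_three).mpr hNx)
      exact this
    have key : ∀ K1 K2 : ℕ, (3 + 1 + 1) * K2 ≤ K1 → 1 ≤ K1 → 3 ∣ Nm 1 1 K1 K2 →
        ¬ 9 ∣ Nm 1 1 K1 K2 → ¬ AffE 1 1 (EA 1 1 B) Y (r1 1 K1 K2 x) (r2 1 K1 K2 x) →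
        ∀ p q : ℕ, 1 ≤ p → 1 ≤ q → r1 1 K1 K2 x = p * a + q * c → r2 1 K1 K2 x = p * b + q * e →
        f (Nm 1 1 K1 K2) + f (Nm 1 1 x.1 x.2) =
          v - T3v v (f (Nm 1 1 a b)) (f (Nm 1 1 c e)) (f (Nm 1 1 (a + c) (b + e))) a b c e := by
      intro K1 K2 hK hK1 k3 k9 hA p q hp hq e1 e2
      have hrot := nm_rot (A := 1) (C := 1) hK hxT
      have hK0 : Nm 1 1 K1 K2 ≠ 0 := (nm_pos le_rfl (by omega)).ne'
      have d := descent_Q3 hf hBv hY hA (by rw [hrot]; exact dvd_mul_of_dvd_left k3 _)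
        (by
          rw [hrot]
          intro h
          exact k9 (hcop9.dvd_of_dvd_mul_right h)) _ (p + q) a b c e p q le_rfl hedge hYd hp hq e1 e2
        (Inv3_T3v v _ _ _ a b c e)
      rw [hrot, hf _ _ hK0 hx0] at d
      exact d
    have hG' : (3 + 1 + 1) * G2 ≤ G1 := (Nat.mul_le_mul_right _ hM0).trans hG
    have hH' : (3 + 1 + 1) * H2 ≤ H1 := (Nat.mul_le_mul_right _ hM0).trans hH
    have d1 := key G1 G2 hG' (by omega) g3 g9 hA2 q3 q4 t3 t4 s3 s4
    have d2 := key H1 H2 hH' (by omega) h3 h9 hA3 q5 q6 t5 t6 s5 s6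
    have := d1.trans d2.symm
    exact add_right_cancel this
  -- the corrected function
  set n0 := 3 * (3 * M0 + 1) + 1 with hn0
  set c := f (PP 1 1 n0) with hc
  have hNP : ∀ n, Nm 1 1 n 1 = PP 1 1 n := by intro n; unfold Nm PP; ring
  have hn0m : n0 % 3 = 1 := by omega
  have h1 : ∀ n, n0 < n → n % 3 = 1 → f (PP 1 1 n) = c := by
    intro n hn hn3
    have := hconst n 1 n0 1 le_rfl (by omega) le_rfl (by omega) (by omega)
      (by rw [hNP]; exact pp_mod' hn3) (by rw [hNP]; exact pp_not_nine n)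
      (by rw [hNP]; exact pp_mod' hn0m) (by rw [hNP]; exact pp_not_nine n0)
    rw [hNP, hNP] at this
    exact this
  have h2 : ∀ n, n0 < n → n % 3 ≠ 1 → f (PP 1 1 n) = 0 := by
    intro n hn hn3
    have hn03 : ¬ 3 ∣ PP 1 1 n := fun h => hn3 (pp_mod h)
    obtain ⟨z, hz⟩ : ∃ z, n * n0 = z + 1 := ⟨n * n0 - 1, by
      have : 1 ≤ n * n0 := Nat.mul_pos (by omega) (by omega)
      omega⟩
    have hN : Nm 1 1 z (n + n0 + 1) = PP 1 1 n * PP 1 1 n0 := by
      unfold Nm PP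
      zify at hz ⊢
      have : (z : ℤ) = n * n0 - 1 := by linarith
      rw [this]; ring
    have hP0 : ∀ n, PP 1 1 n ≠ 0 := by intro n; unfold PP; omega
    have hM0n : M0 * (n + n0 + 1) ≤ z := by
      have e1 : (3 * M0 + 1) * n ≤ n0 * n := Nat.mul_le_mul_right _ (by omega)
      have e2 : M0 * (n + n0 + 1) ≤ M0 * (3 * n) := Nat.mul_le_mul_left _ (by omega)
      have e3 : n0 * n = z + 1 := by rw [mul_comm]; exact hz
      nlinarith
    have := hconst n0 1 z (n + n0 + 1) le_rfl (by omega) (by omega) hM0n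
      (by
        have : n0 * (n + n0 + 1) = n * n0 + n0 * n0 + n0 := by ring
        rw [this, hz]
        have : 0 < n0 * n0 := Nat.mul_pos (by omega) (by omega)
        omega)
      (by rw [hNP]; exact pp_mod' hn0m) (by rw [hNP]; exact pp_not_nine n0)
      (by rw [hN]; exact dvd_mul_of_dvd_right (pp_mod' hn0m) _)
      (by
        rw [hN]
        intro h
        have hcop9 : Nat.Coprime 9 (PP 1 1 n) := by
          have : Nat.Coprime (3 ^ 2) (PP 1 1 n) :=
            Nat.Coprime.pow_left 2 ((Nat.Prime.coprime_iff_not_dvd Nat.prime_three).mpr hn03)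
          exact this
        exact pp_not_nine n0 (hcop9.dvd_of_dvd_mul_left h))
    rw [hNP, hN, hf _ _ (hP0 n) (hP0 n0)] at this
    rw [add_comm] at this
    exact left_eq_add.mp this
  have hfact : Fact (Nat.Prime 3) := ⟨Nat.prime_three⟩
  set g : ℕ → ZMod 2 := fun m => f m + c * (padicValNat 3 m : ZMod 2) with hg
  have hgadd : ∀ m n : ℕ, m ≠ 0 → n ≠ 0 → g (m * n) = g m + g n := by
    intro m n hm hn
    simp only [hg]
    rw [hf m n hm hn, padicValNat.mul hm hn]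
    push_cast
    ring
  have hg0 : ∀ n, n0 + 1 ≤ n → g (PP 1 1 n) = 0 := by
    intro n hn
    simp only [hg]
    by_cases hn3 : n % 3 = 1
    · rw [h1 n (by omega) hn3]
      have hv : padicValNat 3 (PP 1 1 n) = 1 := by
        have hP : PP 1 1 n ≠ 0 := by unfold PP; omega
        have e1 : 3 ^ 1 ∣ PP 1 1 n := by rw [pow_one]; exact pp_mod' hn3
        have e2 : ¬ 3 ^ 2 ∣ PP 1 1 n := by norm_num; exact pp_not_nine n
        have e3 := (padicValNat_dvd_iff_le hP).mp e1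
        have e4 : ¬ 2 ≤ padicValNat 3 (PP 1 1 n) := fun h => e2 ((padicValNat_dvd_iff_le hP).mpr h)
        omega
      rw [hv, Nat.cast_one, mul_one]
      exact zmod2_two c
    · rw [h2 n (by omega) hn3, padicValNat.eq_zero_of_not_dvd (fun h => hn3 (pp_mod h))]
      simp
  have hall := eventually_zero (A := 1) (C := 1) le_rfl hgadd (n0 + 1) hg0
  obtain ⟨n, hn⟩ := exists_root3 p hp hp3
  have hz := zero_primes hgadd hall p hp ⟨n, by unfold PP; rw [one_mul]; exact hn⟩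
  simp only [hg] at hz
  rw [padicValNat.eq_zero_of_not_dvd, Nat.cast_zero, mul_zero, add_zero] at hz
  · exact hfp hz
  · intro h
    have := (Nat.prime_dvd_prime_iff_eq Nat.prime_three hp).mp h
    omega

end H359R4
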