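import Pool.Agent.H359R4.Families

/-! The deep fans. -/

namespace H359R4

open Finset H359R2 H359R3

lemma fan_unique {A C a b c e c' e' M : ℕ} (ha : 1 ≤ a) (h : a * e = b * c + 1)
    (h' : a * e' = b * c' + 1)
    (h1 : M < dt A C a b c e) (h2 : dt A C a b c e ≤ M + Nm A C a b)
    (h3 : M < dt A C a b c' e') (h4 : dt A C a b c' e' ≤ M + Nm A C a b) : c = c' ∧ e = e' := by
  have hcop : IsCoprime (a : ℤ) b := ⟨e, -c, by zify at h; linarith⟩
  have hdvd : (a : ℤ) ∣ b * ((c : ℤ) - c') := ⟨(e : ℤ) - e', by zify at h h'; linarith⟩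
  obtain ⟨k, hk⟩ := hcop.dvd_of_dvd_mul_left hdvd
  have ha0 : (a : ℤ) ≠ 0 := by exact_mod_cast (by omega : a ≠ 0)
  have hk2 : (e : ℤ) - e' = b * k := by
    apply mul_left_cancel₀ ha0
    zify at h h'
    have : (a : ℤ) * (e - e') = b * (c - c') := by linarith
    rw [this, hk]; ring
  have hdiff : (dt A C a b c e : ℤ) - dt A C a b c' e' = k * Nm A C a b := by
    unfold dt Nm
    push_cast
    have e1 : (c : ℤ) = c' + a * k := by linarith
    have e2 : (e : ℤ) = e' + b * k := by linarith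
    rw [e1, e2]
    ring
  have hk0 : k = 0 := by
    by_contra hne
    have hN : (0 : ℤ) ≤ Nm A C a b := by positivity
    rcases lt_or_gt_of_ne hne with hlt | hgt
    · have : k * (Nm A C a b : ℤ) ≤ -1 * Nm A C a b :=
        mul_le_mul_of_nonneg_right (by omega) hN
      omega
    · have : 1 * (Nm A C a b : ℤ) ≤ k * Nm A C a b :=
        mul_le_mul_of_nonneg_right (by omega) hN
      omega
  rw [hk0] at hk hk2
  constructor
  · have : (c : ℤ) = c' := by linarith
    exact_mod_cast this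
  · have : (e : ℤ) = e' := by linarith
    exact_mod_cast this

lemma fan_unique' {A C a b c e a' b' M : ℕ} (hc : 1 ≤ c) (h : a * e = b * c + 1)
    (h' : a' * e = b' * c + 1)
    (h1 : M < dt A C a b c e) (h2 : dt A C a b c e ≤ M + Nm A C c e)
    (h3 : M < dt A C a' b' c e) (h4 : dt A C a' b' c e ≤ M + Nm A C c e) : a = a' ∧ b = b' := by
  have hcop : IsCoprime (c : ℤ) e := ⟨-b, a, by zify at h; linarith⟩
  have hdvd : (c : ℤ) ∣ e * ((a : ℤ) - a') := ⟨(b : ℤ) - b', by zify at h h'; linarith⟩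
  obtain ⟨k, hk⟩ := hcop.dvd_of_dvd_mul_left hdvd
  have hc0 : (c : ℤ) ≠ 0 := by exact_mod_cast (by omega : c ≠ 0)
  have hk2 : (b : ℤ) - b' = e * k := by
    apply mul_left_cancel₀ hc0
    zify at h h'
    have : (c : ℤ) * (b - b') = e * (a - a') := by linarith
    rw [this, hk]; ring
  have hdiff : (dt A C a b c e : ℤ) - dt A C a' b' c e = k * Nm A C c e := by
    unfold dt Nm
    push_cast
    have e1 : (a : ℤ) = a' + c * k := by linarith
    have e2 : (b : ℤ) = b' + e * k := by linarith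
    rw [e1, e2]
    ring
  have hk0 : k = 0 := by
    by_contra hne
    have hN : (0 : ℤ) ≤ Nm A C c e := by positivity
    rcases lt_or_gt_of_ne hne with hlt | hgt
    · have : k * (Nm A C c e : ℤ) ≤ -1 * Nm A C c e :=
        mul_le_mul_of_nonneg_right (by omega) hN
      omega
    · have : 1 * (Nm A C c e : ℤ) ≤ k * Nm A C c e :=
        mul_le_mul_of_nonneg_right (by omega) hN
      omega
  rw [hk0] at hk hk2
  constructor
  · have : (a : ℤ) = a' := by linarith
    exact_mod_cast this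
  · have : (b : ℤ) = b' := by linarith
    exact_mod_cast this

/-- short vectors -/
lemma short_card (A C j : ℕ) (S : Finset (ℕ × ℕ))
    (hS : ∀ x ∈ S, 1 ≤ x.1 ∧ x.2 ≤ x.1 ∧ (j + 1) ^ 2 * Nm A C x.1 x.2 ≤ 2 ^ (j + 1)) :
    (S.card : ℝ) ≤ 2 * (2 ^ (j + 1) / (j + 1) ^ 2) := by
  set m := Nat.sqrt (2 ^ (j + 1) / (j + 1) ^ 2) with hm
  have hsub : S ⊆ Finset.Icc 1 m ×ˢ Finset.range (m + 1) := by
    intro x hx
    obtain ⟨h1, h2, h3⟩ := hS x hx
    have h4 : x.1 * x.1 ≤ Nm A C x.1 x.2 := by unfold Nm; rw [pow_two]; omega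
    have h5 : x.1 * x.1 ≤ 2 ^ (j + 1) / (j + 1) ^ 2 := by
      rw [Nat.le_div_iff_mul_le (by positivity)]
      calc x.1 * x.1 * (j + 1) ^ 2 ≤ Nm A C x.1 x.2 * (j + 1) ^ 2 := Nat.mul_le_mul_right _ h4
        _ ≤ 2 ^ (j + 1) := by rw [mul_comm]; exact h3
    have h6 : x.1 ≤ m := Nat.le_sqrt.mpr h5
    rw [Finset.mem_product, Finset.mem_Icc, Finset.mem_range]
    omega
  have h1 := Finset.card_le_card hsub
  rw [Finset.card_product, Nat.card_Icc, Finset.card_range, Nat.add_sub_cancel] at h1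
  have h2 : m * (m + 1) ≤ 2 * (m * m) := by
    rcases Nat.eq_zero_or_pos m with h0 | h0
    · rw [h0]
    · nlinarith
  have h3 : m * m ≤ 2 ^ (j + 1) / (j + 1) ^ 2 := Nat.sqrt_le _
  have h4 : (((2 ^ (j + 1) / (j + 1) ^ 2 : ℕ)) : ℝ) ≤ 2 ^ (j + 1) / (j + 1) ^ 2 := by
    have := @Nat.cast_div_le ℝ _ _ _ (2 ^ (j + 1)) ((j + 1) ^ 2)
    push_cast at this
    exact this
  have h5 : ((S.card : ℕ) : ℝ) ≤ ((2 * (2 ^ (j + 1) / (j + 1) ^ 2) : ℕ) : ℝ) := by
    exact_mod_cast (h1.trans (h2.trans (Nat.mul_le_mul_left _ h3)))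
  refine h5.trans ?_
  rw [Nat.cast_mul]
  exact mul_le_mul_of_nonneg_left h4 (by norm_num)

lemma summable_aux (A C : ℕ) (E : Set (ℕ × ℕ × ℕ × ℕ))
    (h : ∀ j : ℕ, ∑ n ∈ Finset.Ioc (2 ^ j) (2 ^ j + 2 ^ j), wf A C E n ≤ 4 / ((j : ℝ) + 1) ^ 2) :
    Summable (wf A C E) := by
  apply summable_of_dyadic _ (wf_nonneg A C E)
  apply Summable.of_nonneg_of_le (fun j => Finset.sum_nonneg (fun n _ => wf_nonneg A C E n)) h
  have h1 : Summable (fun j : ℕ => 4 * (1 / ((j : ℝ)) ^ 2)) :=
    (Real.summable_one_div_nat_pow.mpr (by norm_num)).mul_left 4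
  have h2 := (summable_nat_add_iff 1).mpr h1
  refine h2.congr ?_
  intro j
  push_cast
  ring

open Classical in
lemma block_le (A C j : ℕ) (E : Set (ℕ × ℕ × ℕ × ℕ)) (φ : ℕ × ℕ × ℕ × ℕ → ℕ × ℕ)
    (hinj : ∀ n n' z z', jj n = j → jj n' = j → 2 ^ j < n → 2 ^ j < n' → z ∈ EE A C n →
      z' ∈ EE A C n' → z ∈ E → z' ∈ E → φ z = φ z' → z = z')
    (hφ : ∀ n z, jj n = j → z ∈ EE A C n → z ∈ E → 1 ≤ (φ z).1 ∧ (φ z).2 ≤ (φ z).1 ∧
      (j + 1) ^ 2 * Nm A C (φ z).1 (φ z).2 ≤ 2 ^ (j + 1)) :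
    ∑ n ∈ Finset.Ioc (2 ^ j) (2 ^ j + 2 ^ j), wf A C E n ≤ 4 / ((j : ℝ) + 1) ^ 2 := by
  rw [wf_sum_eq]
  set S := (Finset.Ioc (2 ^ j) (2 ^ j + 2 ^ j)).biUnion (EF A C E) with hS
  have hSp : ∀ z ∈ S, ∃ n, jj n = j ∧ 2 ^ j < n ∧ z ∈ EE A C n ∧ z ∈ E := by
    intro z hz
    rw [hS, Finset.mem_biUnion] at hz
    obtain ⟨n, hn, hz⟩ := hz
    rw [Finset.mem_Ioc] at hn
    rw [mem_EF_iff] at hz
    refine ⟨n, jj_eq hn.1 ?_, hn.1, hz.1, hz.2⟩
    rw [pow_succ]; omega
  have h2j : (0 : ℝ) < 2 ^ j := by positivity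
  have h1 : ∑ z ∈ S, 1 / (D A C z : ℝ) ≤ ∑ z ∈ S, 1 / (2 ^ j : ℝ) := by
    apply Finset.sum_le_sum
    intro z hz
    obtain ⟨n, _, hn2, hz1, _⟩ := hSp z hz
    rw [(mem_EE_iff.mp hz1).2.1]
    apply one_div_le_one_div_of_le h2j
    exact_mod_cast hn2.le
  refine h1.trans ?_
  rw [Finset.sum_const, nsmul_eq_mul]
  have h3 : S.card = (S.image φ).card := by
    rw [Finset.card_image_of_injOn]
    intro z hz z' hz' hzz
    obtain ⟨n, hn1, hn2, hz1, hz2⟩ := hSp z hz
    obtain ⟨n', hn1', hn2', hz1', hz2'⟩ := hSp z' hz'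
    exact hinj n n' z z' hn1 hn1' hn2 hn2' hz1 hz1' hz2 hz2' hzz
  rw [h3]
  have h4 := short_card A C j (S.image φ) (by
    intro x hx
    rw [Finset.mem_image] at hx
    obtain ⟨z, hz, rfl⟩ := hx
    obtain ⟨n, hn1, _, hz1, hz2⟩ := hSp z hz
    exact hφ n z hn1 hz1 hz2)
  calc ((S.image φ).card : ℝ) * (1 / 2 ^ j) ≤ (2 * (2 ^ (j + 1) / (j + 1) ^ 2)) * (1 / 2 ^ j) :=
        mul_le_mul_of_nonneg_right h4 (by positivity)
    _ = 4 / ((j : ℝ) + 1) ^ 2 := by
        rw [pow_succ]
        field_simp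
        norm_num

lemma summable_E3 (A C : ℕ) : Summable (wf A C (E3 A C)) := by
  apply summable_aux
  intro j
  apply block_le A C j _ (fun z => (z.1, z.2.1))
  · rintro n n' ⟨a, b, c, e⟩ ⟨a', b', c', e'⟩ hj hj' hn hn' hz hz' hE hE' h
    simp only [Prod.mk.injEq] at h
    obtain ⟨rfl, rfl⟩ := h
    rw [mem_EE_iff] at hz hz'
    obtain ⟨h1, h2, h3, -, -, -⟩ := hz
    obtain ⟨h1', h2', -, -, -, -⟩ := hz'
    have hE1 := hE.1
    have hE1' := hE'.1
    rw [h2, hj] at hE1
    rw [h2', hj'] at hE1'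
    simp only at h1 h1' h3 hE1 hE1'
    have g1 : dt A C a b c e = n := h2
    have g2 : dt A C a b c' e' = n' := h2'
    have := fan_unique (M := 2 ^ j) h3 h1 h1' (by rw [g1]; exact hn)
        (by rw [g1]; exact hE1) (by rw [g2]; exact hn') (by rw [g2]; exact hE1')
    rw [this.1, this.2]
  · rintro n ⟨a, b, c, e⟩ hj hz hE
    have h2 := (mem_EE_iff.mp hz).2.1
    have hE2 := hE.2
    rw [h2, hj] at hE2
    rw [mem_EE_iff] at hz
    simp only at hz hE2 ⊢
    exact ⟨hz.2.2.1, hz.2.2.2.2.1, hE2⟩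

lemma summable_E4 (A C : ℕ) : Summable (wf A C (E4 A C)) := by
  apply summable_aux
  intro j
  apply block_le A C j _ (fun z => (z.2.2.1, z.2.2.2))
  · rintro n n' ⟨a, b, c, e⟩ ⟨a', b', c', e'⟩ hj hj' hn hn' hz hz' hE hE' h
    simp only [Prod.mk.injEq] at h
    obtain ⟨rfl, rfl⟩ := h
    rw [mem_EE_iff] at hz hz'
    obtain ⟨h1, h2, -, h4, -, -⟩ := hz
    obtain ⟨h1', h2', -, -, -, -⟩ := hz'
    have hE1 := hE.1
    have hE1' := hE'.1
    rw [h2, hj] at hE1
    rw [h2', hj'] at hE1'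
    simp only at h1 h1' h4 hE1 hE1'
    have g1 : dt A C a b c e = n := h2
    have g2 : dt A C a' b' c e = n' := h2'
    have := fan_unique' (M := 2 ^ j) h4 h1 h1' (by rw [g1]; exact hn)
        (by rw [g1]; exact hE1) (by rw [g2]; exact hn') (by rw [g2]; exact hE1')
    rw [this.1, this.2]
  · rintro n ⟨a, b, c, e⟩ hj hz hE
    have h2 := (mem_EE_iff.mp hz).2.1
    have hE2 := hE.2
    rw [h2, hj] at hE2
    rw [mem_EE_iff] at hz
    simp only at hz hE2 ⊢
    exact ⟨hz.2.2.2.1, hz.2.2.2.2.2, hE2⟩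

lemma summable_EA (A C : ℕ) (hC : 1 ≤ C) (B : Set ℕ) (hs : Summable (wtK A C B)) :
    Summable (wf A C (EA A C B)) :=
  summable_union (summable_E0 A C hC B hs) (summable_union (summable_E1 A C hC B hs)
    (summable_union (summable_E2 A C hC B hs) (summable_union (summable_E3 A C) (summable_E4 A C))))

/-- going down a fan on the right -/
lemma fan_down_right {A C a b M : ℕ} : ∀ (k c e : ℕ), dt A C a b c e ≤ k → a * e = b * c + 1 →
    M < dt A C a b c e → ∃ i c' e' : ℕ, a * e' = b * c' + 1 ∧ c = c' + i * a ∧ e = e' + i * b ∧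
      M < dt A C a b c' e' ∧ dt A C a b c' e' ≤ M + Nm A C a b := by
  intro k
  induction k with
  | zero => intro c e hk h hM; omega
  | succ k ih =>
    intro c e hk h hM
    by_cases hdone : dt A C a b c e ≤ M + Nm A C a b
    · exact ⟨0, c, e, h, by omega, by omega, hM, hdone⟩
    push Not at hdone
    have ha : 1 ≤ a := by
      rcases Nat.eq_zero_or_pos a with h0 | h0
      · rw [h0] at h; omega
      · exact h0
    have hle : a ≤ c ∧ b ≤ e := by
      by_contra hcon
      have hca : c ≤ a ∧ e ≤ b ∨ (b = 0 ∧ c < a) := by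
        rcases Nat.lt_or_ge c a with h1 | h1
        · rcases Nat.eq_zero_or_pos b with hb | hb
          · exact Or.inr ⟨hb, h1⟩
          · left
            refine ⟨h1.le, ?_⟩
            by_contra he
            push Not at he
            have h2 : a * (b + 1) ≤ a * e := Nat.mul_le_mul_left _ he
            have h3 : b * (c + 1) ≤ b * a := Nat.mul_le_mul_left _ h1
            nlinarith
        · have h1' : e < b := by
            by_contra he
            push Not at he
            exact hcon ⟨h1, he⟩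
          exfalso
          have h2 : a * (e + 1) ≤ a * b := Nat.mul_le_mul_left _ h1'
          have h3 : b * a ≤ b * c := Nat.mul_le_mul_left _ h1
          nlinarith
      rcases hca with ⟨h1, h2⟩ | ⟨h1, h2⟩
      · have : dt A C a b c e ≤ Nm A C a b := by
          unfold dt Nm
          have e1 : a * c ≤ a ^ 2 := by rw [pow_two]; exact Nat.mul_le_mul_left _ h1
          have e2 : A * (b * c) ≤ A * (a * b) := by
            rw [mul_comm a b]; exact Nat.mul_le_mul_left _ (Nat.mul_le_mul_left _ h1)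
          have e3 : C * (b * e) ≤ C * b ^ 2 := by
            rw [pow_two]; exact Nat.mul_le_mul_left _ (Nat.mul_le_mul_left _ h2)
          omega
        omega
      · subst h1
        have : dt A C a 0 c e ≤ Nm A C a 0 := by
          unfold dt Nm
          have e1 : a * c ≤ a ^ 2 := by rw [pow_two]; exact Nat.mul_le_mul_left _ h2.le
          simp only [zero_mul, mul_zero, add_zero]
          simpa using e1
        omega
    obtain ⟨c', rfl⟩ : ∃ c', c = c' + a := ⟨c - a, by omega⟩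
    obtain ⟨e', rfl⟩ : ∃ e', e = e' + b := ⟨e - b, by omega⟩
    have hN : 1 ≤ Nm A C a b := by
      unfold Nm; have := Nat.one_le_pow 2 a ha; omega
    have hd : dt A C a b (c' + a) (e' + b) = dt A C a b c' e' + Nm A C a b := by
      unfold dt Nm; ring
    have h' : a * e' = b * c' + 1 := by nlinarith
    obtain ⟨i, c'', e'', g1, g2, g3, g4, g5⟩ := ih c' e' (by omega) h' (by omega)
    exact ⟨i + 1, c'', e'', g1, by rw [g2]; ring, by rw [g3]; ring, g4, g5⟩

/-- going down a fan on the left -/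
lemma fan_down_left {A C c e M : ℕ} (hC : 1 ≤ C) : ∀ (k a b : ℕ), dt A C a b c e ≤ k →
    a * e = b * c + 1 →
    M < dt A C a b c e → ∃ i a' b' : ℕ, a' * e = b' * c + 1 ∧ a = a' + i * c ∧ b = b' + i * e ∧
      M < dt A C a' b' c e ∧ dt A C a' b' c e ≤ M + Nm A C c e := by
  intro k
  induction k with
  | zero => intro a b hk h hM; omega
  | succ k ih =>
    intro a b hk h hM
    by_cases hdone : dt A C a b c e ≤ M + Nm A C c e
    · exact ⟨0, a, b, h, by omega, by omega, hM, hdone⟩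
    push Not at hdone
    have he : 1 ≤ e := by
      rcases Nat.eq_zero_or_pos e with h0 | h0
      · rw [h0] at h; omega
      · exact h0
    have hle : c ≤ a ∧ e ≤ b := by
      by_contra hcon
      have hca : a ≤ c ∧ b ≤ e ∨ (c = 0 ∧ b < e) := by
        rcases Nat.lt_or_ge b e with h1 | h1
        · rcases Nat.eq_zero_or_pos c with hc | hc
          · exact Or.inr ⟨hc, h1⟩
          · left
            refine ⟨?_, h1.le⟩
            by_contra hac
            push Not at hac
            have h2 : (c + 1) * e ≤ a * e := Nat.mul_le_mul_right _ hac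
            have h3 : (b + 1) * c ≤ e * c := Nat.mul_le_mul_right _ h1
            nlinarith
        · have h1' : a < c := by
            by_contra hac
            push Not at hac
            exact hcon ⟨hac, h1⟩
          exfalso
          have h2 : (a + 1) * e ≤ c * e := Nat.mul_le_mul_right _ h1'
          have h3 : e * c ≤ b * c := Nat.mul_le_mul_right _ h1
          nlinarith
      rcases hca with ⟨h1, h2⟩ | ⟨h1, h2⟩
      · have : dt A C a b c e ≤ Nm A C c e := by
          unfold dt Nm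
          have e1 : a * c ≤ c ^ 2 := by rw [pow_two]; exact Nat.mul_le_mul_right _ h1
          have e2 : A * (b * c) ≤ A * (c * e) := by
            rw [mul_comm c e]; exact Nat.mul_le_mul_left _ (Nat.mul_le_mul_right _ h2)
          have e3 : C * (b * e) ≤ C * e ^ 2 := by
            rw [pow_two]; exact Nat.mul_le_mul_left _ (Nat.mul_le_mul_right _ h2)
          omega
        omega
      · subst h1
        have : dt A C a b 0 e ≤ Nm A C 0 e := by
          unfold dt Nm
          have e3 : C * (b * e) ≤ C * e ^ 2 := by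
            rw [pow_two]; exact Nat.mul_le_mul_left _ (Nat.mul_le_mul_right _ h2.le)
          simp only [zero_mul, mul_zero, zero_add, add_zero]
          simpa using e3
        omega
    obtain ⟨a', rfl⟩ : ∃ a', a = a' + c := ⟨a - c, by omega⟩
    obtain ⟨b', rfl⟩ : ∃ b', b = b' + e := ⟨b - e, by omega⟩
    have hN : 1 ≤ Nm A C c e := nm_pos hC (by omega)
    have hd : dt A C (a' + c) (b' + e) c e = dt A C a' b' c e + Nm A C c e := by
      unfold dt Nm; ring
    have h' : a' * e = b' * c + 1 := by nlinarith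
    obtain ⟨i, a'', b'', g1, g2, g3, g4, g5⟩ := ih a' b' (by omega) h' (by omega)
    exact ⟨i + 1, a'', b'', g1, by rw [g2]; ring, by rw [g3]; ring, g4, g5⟩

/-- an unaffected vector sees only good triangles -/
lemma unaff_good {A C : ℕ} (hC : 1 ≤ C) {B : Set ℕ} {Y w1 w2 : ℕ} (hY : 1 ≤ Y)
    (hw : ¬ AffE A C (EA A C B) Y w1 w2) (a b c e p q : ℕ) (h : a * e = b * c + 1)
    (hdt : 2 * Y ≤ dt A C a b c e) (hp : 1 ≤ p) (hq : 1 ≤ q) (h1 : w1 = p * a + q * c)
    (h2 : w2 = p * b + q * e) :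
    dt A C a b c e ∉ B ∧ dt A C a b (a + c) (b + e) ∉ B ∧ dt A C (a + c) (b + e) c e ∉ B := by
  have hs1 : a + c ≤ w1 := by rw [h1]; exact le_mul_add_mul hp hq
  have hs2 : b + e ≤ w2 := by rw [h2]; exact le_mul_add_mul hp hq
  have hNu : Nm A C a b ≤ Nm A C w1 w2 := nm_mono (by omega) (by omega)
  have hNv : Nm A C c e ≤ Nm A C w1 w2 := nm_mono (by omega) (by omega)
  set n := dt A C a b c e with hn
  have hn2 : 2 ≤ n := by omega
  have hjl := jj_lt hn2
  have hjr := le_jj (n := n)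
  have hYj : Y ≤ 2 ^ jj n := by rw [pow_succ] at hjr; omega
  -- balance on the left vector
  have hbal1 : n < KK n * Nm A C a b := by
    by_contra hcon
    push Not at hcon
    obtain ⟨i, c', e', g1, g2, g3, g4, g5⟩ := fan_down_right (A := A) (C := C) (M := 2 ^ jj n)
      n c e le_rfl h hjl
    apply hw
    have hle : dt A C a b c' e' ≤ n := by
      rw [hn, g2, g3]
      unfold dt
      have e1 : a * c' ≤ a * (c' + i * a) := Nat.mul_le_mul_left _ (by omega)
      have e2 : A * (b * c') ≤ A * (b * (c' + i * a)) :=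
        Nat.mul_le_mul_left _ (Nat.mul_le_mul_left _ (by omega))
      have e3 : C * (b * e') ≤ C * (b * (e' + i * b)) :=
        Nat.mul_le_mul_left _ (Nat.mul_le_mul_left _ (by omega))
      omega
    have hj' : jj (dt A C a b c' e') = jj n := jj_eq g4 (hle.trans hjr)
    refine ⟨a, b, c', e', p + q * i, q, g1, by omega, ?_, ?_, ?_, hNu, ?_⟩
    · right; right; right; left
      change dt A C a b c' e' ≤ 2 ^ jj (dt A C a b c' e') + Nm A C a b ∧
        (jj (dt A C a b c' e') + 1) ^ 2 * Nm A C a b ≤ 2 ^ (jj (dt A C a b c' e') + 1)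
      rw [hj']
      refine ⟨g5, le_trans ?_ hjr⟩
      exact hcon
    · rw [h1, g2]; ring
    · rw [h2, g3]; ring
    · refine le_trans (nm_mono ?_ ?_) hNv
      · rw [g2]; omega
      · rw [g3]; omega
  have hbal2 : n < KK n * Nm A C c e := by
    by_contra hcon
    push Not at hcon
    obtain ⟨i, a', b', g1, g2, g3, g4, g5⟩ := fan_down_left (A := A) (C := C) (M := 2 ^ jj n) hC
      n a b le_rfl h hjl
    apply hw
    have hle : dt A C a' b' c e ≤ n := by
      rw [hn, g2, g3]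
      unfold dt
      have e1 : a' * c ≤ (a' + i * c) * c := Nat.mul_le_mul_right _ (by omega)
      have e2 : A * (b' * c) ≤ A * ((b' + i * e) * c) :=
        Nat.mul_le_mul_left _ (Nat.mul_le_mul_right _ (by omega))
      have e3 : C * (b' * e) ≤ C * ((b' + i * e) * e) :=
        Nat.mul_le_mul_left _ (Nat.mul_le_mul_right _ (by omega))
      omega
    have hj' : jj (dt A C a' b' c e) = jj n := jj_eq g4 (hle.trans hjr)
    refine ⟨a', b', c, e, p, q + p * i, g1, by omega, ?_, ?_, ?_, ?_, hNv⟩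
    · right; right; right; right
      change dt A C a' b' c e ≤ 2 ^ jj (dt A C a' b' c e) + Nm A C c e ∧
        (jj (dt A C a' b' c e) + 1) ^ 2 * Nm A C c e ≤ 2 ^ (jj (dt A C a' b' c e) + 1)
      rw [hj']
      refine ⟨g5, le_trans ?_ hjr⟩
      exact hcon
    · rw [h1, g2]; ring
    · rw [h2, g3]; ring
    · refine le_trans (nm_mono ?_ ?_) hNu
      · rw [g2]; omega
      · rw [g3]; omega
  refine ⟨?_, ?_, ?_⟩
  · intro hmem
    exact hw ⟨a, b, c, e, p, q, h, by omega, Or.inl hmem, h1, h2, hNu, hNv⟩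
  · intro hmem
    rw [dt_right] at hmem
    exact hw ⟨a, b, c, e, p, q, h, by omega, Or.inr (Or.inl ⟨hbal2, hmem⟩), h1, h2, hNu, hNv⟩
  · intro hmem
    rw [dt_left] at hmem
    exact hw ⟨a, b, c, e, p, q, h, by omega, Or.inr (Or.inr (Or.inl ⟨hbal1, hmem⟩)), h1, h2,
      hNu, hNv⟩

end H359R4
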