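import Pool.Agent.H359R4.Family
import Pool.Agent.H359R3.Sparse

/-! The families of edges attached to a sparse set. -/

namespace H359R4

open Finset H359R2 H359R3

/-- dyadic scale: `2^j < n ≤ 2^(j+1)` -/
def jj (n : ℕ) : ℕ := Nat.log 2 (n - 1)

/-- balance threshold -/
def KK (n : ℕ) : ℕ := (jj n + 1) ^ 2

lemma jj_mono {m n : ℕ} (h : m ≤ n) : jj m ≤ jj n := Nat.log_mono_right (by omega)

lemma KK_mono {m n : ℕ} (h : m ≤ n) : KK m ≤ KK n :=
  Nat.pow_le_pow_left (Nat.add_le_add_right (jj_mono h) 1) 2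

lemma one_le_KK (n : ℕ) : 1 ≤ KK n := Nat.one_le_pow _ _ (by omega)

lemma jj_lt {n : ℕ} (hn : 2 ≤ n) : 2 ^ jj n < n := by
  have := Nat.pow_log_le_self 2 (x := n - 1) (by omega)
  unfold jj
  omega

lemma le_jj {n : ℕ} : n ≤ 2 ^ (jj n + 1) := by
  have := Nat.lt_pow_succ_log_self (b := 2) (by norm_num) (n - 1)
  unfold jj
  have h2 : 0 < 2 ^ (Nat.log 2 (n - 1) + 1) := by positivity
  rw [Nat.succ_eq_add_one] at this
  omega

lemma jj_eq {n j : ℕ} (h1 : 2 ^ j < n) (h2 : n ≤ 2 ^ (j + 1)) : jj n = j := by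
  unfold jj
  rw [Nat.log_eq_iff]
  · constructor <;> omega
  · right
    have : 1 ≤ 2 ^ j := Nat.one_le_two_pow
    constructor
    · norm_num
    · omega

/-- scalar product of the vectors of an edge -/
def D (A C : ℕ) (z : ℕ × ℕ × ℕ × ℕ) : ℕ := dt A C z.1 z.2.1 z.2.2.1 z.2.2.2

def E0 (A C : ℕ) (B : Set ℕ) : Set (ℕ × ℕ × ℕ × ℕ) := {z | D A C z ∈ B}

def E1 (A C : ℕ) (B : Set ℕ) : Set (ℕ × ℕ × ℕ × ℕ) :=
  {z | D A C z < KK (D A C z) * Nm A C z.2.2.1 z.2.2.2 ∧ D A C z + Nm A C z.1 z.2.1 ∈ B}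

def E2 (A C : ℕ) (B : Set ℕ) : Set (ℕ × ℕ × ℕ × ℕ) :=
  {z | D A C z < KK (D A C z) * Nm A C z.1 z.2.1 ∧ D A C z + Nm A C z.2.2.1 z.2.2.2 ∈ B}

def E3 (A C : ℕ) : Set (ℕ × ℕ × ℕ × ℕ) :=
  {z | D A C z ≤ 2 ^ jj (D A C z) + Nm A C z.1 z.2.1 ∧
    (jj (D A C z) + 1) ^ 2 * Nm A C z.1 z.2.1 ≤ 2 ^ (jj (D A C z) + 1)}

def E4 (A C : ℕ) : Set (ℕ × ℕ × ℕ × ℕ) :=
  {z | D A C z ≤ 2 ^ jj (D A C z) + Nm A C z.2.2.1 z.2.2.2 ∧
    (jj (D A C z) + 1) ^ 2 * Nm A C z.2.2.1 z.2.2.2 ≤ 2 ^ (jj (D A C z) + 1)}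

def EA (A C : ℕ) (B : Set ℕ) : Set (ℕ × ℕ × ℕ × ℕ) :=
  E0 A C B ∪ (E1 A C B ∪ (E2 A C B ∪ (E3 A C ∪ E4 A C)))

/-- weights -/
noncomputable def wtK (A C : ℕ) (B : Set ℕ) : ℕ → ℝ :=
  B.indicator (fun n => (KK n : ℝ) * (tau (PP A C n) : ℝ) / n)

lemma wtK_nonneg (A C : ℕ) (B : Set ℕ) (n : ℕ) : 0 ≤ wtK A C B n := by
  unfold wtK
  apply Set.indicator_nonneg
  intro n _
  positivity

lemma wtK_of_mem {A C : ℕ} {B : Set ℕ} {n : ℕ} (h : n ∈ B) :
    wtK A C B n = (KK n : ℝ) * (tau (PP A C n) : ℝ) / n := by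
  unfold wtK
  exact Set.indicator_of_mem h _

lemma mem_EE_iff {A C n : ℕ} {z : ℕ × ℕ × ℕ × ℕ} : z ∈ EE A C n ↔
    z.1 * z.2.2.2 = z.2.1 * z.2.2.1 + 1 ∧ D A C z = n ∧
      1 ≤ z.1 ∧ 1 ≤ z.2.2.1 ∧ z.2.1 ≤ z.1 ∧ z.2.2.2 ≤ z.2.2.1 := by
  constructor
  · intro h
    unfold EE at h
    rw [Finset.mem_filter] at h
    exact h.2
  · rintro ⟨h1, h2, h3, h4, h5, h6⟩
    exact mem_EE h1 h2 h3 h4 h5 h6

lemma mem_EF_iff {A C n : ℕ} {E : Set (ℕ × ℕ × ℕ × ℕ)} {z : ℕ × ℕ × ℕ × ℕ} :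
    z ∈ EF A C E n ↔ z ∈ EE A C n ∧ z ∈ E := by
  classical
  unfold EF
  rw [Finset.mem_filter]

lemma wf_union_le (A C : ℕ) (E E' : Set (ℕ × ℕ × ℕ × ℕ)) (n : ℕ) :
    wf A C (E ∪ E') n ≤ wf A C E n + wf A C E' n := by
  classical
  unfold wf
  rw [← add_div]
  apply div_le_div_of_nonneg_right _ (by positivity)
  have : EF A C (E ∪ E') n ⊆ EF A C E n ∪ EF A C E' n := by
    intro z hz
    rw [mem_EF_iff] at hz
    rw [Finset.mem_union, mem_EF_iff, mem_EF_iff]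
    rcases hz.2 with h | h
    · exact Or.inl ⟨hz.1, h⟩
    · exact Or.inr ⟨hz.1, h⟩
  have h2 := (Finset.card_le_card this).trans (Finset.card_union_le _ _)
  exact_mod_cast h2

lemma summable_union {A C : ℕ} {E E' : Set (ℕ × ℕ × ℕ × ℕ)} (h : Summable (wf A C E))
    (h' : Summable (wf A C E')) : Summable (wf A C (E ∪ E')) :=
  Summable.of_nonneg_of_le (wf_nonneg A C _) (wf_union_le A C E E') (h.add h')

open Classical in
lemma wf_sum_eq (A C : ℕ) (E : Set (ℕ × ℕ × ℕ × ℕ)) (S : Finset ℕ) :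
    ∑ n ∈ S, wf A C E n = ∑ z ∈ S.biUnion (EF A C E), 1 / (D A C z : ℝ) := by
  rw [Finset.sum_biUnion]
  · apply Finset.sum_congr rfl
    intro n _
    have : ∑ z ∈ EF A C E n, 1 / (D A C z : ℝ) = ∑ z ∈ EF A C E n, 1 / (n : ℝ) := by
      apply Finset.sum_congr rfl
      intro z hz
      rw [mem_EF_iff, mem_EE_iff] at hz
      rw [hz.1.2.1]
    rw [this, Finset.sum_const, nsmul_eq_mul]
    unfold wf
    ring
  · intro m _ n _ hmn
    rw [Function.onFun, Finset.disjoint_left]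
    intro z hz hz'
    rw [mem_EF_iff, mem_EE_iff] at hz hz'
    exact hmn (hz.1.2.1.symm.trans hz'.1.2.1)

open Classical in
lemma summable_wf_of_map (A C : ℕ) (hC : 1 ≤ C) (E : Set (ℕ × ℕ × ℕ × ℕ)) (B : Set ℕ) (c : ℝ)
    (hc : 0 ≤ c) (φ : ℕ × ℕ × ℕ × ℕ → ℕ × ℕ × ℕ × ℕ) (hinj : Function.Injective φ)
    (hφ : ∀ n z, z ∈ EE A C n → z ∈ E → φ z ∈ EE A C (D A C (φ z)) ∧ D A C (φ z) ∈ B ∧
      1 / (n : ℝ) ≤ c * ((KK (D A C (φ z)) : ℝ) / D A C (φ z)))
    (hs : Summable (wtK A C B)) : Summable (wf A C E) := by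
  apply summable_of_sum_range_le (c := c * ∑' n, wtK A C B n) (wf_nonneg A C E)
  intro N
  rw [wf_sum_eq]
  set S := (Finset.range N).biUnion (EF A C E) with hS
  set T := (S.image φ) with hT
  set J := T.image (D A C) with hJ
  have h1 : ∑ z ∈ S, 1 / (D A C z : ℝ) ≤
      ∑ z ∈ S, c * ((KK (D A C (φ z)) : ℝ) / D A C (φ z)) := by
    apply Finset.sum_le_sum
    intro z hz
    rw [hS, Finset.mem_biUnion] at hz
    obtain ⟨n, _, hz⟩ := hz
    rw [mem_EF_iff] at hz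
    have h2 := (hφ n z hz.1 hz.2).2.2
    have h3 := (mem_EE_iff.mp hz.1).2.1
    rw [h3]
    exact h2
  refine h1.trans ?_
  have h2 : ∑ z ∈ S, c * ((KK (D A C (φ z)) : ℝ) / D A C (φ z)) =
      ∑ z ∈ T, c * ((KK (D A C z) : ℝ) / D A C z) := by
    rw [hT, Finset.sum_image]
    intro x _ y _ h
    exact hinj h
  rw [h2, ← Finset.mul_sum]
  apply mul_le_mul_of_nonneg_left _ hc
  have hTprop : ∀ z ∈ T, z ∈ EE A C (D A C z) ∧ D A C z ∈ B := by
    intro z hz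
    rw [hT, Finset.mem_image] at hz
    obtain ⟨y, hy, rfl⟩ := hz
    rw [hS, Finset.mem_biUnion] at hy
    obtain ⟨n, _, hy⟩ := hy
    rw [mem_EF_iff] at hy
    have := hφ n y hy.1 hy.2
    exact ⟨this.1, this.2.1⟩
  have h3 : ∑ z ∈ T, ((KK (D A C z) : ℝ) / D A C z) ≤ ∑ n ∈ J, wtK A C B n := by
    have h4 : ∑ z ∈ T, ((KK (D A C z) : ℝ) / D A C z) =
        ∑ n ∈ J, ∑ z ∈ T.filter (fun z => D A C z = n), ((KK (D A C z) : ℝ) / D A C z) := by
      rw [Finset.sum_fiberwise_of_maps_to]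
      intro z hz
      rw [hJ]
      exact Finset.mem_image_of_mem _ hz
    rw [h4]
    apply Finset.sum_le_sum
    intro n hn
    rw [hJ, Finset.mem_image] at hn
    obtain ⟨z0, hz0, hz0n⟩ := hn
    have hnB : n ∈ B := by rw [← hz0n]; exact (hTprop z0 hz0).2
    rw [wtK_of_mem hnB]
    have h5 : ∑ z ∈ T.filter (fun z => D A C z = n), ((KK (D A C z) : ℝ) / D A C z) =
        ((T.filter (fun z => D A C z = n)).card : ℝ) * ((KK n : ℝ) / n) := by
      rw [← nsmul_eq_mul, ← Finset.sum_const]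
      apply Finset.sum_congr rfl
      intro z hz
      rw [Finset.mem_filter] at hz
      rw [hz.2]
    rw [h5]
    have h6 : T.filter (fun z => D A C z = n) ⊆ EE A C n := by
      intro z hz
      rw [Finset.mem_filter] at hz
      have := (hTprop z hz.1).1
      rwa [hz.2] at this
    have h7 : ((T.filter (fun z => D A C z = n)).card : ℝ) ≤ tau (PP A C n) := by
      exact_mod_cast (Finset.card_le_card h6).trans (EE_card hC)
    calc ((T.filter (fun z => D A C z = n)).card : ℝ) * ((KK n : ℝ) / n)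
        ≤ (tau (PP A C n) : ℝ) * ((KK n : ℝ) / n) := mul_le_mul_of_nonneg_right h7 (by positivity)
      _ = _ := by ring
  exact h3.trans (hs.sum_le_tsum J (fun n _ => wtK_nonneg A C B n))

lemma nm_le_of_bal {A C : ℕ} {a b c e : ℕ} (h : a * e = b * c + 1)
    (hdt : 1 ≤ dt A C a b c e) (hbal : dt A C a b c e < KK (dt A C a b c e) * Nm A C a b) :
    Nm A C c e ≤ (1 + A + C) * dt A C a b c e * KK (dt A C a b c e) := by
  have hprod := nm_mul_nm A C a b c e h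
  set n := dt A C a b c e with hn
  have hP : PP A C n ≤ (1 + A + C) * (n * n) := by
    unfold PP
    have h1 : n ≤ n * n := Nat.le_mul_of_pos_left n hdt
    have h2 : A * n ≤ A * (n * n) := Nat.mul_le_mul_left _ h1
    have h3 : C * 1 ≤ C * (n * n) := Nat.mul_le_mul_left _ (by omega)
    nlinarith
  by_contra hcon
  push Not at hcon
  have h4 : Nm A C a b * ((1 + A + C) * n * KK n) < Nm A C a b * Nm A C c e := by
    apply Nat.mul_lt_mul_of_pos_left hcon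
    rcases Nat.eq_zero_or_pos (Nm A C a b) with h0 | h0
    · rw [h0] at hbal; omega
    · exact h0
  have h5 : (1 + A + C) * n * n ≤ (1 + A + C) * n * (KK n * Nm A C a b) :=
    Nat.mul_le_mul_left _ hbal.le
  nlinarith

lemma nm_le_of_bal' {A C : ℕ} {a b c e : ℕ} (h : a * e = b * c + 1)
    (hdt : 1 ≤ dt A C a b c e) (hbal : dt A C a b c e < KK (dt A C a b c e) * Nm A C c e) :
    Nm A C a b ≤ (1 + A + C) * dt A C a b c e * KK (dt A C a b c e) := by
  have hprod := nm_mul_nm A C a b c e h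
  set n := dt A C a b c e with hn
  have hP : PP A C n ≤ (1 + A + C) * (n * n) := by
    unfold PP
    have h1 : n ≤ n * n := Nat.le_mul_of_pos_left n hdt
    have h2 : A * n ≤ A * (n * n) := Nat.mul_le_mul_left _ h1
    have h3 : C * 1 ≤ C * (n * n) := Nat.mul_le_mul_left _ (by omega)
    nlinarith
  by_contra hcon
  push Not at hcon
  have h4 : Nm A C c e * ((1 + A + C) * n * KK n) < Nm A C c e * Nm A C a b := by
    apply Nat.mul_lt_mul_of_pos_left hcon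
    rcases Nat.eq_zero_or_pos (Nm A C c e) with h0 | h0
    · rw [h0] at hbal; omega
    · exact h0
  have h5 : (1 + A + C) * n * n ≤ (1 + A + C) * n * (KK n * Nm A C c e) :=
    Nat.mul_le_mul_left _ hbal.le
  nlinarith

lemma ratio_bound {A C n m : ℕ} (hn : 1 ≤ n) (hm : m ≤ (1 + A + C) * n * KK n) :
    1 / (n : ℝ) ≤ (2 + A + C) * ((KK (n + m) : ℝ) / ((n + m : ℕ) : ℝ)) := by
  have hnR : (0 : ℝ) < n := by exact_mod_cast hn
  have hmR : (0 : ℝ) < ((n + m : ℕ) : ℝ) := by exact_mod_cast (by omega : 0 < n + m)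
  rw [← mul_div_assoc, div_le_div_iff₀ hnR hmR, one_mul]
  have h1 : KK n ≤ KK (n + m) := KK_mono (by omega)
  have h2 : 1 ≤ KK n := one_le_KK n
  have h3 : n + m ≤ (2 + A + C) * KK (n + m) * n := by
    calc n + m ≤ n * KK n + (1 + A + C) * n * KK n := by nlinarith
      _ = (2 + A + C) * KK n * n := by ring
      _ ≤ (2 + A + C) * KK (n + m) * n := Nat.mul_le_mul_right _ (Nat.mul_le_mul_left _ h1)
  exact_mod_cast h3

lemma summable_E0 (A C : ℕ) (hC : 1 ≤ C) (B : Set ℕ) (hs : Summable (wtK A C B)) :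
    Summable (wf A C (E0 A C B)) := by
  apply summable_wf_of_map A C hC _ B 1 zero_le_one id Function.injective_id _ hs
  intro n z hz hzE
  have hn := (mem_EE_iff.mp hz).2.1
  refine ⟨by rw [id, hn]; exact hz, hzE, ?_⟩
  rw [id, hn, one_mul]
  apply div_le_div_of_nonneg_right _ (by positivity)
  exact_mod_cast one_le_KK n

lemma dt_pos_of_EE {A C n : ℕ} {z : ℕ × ℕ × ℕ × ℕ} (hz : z ∈ EE A C n) : 1 ≤ n := by
  rw [mem_EE_iff] at hz
  obtain ⟨_, h2, h3, h4, _⟩ := hz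
  rw [← h2]
  unfold D dt
  have := Nat.mul_le_mul h3 h4
  omega

lemma summable_E1 (A C : ℕ) (hC : 1 ≤ C) (B : Set ℕ) (hs : Summable (wtK A C B)) :
    Summable (wf A C (E1 A C B)) := by
  apply summable_wf_of_map A C hC _ B (2 + A + C) (by positivity)
    (fun z => (z.1, z.2.1, z.1 + z.2.2.1, z.2.1 + z.2.2.2)) _ _ hs
  · rintro ⟨a, b, c, e⟩ ⟨a', b', c', e'⟩ h
    simp only [Prod.mk.injEq] at h ⊢
    omega
  · rintro n ⟨a, b, c, e⟩ hz hzE
    have hpos := dt_pos_of_EE hz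
    rw [mem_EE_iff] at hz
    obtain ⟨h1, h2, h3, h4, h5, h6⟩ := hz
    simp only at h1 h2 h3 h4 h5 h6 hzE ⊢
    have hD : D A C (a, b, a + c, b + e) = D A C (a, b, c, e) + Nm A C a b := dt_right A C a b c e
    have hr : a * (b + e) = b * (a + c) + 1 := by
      have : a * (b + e) = a * b + a * e := by ring
      rw [this, h1]; ring
    refine ⟨?_, ?_, ?_⟩
    · rw [mem_EE_iff]
      simp only
      exact ⟨hr, trivial, h3, by omega, h5, by omega⟩
    · rw [hD]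
      exact hzE.2
    · rw [hD, h2]
      have hbal := hzE.1
      rw [h2] at hbal
      simp only at hbal
      apply ratio_bound hpos
      have h2' : dt A C a b c e = n := h2
      rw [← h2'] at hbal hpos ⊢
      exact nm_le_of_bal' h1 hpos hbal

lemma summable_E2 (A C : ℕ) (hC : 1 ≤ C) (B : Set ℕ) (hs : Summable (wtK A C B)) :
    Summable (wf A C (E2 A C B)) := by
  apply summable_wf_of_map A C hC _ B (2 + A + C) (by positivity)
    (fun z => (z.1 + z.2.2.1, z.2.1 + z.2.2.2, z.2.2.1, z.2.2.2)) _ _ hs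
  · rintro ⟨a, b, c, e⟩ ⟨a', b', c', e'⟩ h
    simp only [Prod.mk.injEq] at h ⊢
    omega
  · rintro n ⟨a, b, c, e⟩ hz hzE
    have hpos := dt_pos_of_EE hz
    rw [mem_EE_iff] at hz
    obtain ⟨h1, h2, h3, h4, h5, h6⟩ := hz
    simp only at h1 h2 h3 h4 h5 h6 hzE ⊢
    have hD : D A C (a + c, b + e, c, e) = D A C (a, b, c, e) + Nm A C c e := dt_left A C a b c e
    have hl : (a + c) * e = (b + e) * c + 1 := by
      have : (a + c) * e = a * e + c * e := by ring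
      rw [this, h1]; ring
    refine ⟨?_, ?_, ?_⟩
    · rw [mem_EE_iff]
      simp only
      exact ⟨hl, trivial, by omega, h4, by omega, h6⟩
    · rw [hD]
      exact hzE.2
    · rw [hD, h2]
      have hbal := hzE.1
      rw [h2] at hbal
      simp only at hbal
      apply ratio_bound hpos
      have h2' : dt A C a b c e = n := h2
      rw [← h2'] at hbal hpos ⊢
      exact nm_le_of_bal h1 hpos hbal

end H359R4
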