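import Pool.Agent.H359R3.AffCount

/-! Few vectors lie in the cones of a sparse family of edges. -/

namespace H359R4

open Finset H359R2 H359R3

/-- `w` lies in the closed cone of an edge of the family `E` with scalar product at least `Y` and
with vectors of norm at most that of `w`. -/
def AffE (A C : ℕ) (E : Set (ℕ × ℕ × ℕ × ℕ)) (Y w1 w2 : ℕ) : Prop :=
  ∃ a b c e p q : ℕ, a * e = b * c + 1 ∧ Y ≤ dt A C a b c e ∧ (a, b, c, e) ∈ E ∧
    w1 = p * a + q * c ∧ w2 = p * b + q * e ∧ Nm A C a b ≤ Nm A C w1 w2 ∧ Nm A C c e ≤ Nm A C w1 w2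

open Classical in
/-- the edges of the family with scalar product `n` -/
noncomputable def EF (A C : ℕ) (E : Set (ℕ × ℕ × ℕ × ℕ)) (n : ℕ) : Finset (ℕ × ℕ × ℕ × ℕ) :=
  (EE A C n).filter (fun z => z ∈ E)

/-- weight of the family at `n` -/
noncomputable def wf (A C : ℕ) (E : Set (ℕ × ℕ × ℕ × ℕ)) (n : ℕ) : ℝ :=
  ((EF A C E n).card : ℝ) / n

lemma wf_nonneg (A C : ℕ) (E : Set (ℕ × ℕ × ℕ × ℕ)) (n : ℕ) : 0 ≤ wf A C E n := by
  unfold wf; positivity

lemma tail_lt' {w : ℕ → ℝ} (hs : Summable w) {ε : ℝ} (hε : 0 < ε) :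
    ∃ Y0 : ℕ, ∀ t : Finset ℕ, (∀ n ∈ t, Y0 ≤ n) → ∑ n ∈ t, w n < ε := by
  obtain ⟨s, hs⟩ := summable_iff_vanishing_norm.mp hs ε hε
  refine ⟨s.sup id + 1, ?_⟩
  intro t ht
  have hdisj : Disjoint t s := by
    rw [Finset.disjoint_left]
    intro n hn hns
    have h1 := ht n hn
    have h2 : id n ≤ s.sup id := Finset.le_sup hns
    simp only [id] at h2
    omega
  have := hs t hdisj
  exact lt_of_le_of_lt (le_abs_self _) this

open Classical in
lemma family_count (A C : ℕ) (E : Set (ℕ × ℕ × ℕ × ℕ)) (hsum : Summable (wf A C E)) (ε : ℝ)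
    (hε : 0 < ε) :
    ∃ Y0 : ℕ, 1 ≤ Y0 ∧ ∀ Y, Y0 ≤ Y → ∀ G1 G2 : ℕ, 1 ≤ G1 → (3 + A + C) * G2 ≤ G1 →
      ∃ R0 : ℕ, ∀ R, R0 ≤ R →
        (((TT R).filter (fun x => AffE A C E Y (r1 C G1 G2 x) (r2 A G1 G2 x))).card : ℝ)
          ≤ ε * R ^ 2 := by
  have hd1 : (0 : ℝ) < (1 + A + C) ^ 2 := by positivity
  obtain ⟨Y0, hY0⟩ := tail_lt' hsum (ε := ε / (3 * (1 + A + C) ^ 2)) (by positivity)
  refine ⟨max Y0 1, le_max_right _ _, ?_⟩
  intro Y hY G1 G2 hG1 hG
  have hYY0 : Y0 ≤ Y := (le_max_left _ _).trans hY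
  have hY1 : 1 ≤ Y := (le_max_right _ _).trans hY
  have hG1R : (0 : ℝ) < G1 := by exact_mod_cast hG1
  obtain ⟨Y1, hY1'⟩ := tail_lt' hsum (ε := ε / (3 * ((2 + A + C) ^ 2 * (1 + A + C) * G1 ^ 2)))
    (by positivity)
  set Cs : ℝ := ∑ n ∈ Finset.range (max Y Y1), ((EF A C E n).card : ℝ) with hC
  have hC0 : 0 ≤ Cs := by positivity
  refine ⟨⌈3 * Cs / ε⌉₊ + 1, ?_⟩
  intro R hR
  have hR1 : 1 ≤ R := by omega
  have hRC : 3 * Cs / ε ≤ R := by
    calc 3 * Cs / ε ≤ (⌈3 * Cs / ε⌉₊ : ℝ) := Nat.le_ceil _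
      _ ≤ R := by exact_mod_cast (by omega : ⌈3 * Cs / ε⌉₊ ≤ R)
  have hRC2 : R * Cs ≤ ε / 3 * R ^ 2 := by
    rw [div_le_iff₀ hε] at hRC
    have hR0 : (0 : ℝ) ≤ R := by positivity
    nlinarith
  set M := ((1 + A + C) * G1 ^ 2 * ((1 + A + C) * R ^ 2)) ^ 2 with hM
  set I := Finset.Icc Y M with hI
  have hsub : (TT R).filter (fun x => AffE A C E Y (r1 C G1 G2 x) (r2 A G1 G2 x)) ⊆
      I.biUnion (fun n => (EF A C E n).biUnion (fun z => SS A C G1 G2 R z)) := by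
    intro x hx
    rw [Finset.mem_filter] at hx
    obtain ⟨hxT, a, b, c, e, p, q, h, hYn, hmem, h1, h2, hN1, hN2⟩ := hx
    rw [Finset.mem_biUnion]
    refine ⟨dt A C a b c e, ?_, ?_⟩
    · rw [hI, Finset.mem_Icc]
      refine ⟨hYn, ?_⟩
      have hprod := nm_mul_nm A C a b c e h
      have hle : Nm A C (r1 C G1 G2 x) (r2 A G1 G2 x) ≤ (1 + A + C) * G1 ^ 2 * ((1 + A + C) * R ^ 2) := by
        rw [nm_rot hG hxT]
        rw [mem_TT] at hxT
        exact Nat.mul_le_mul (nm_le le_rfl (by nlinarith)) (nm_le (by omega) (by omega))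
      calc dt A C a b c e ≤ PP A C (dt A C a b c e) := by unfold PP; nlinarith
        _ = Nm A C a b * Nm A C c e := hprod.symm
        _ ≤ ((1 + A + C) * G1 ^ 2 * ((1 + A + C) * R ^ 2)) * ((1 + A + C) * G1 ^ 2 * ((1 + A + C) * R ^ 2)) :=
            Nat.mul_le_mul (hN1.trans hle) (hN2.trans hle)
        _ = M := by rw [hM]; ring
    · have hsl := slope_edge (A := A) (C := C) h (by omega) h1 h2 (r2_lt_r1 hG hG1 hxT)
      rw [Finset.mem_biUnion]
      refine ⟨(a, b, c, e), ?_, ?_⟩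
      · unfold EF
        rw [Finset.mem_filter]
        exact ⟨mem_EE h rfl hsl.1 hsl.2.1 hsl.2.2.1 hsl.2.2.2, hmem⟩
      unfold SS
      rw [Finset.mem_filter]
      exact ⟨hxT, ⟨p, q, h1, h2⟩, hN1, hN2⟩
  -- bound for the inner union
  let bd : ℕ → ℝ := fun n => if n < max Y Y1 then
      ((EF A C E n).card : ℝ) * ((1 + A + C) ^ 2 * R ^ 2 / n + R) else
      ((EF A C E n).card : ℝ) * ((2 + A + C) ^ 2 * (1 + A + C) * G1 ^ 2 * R ^ 2 / n)
  have hinner : ∀ n ∈ I, (((EF A C E n).biUnion (fun z => SS A C G1 G2 R z)).card : ℝ) ≤ bd n := by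
    intro n hn
    rw [hI, Finset.mem_Icc] at hn
    have hn1 : 1 ≤ n := by omega
    have h1 : (((EF A C E n).biUnion (fun z => SS A C G1 G2 R z)).card : ℝ) ≤
        ∑ z ∈ EF A C E n, ((SS A C G1 G2 R z).card : ℝ) := by
      exact_mod_cast Finset.card_biUnion_le
    refine h1.trans ?_
    have hEE : ∀ z ∈ EF A C E n, z ∈ EE A C n := by
      intro z hz
      unfold EF at hz
      exact (Finset.mem_filter.mp hz).1
    by_cases hlt : n < max Y Y1
    · have : bd n = ((EF A C E n).card : ℝ) * ((1 + A + C) ^ 2 * R ^ 2 / n + R) := if_pos hlt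
      rw [this]
      calc ∑ z ∈ EF A C E n, ((SS A C G1 G2 R z).card : ℝ)
          ≤ ∑ z ∈ EF A C E n, ((1 + A + C) ^ 2 * (R : ℝ) ^ 2 / n + R) :=
            Finset.sum_le_sum (fun z hz => SS_card_sector hn1 hG1 hG (hEE z hz))
        _ = ((EF A C E n).card : ℝ) * ((1 + A + C) ^ 2 * (R : ℝ) ^ 2 / n + R) := by
            rw [Finset.sum_const, nsmul_eq_mul]
    · have : bd n = ((EF A C E n).card : ℝ) * ((2 + A + C) ^ 2 * (1 + A + C) * G1 ^ 2 * R ^ 2 / n) :=
        if_neg hlt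
      rw [this]
      calc ∑ z ∈ EF A C E n, ((SS A C G1 G2 R z).card : ℝ)
          ≤ ∑ z ∈ EF A C E n, ((2 + A + C) ^ 2 * (1 + A + C) * (G1 : ℝ) ^ 2 * R ^ 2 / n) :=
            Finset.sum_le_sum (fun z hz => SS_card_crude hn1 hG1 hG hR1 (hEE z hz))
        _ = ((EF A C E n).card : ℝ) * ((2 + A + C) ^ 2 * (1 + A + C) * (G1 : ℝ) ^ 2 * R ^ 2 / n) := by
            rw [Finset.sum_const, nsmul_eq_mul]
  have hcard : (((TT R).filter (fun x => AffE A C E Y (r1 C G1 G2 x) (r2 A G1 G2 x))).card : ℝ) ≤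
      ∑ n ∈ I, bd n := by
    calc (((TT R).filter (fun x => AffE A C E Y (r1 C G1 G2 x) (r2 A G1 G2 x))).card : ℝ)
        ≤ ((I.biUnion (fun n => (EF A C E n).biUnion (fun z => SS A C G1 G2 R z))).card : ℝ) := by
          exact_mod_cast Finset.card_le_card hsub
      _ ≤ ∑ n ∈ I, (((EF A C E n).biUnion (fun z => SS A C G1 G2 R z)).card : ℝ) := by
          exact_mod_cast Finset.card_biUnion_le
      _ ≤ ∑ n ∈ I, bd n := Finset.sum_le_sum hinner
  refine hcard.trans ?_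
  rw [← Finset.sum_filter_add_sum_filter_not I (fun n => n < max Y Y1)]
  have hIY : ∀ n ∈ I, Y ≤ n := by
    intro n hn
    rw [hI, Finset.mem_Icc] at hn
    exact hn.1
  have hA : ∑ n ∈ I.filter (fun n => n < max Y Y1), bd n ≤ ε / 3 * R ^ 2 + ε / 3 * R ^ 2 := by
    have h1 : ∑ n ∈ I.filter (fun n => n < max Y Y1), bd n =
        (1 + A + C) ^ 2 * R ^ 2 * ∑ n ∈ I.filter (fun n => n < max Y Y1), wf A C E n +
        R * ∑ n ∈ I.filter (fun n => n < max Y Y1), ((EF A C E n).card : ℝ) := by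
      rw [Finset.mul_sum, Finset.mul_sum, ← Finset.sum_add_distrib]
      apply Finset.sum_congr rfl
      intro n hn
      rw [Finset.mem_filter] at hn
      have : bd n = ((EF A C E n).card : ℝ) * ((1 + A + C) ^ 2 * R ^ 2 / n + R) := if_pos hn.2
      rw [this]
      unfold wf
      ring
    rw [h1]
    have h2 : ∑ n ∈ I.filter (fun n => n < max Y Y1), wf A C E n < ε / (3 * (1 + A + C) ^ 2) := by
      apply hY0
      intro n hn
      rw [Finset.mem_filter] at hn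
      exact hYY0.trans (hIY n hn.1)
    have h3 : ∑ n ∈ I.filter (fun n => n < max Y Y1), ((EF A C E n).card : ℝ) ≤ Cs := by
      rw [hC]
      apply Finset.sum_le_sum_of_subset_of_nonneg
      · intro n hn
        rw [Finset.mem_filter] at hn
        rw [Finset.mem_range]
        exact hn.2
      · intro n _ _
        positivity
    have hR0 : (0 : ℝ) ≤ R := by positivity
    have h4 : (1 + A + C) ^ 2 * R ^ 2 * ∑ n ∈ I.filter (fun n => n < max Y Y1), wf A C E n ≤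
        ε / 3 * R ^ 2 := by
      calc (1 + A + C) ^ 2 * R ^ 2 * ∑ n ∈ I.filter (fun n => n < max Y Y1), wf A C E n
          ≤ (1 + A + C) ^ 2 * R ^ 2 * (ε / (3 * (1 + A + C) ^ 2)) :=
            mul_le_mul_of_nonneg_left h2.le (by positivity)
        _ = ε / 3 * R ^ 2 := by field_simp
    have h5 : R * ∑ n ∈ I.filter (fun n => n < max Y Y1), ((EF A C E n).card : ℝ) ≤
        ε / 3 * R ^ 2 := (mul_le_mul_of_nonneg_left h3 hR0).trans hRC2
    linarith
  have hB : ∑ n ∈ I.filter (fun n => ¬ n < max Y Y1), bd n ≤ ε / 3 * R ^ 2 := by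
    have h1 : ∑ n ∈ I.filter (fun n => ¬ n < max Y Y1), bd n =
        (2 + A + C) ^ 2 * (1 + A + C) * G1 ^ 2 * R ^ 2 *
          ∑ n ∈ I.filter (fun n => ¬ n < max Y Y1), wf A C E n := by
      rw [Finset.mul_sum]
      apply Finset.sum_congr rfl
      intro n hn
      rw [Finset.mem_filter] at hn
      have : bd n = ((EF A C E n).card : ℝ) * ((2 + A + C) ^ 2 * (1 + A + C) * G1 ^ 2 * R ^ 2 / n) :=
        if_neg hn.2
      rw [this]
      unfold wf
      ring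
    rw [h1]
    have h2 : ∑ n ∈ I.filter (fun n => ¬ n < max Y Y1), wf A C E n <
        ε / (3 * ((2 + A + C) ^ 2 * (1 + A + C) * G1 ^ 2)) := by
      apply hY1'
      intro n hn
      rw [Finset.mem_filter] at hn
      have := hn.2
      push Not at this
      exact (le_max_right _ _).trans this
    calc (2 + A + C) ^ 2 * (1 + A + C) * G1 ^ 2 * R ^ 2 *
          ∑ n ∈ I.filter (fun n => ¬ n < max Y Y1), wf A C E n
        ≤ (2 + A + C) ^ 2 * (1 + A + C) * G1 ^ 2 * R ^ 2 * (ε / (3 * ((2 + A + C) ^ 2 * (1 + A + C) * G1 ^ 2))) :=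
          mul_le_mul_of_nonneg_left h2.le (by positivity)
      _ = ε / 3 * R ^ 2 := by field_simp
  linarith

end H359R4
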