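import Pool.Agent.H359R4.Chain
import Pool.Agent.H359R3.Geo

/-! Primitive vectors with three unaffected rotations. -/

namespace H359R4

open Finset H359R2 H359R3

lemma sum_inv_sq (N : ℕ) : ∑ l ∈ Finset.Icc 2 N, (1 : ℝ) / (l : ℝ) ^ 2 ≤ 3 / 4 := by
  have key : ∀ N : ℕ, 2 ≤ N → ∑ l ∈ Finset.Icc 2 N, (1 : ℝ) / (l : ℝ) ^ 2 ≤ 3 / 4 - 1 / N := by
    intro N hN
    induction N, hN using Nat.le_induction with
    | base => norm_num
    | succ n hn ih =>
      have hIcc : Finset.Icc 2 (n + 1) = insert (n + 1) (Finset.Icc 2 n) := by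
        ext x; simp only [Finset.mem_Icc, Finset.mem_insert]; omega
      rw [hIcc, Finset.sum_insert (by simp)]
      have hnR : (0 : ℝ) < n := by exact_mod_cast (by omega : 0 < n)
      have h1 : (1 : ℝ) / ((n + 1 : ℕ) : ℝ) ^ 2 ≤ 1 / n - 1 / ((n + 1 : ℕ) : ℝ) := by
        push_cast
        rw [div_sub_div _ _ hnR.ne' (by positivity), div_le_div_iff₀ (by positivity) (by positivity)]
        nlinarith
      linarith
  rcases Nat.lt_or_ge N 2 with h | h
  · rw [Finset.Icc_eq_empty (by omega)]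
    norm_num
  · have := key N h
    have h2 : (0 : ℝ) ≤ 1 / N := by positivity
    linarith

/-- the vectors in the residue class -/
def ptv (p : ℕ) (z : ℕ × ℕ) : ℕ × ℕ := (p * z.1 + 1, p * z.2)

open Classical in
lemma class_count (p : ℕ) (hp : 2 ≤ p) : ∃ N0 : ℕ, ∀ N, N0 ≤ N →
    (N : ℝ) ^ 2 / 4 ≤ (((TT (4 * p * N)).filter (fun x => Nat.Coprime x.1 x.2 ∧ x.1 % p = 1 % p ∧
      p ∣ x.2)).card : ℝ) := by
  have hev : ∀ᶠ x : ℝ in Filter.atTop, ‖Real.log x‖ ≤ (1 / 8) * ‖id x‖ :=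
    Real.isLittleO_log_id_atTop.bound (by norm_num)
  obtain ⟨x1, hx1⟩ := Filter.eventually_atTop.mp hev
  refine ⟨⌈x1⌉₊ + 8, ?_⟩
  intro N hN
  have hxN : x1 ≤ (N : ℝ) := by
    calc x1 ≤ (⌈x1⌉₊ : ℝ) := Nat.le_ceil _
      _ ≤ N := by exact_mod_cast (by omega : ⌈x1⌉₊ ≤ N)
  have hlog := hx1 N hxN
  have hN8 : (8 : ℝ) ≤ N := by exact_mod_cast (by omega : 8 ≤ N)
  have hNpos : (0 : ℝ) < N := by linarith
  have hlog0 : 0 ≤ Real.log N := Real.log_nonneg (by linarith)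
  rw [id, Real.norm_of_nonneg hlog0, Real.norm_of_nonneg hNpos.le] at hlog
  set U := Finset.Ico (2 * N) (4 * N) ×ˢ Finset.Icc 1 N with hU
  set Gd := U.filter (fun z => Nat.Coprime (p * z.1 + 1) (p * z.2)) with hGd
  have hinj : Set.InjOn (ptv p) (Gd : Set (ℕ × ℕ)) := by
    intro x _ y _ h
    unfold ptv at h
    simp only [Prod.mk.injEq, Nat.add_right_cancel_iff] at h
    have h1 := Nat.eq_of_mul_eq_mul_left (by omega : 0 < p) h.1
    have h2 := Nat.eq_of_mul_eq_mul_left (by omega : 0 < p) h.2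
    exact Prod.ext h1 h2
  have hmaps : Gd.image (ptv p) ⊆ (TT (4 * p * N)).filter (fun x => Nat.Coprime x.1 x.2 ∧
      x.1 % p = 1 % p ∧ p ∣ x.2) := by
    intro x hx
    rw [Finset.mem_image] at hx
    obtain ⟨z, hz, rfl⟩ := hx
    rw [hGd, Finset.mem_filter, hU, Finset.mem_product, Finset.mem_Ico, Finset.mem_Icc] at hz
    obtain ⟨⟨⟨h1, h2⟩, h3, h4⟩, h5⟩ := hz
    rw [Finset.mem_filter, mem_TT]
    unfold ptv
    simp only
    refine ⟨⟨by omega, ?_, ?_, ?_⟩, h5, ?_, Dvd.intro _ rfl⟩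
    · have : p * (z.1 + 1) ≤ p * (4 * N) := Nat.mul_le_mul_left _ h2
      nlinarith
    · have : 1 * 1 ≤ p * z.2 := Nat.mul_le_mul (by omega) h3
      omega
    · have e1 : p * z.2 ≤ p * N := Nat.mul_le_mul_left _ h4
      have e2 : p * (2 * N) ≤ p * z.1 := Nat.mul_le_mul_left _ h1
      nlinarith
    · rw [Nat.mul_add_mod]
  have hcard1 : Gd.card ≤ ((TT (4 * p * N)).filter (fun x => Nat.Coprime x.1 x.2 ∧
      x.1 % p = 1 % p ∧ p ∣ x.2)).card := by
    rw [← Finset.card_image_of_injOn hinj]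
    exact Finset.card_le_card hmaps
  -- the bad pairs
  set Bd := U.filter (fun z => ¬ Nat.Coprime (p * z.1 + 1) (p * z.2)) with hBd
  let Sl : ℕ → Finset (ℕ × ℕ) := fun l =>
    ((Finset.Ico (2 * N) (4 * N)).filter (fun m => l ∣ p * m + 1)) ×ˢ
      ((Finset.Icc 1 N).filter (fun y => l ∣ y))
  have hsub : Bd ⊆ (Finset.Icc 2 N).biUnion Sl := by
    intro z hz
    rw [hBd, Finset.mem_filter, hU, Finset.mem_product, Finset.mem_Ico, Finset.mem_Icc] at hz
    obtain ⟨⟨⟨h1, h2⟩, h3, h4⟩, h5⟩ := hz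
    obtain ⟨l, hl, hl1, hl2⟩ := Nat.Prime.not_coprime_iff_dvd.mp h5
    have hlp : ¬ l ∣ p := by
      intro h
      have : l ∣ 1 := (Nat.dvd_add_right (dvd_mul_of_dvd_left h z.1)).mp hl1
      exact hl.one_lt.ne' (Nat.dvd_one.mp this)
    have hlz : l ∣ z.2 := (hl.dvd_mul.mp hl2).resolve_left hlp
    rw [Finset.mem_biUnion]
    refine ⟨l, ?_, ?_⟩
    · rw [Finset.mem_Icc]
      exact ⟨hl.two_le, (Nat.le_of_dvd (by omega) hlz).trans h4⟩
    · simp only [Sl, Finset.mem_product, Finset.mem_filter, Finset.mem_Ico, Finset.mem_Icc]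
      exact ⟨⟨⟨h1, h2⟩, hl1⟩, ⟨h3, h4⟩, hlz⟩
  have hSl : ∀ l ∈ Finset.Icc 2 N, ((Sl l).card : ℝ) ≤ 2 * (N : ℝ) ^ 2 * (1 / (l : ℝ) ^ 2) +
      N * (1 / l) := by
    intro l hl
    rw [Finset.mem_Icc] at hl
    have hlpos : (0 : ℝ) < l := by exact_mod_cast (by omega : 0 < l)
    have h1 : ((Finset.Ico (2 * N) (4 * N)).filter (fun m => l ∣ p * m + 1)).card ≤
        2 * N / l + 1 := by
      have h0 : ((Finset.Ico (2 * N) (4 * N)).filter (fun m => l ∣ p * m + 1)).card =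
          (((Finset.Ico (2 * N) (4 * N)).filter (fun m => l ∣ p * m + 1)).image (fun m => m + 1)).card := by
        rw [Finset.card_image_of_injective]
        intro a b h
        simpa using h
      rw [h0]
      apply card_congr_le (2 * N) (2 * N) l (by omega)
      · intro n hn
        rw [Finset.mem_image] at hn
        obtain ⟨m, hm, rfl⟩ := hn
        rw [Finset.mem_filter, Finset.mem_Ico] at hm
        omega
      · intro n hn n' hn'
        rw [Finset.mem_image] at hn hn'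
        obtain ⟨m, hm, rfl⟩ := hn
        obtain ⟨m', hm', rfl⟩ := hn'
        rw [Finset.mem_filter] at hm hm'
        have hcop : IsCoprime (l : ℤ) p := by
          rw [Nat.isCoprime_iff_coprime]
          rw [Nat.coprime_iff_gcd_eq_one]
          have hg1 : Nat.gcd l p ∣ p * m + 1 := dvd_trans (Nat.gcd_dvd_left l p) hm.2
          have hg2 : Nat.gcd l p ∣ p * m := dvd_mul_of_dvd_left (Nat.gcd_dvd_right l p) m
          exact Nat.dvd_one.mp ((Nat.dvd_add_right hg2).mp hg1)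
        have e1 : (l : ℤ) ∣ p * m + 1 := by exact_mod_cast hm.2
        have e2 : (l : ℤ) ∣ p * m' + 1 := by exact_mod_cast hm'.2
        have e3 := dvd_sub e1 e2
        have e4 : ((p : ℤ) * m + 1) - (p * m' + 1) = p * ((m : ℤ) - m') := by ring
        rw [e4] at e3
        have e5 := hcop.dvd_of_dvd_mul_left e3
        have e6 : (((m + 1 : ℕ) : ℤ) - ((m' + 1 : ℕ) : ℤ)) = (m : ℤ) - m' := by push_cast; ring
        rw [e6]; exact e5
    have h2 : ((Finset.Icc 1 N).filter (fun y => l ∣ y)).card ≤ N / l := by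
      rw [← Nat.Ioc_filter_dvd_card_eq_div]
      apply Finset.card_le_card
      intro y hy
      rw [Finset.mem_filter, Finset.mem_Icc] at hy
      rw [Finset.mem_filter, Finset.mem_Ioc]
      exact ⟨⟨by omega, hy.1.2⟩, hy.2⟩
    have h3 : (Sl l).card ≤ (2 * N / l + 1) * (N / l) := by
      simp only [Sl]
      rw [Finset.card_product]
      exact Nat.mul_le_mul h1 h2
    have h4 : ((2 * N / l : ℕ) : ℝ) ≤ 2 * N / l := by
      have := @Nat.cast_div_le ℝ _ _ _ (2 * N) l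
      push_cast at this
      exact this
    have h5 : ((N / l : ℕ) : ℝ) ≤ N / l := @Nat.cast_div_le ℝ _ _ _ N l
    calc ((Sl l).card : ℝ) ≤ (((2 * N / l + 1) * (N / l) : ℕ) : ℝ) := by exact_mod_cast h3
      _ = (((2 * N / l : ℕ) : ℝ) + 1) * ((N / l : ℕ) : ℝ) := by push_cast; ring
      _ ≤ (2 * N / l + 1) * (N / l) := by
        apply mul_le_mul _ h5 (by positivity) (by positivity)
        linarith
      _ = _ := by field_simp
  have hharm : ∑ l ∈ Finset.Icc 2 N, (1 : ℝ) / l ≤ 1 + Real.log N := by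
    have h1 : ∑ l ∈ Finset.Icc 2 N, (1 : ℝ) / l ≤ ∑ l ∈ Finset.Icc 1 N, (1 : ℝ) / l := by
      apply Finset.sum_le_sum_of_subset_of_nonneg
      · intro l hl
        rw [Finset.mem_Icc] at hl ⊢
        omega
      · intro l _ _; positivity
    have h2 := harmonic_le_one_add_log N
    rw [harmonic_eq_sum_Icc] at h2
    push_cast at h2
    refine h1.trans ?_
    simpa [one_div] using h2
  have hBdc : (Bd.card : ℝ) ≤ 3 / 2 * (N : ℝ) ^ 2 + N * (1 + Real.log N) := by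
    calc (Bd.card : ℝ) ≤ (((Finset.Icc 2 N).biUnion Sl).card : ℝ) := by
          exact_mod_cast Finset.card_le_card hsub
      _ ≤ ∑ l ∈ Finset.Icc 2 N, ((Sl l).card : ℝ) := by exact_mod_cast Finset.card_biUnion_le
      _ ≤ ∑ l ∈ Finset.Icc 2 N, (2 * (N : ℝ) ^ 2 * (1 / (l : ℝ) ^ 2) + N * (1 / l)) :=
          Finset.sum_le_sum hSl
      _ = 2 * (N : ℝ) ^ 2 * ∑ l ∈ Finset.Icc 2 N, (1 / (l : ℝ) ^ 2) +
          N * ∑ l ∈ Finset.Icc 2 N, (1 / (l : ℝ)) := by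
          rw [Finset.sum_add_distrib, Finset.mul_sum, Finset.mul_sum]
      _ ≤ 2 * (N : ℝ) ^ 2 * (3 / 4) + N * (1 + Real.log N) := by
          apply add_le_add
          · exact mul_le_mul_of_nonneg_left (sum_inv_sq N) (by positivity)
          · exact mul_le_mul_of_nonneg_left hharm (by positivity)
      _ = _ := by ring
  have hUc : (U.card : ℝ) = 2 * (N : ℝ) ^ 2 := by
    rw [hU, Finset.card_product, Nat.card_Ico, Nat.card_Icc]
    have : 4 * N - 2 * N = 2 * N := by omega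
    rw [this, Nat.add_sub_cancel]
    push_cast; ring
  have hsplit : (Gd.card : ℝ) + Bd.card = U.card := by
    rw [hGd, hBd]
    exact_mod_cast Finset.card_filter_add_card_filter_not (s := U)
      (fun z => Nat.Coprime (p * z.1 + 1) (p * z.2))
  have hG : (N : ℝ) ^ 2 / 4 ≤ (Gd.card : ℝ) := by
    have h1 : (N : ℝ) * (1 + Real.log N) ≤ N ^ 2 / 4 := by nlinarith
    nlinarith
  exact hG.trans (by exact_mod_cast hcard1)

/-- the middle vector lies in the open cone as well -/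
lemma middle_mem {a b c e p q p' q' x1 x2 y1 y2 z1 z2 : ℕ} (h : a * e = b * c + 1)
    (hp : 1 ≤ p) (hq : 1 ≤ q) (hp' : 1 ≤ p') (hq' : 1 ≤ q')
    (h1 : x1 = p * a + q * c) (h2 : x2 = p * b + q * e)
    (h3 : z1 = p' * a + q' * c) (h4 : z2 = p' * b + q' * e)
    (hxy : x2 * y1 < x1 * y2) (hyz : y2 * z1 < y1 * z2) (hxz : x2 * z1 < x1 * z2) :
    ∃ r s : ℕ, 1 ≤ r ∧ 1 ≤ s ∧ y1 = r * a + s * c ∧ y2 = r * b + s * e := by
  zify at h hxy hyz hxz hp hq hp' hq'
  have hx1 : (x1 : ℤ) = p * a + q * c := by exact_mod_cast h1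
  have hx2 : (x2 : ℤ) = p * b + q * e := by exact_mod_cast h2
  have hz1 : (z1 : ℤ) = p' * a + q' * c := by exact_mod_cast h3
  have hz2 : (z2 : ℤ) = p' * b + q' * e := by exact_mod_cast h4
  set r : ℤ := y1 * e - y2 * c with hr
  set s : ℤ := a * y2 - b * y1 with hs
  have hy1 : (y1 : ℤ) = r * a + s * c := by rw [hr, hs]; linear_combination (-(y1 : ℤ)) * h
  have hy2 : (y2 : ℤ) = r * b + s * e := by rw [hr, hs]; linear_combination (-(y2 : ℤ)) * h
  -- determinants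
  have hdxy : (p : ℤ) * s - q * r > 0 := by
    have : (x1 : ℤ) * y2 - x2 * y1 = p * s - q * r := by
      rw [hx1, hx2, hy1, hy2]; linear_combination ((p : ℤ) * s - q * r) * h
    linarith
  have hdyz : r * (q' : ℤ) - s * p' > 0 := by
    have : (y1 : ℤ) * z2 - y2 * z1 = r * q' - s * p' := by
      rw [hy1, hy2, hz1, hz2]; linear_combination (r * (q' : ℤ) - s * p') * h
    linarith
  have hdxz : (p : ℤ) * q' - q * p' > 0 := by
    have : (x1 : ℤ) * z2 - x2 * z1 = p * q' - q * p' := by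
      rw [hx1, hx2, hz1, hz2]; linear_combination ((p : ℤ) * q' - q * p') * h
    linarith
  have hs1 : 1 ≤ s := by
    have e1 : ((p : ℤ) * q' - q * p') * s = q * (r * q' - s * p') + q' * (p * s - q * r) := by ring
    have e2 : 0 < ((p : ℤ) * q' - q * p') * s := by
      rw [e1]
      have := mul_pos (by linarith : (0 : ℤ) < q) hdyz
      have := mul_pos (by linarith : (0 : ℤ) < q') hdxy
      linarith
    exact pos_of_mul_pos_right e2 (by linarith : (0 : ℤ) ≤ (p : ℤ) * q' - q * p')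
  have hr1 : 1 ≤ r := by
    have e1 : ((p : ℤ) * q' - q * p') * r = p * (r * q' - s * p') + p' * (p * s - q * r) := by ring
    have e2 : 0 < ((p : ℤ) * q' - q * p') * r := by
      rw [e1]
      have := mul_pos (by linarith : (0 : ℤ) < p) hdyz
      have := mul_pos (by linarith : (0 : ℤ) < p') hdxy
      linarith
    exact pos_of_mul_pos_right e2 (by linarith : (0 : ℤ) ≤ (p : ℤ) * q' - q * p')
  refine ⟨r.toNat, s.toNat, by omega, by omega, ?_, ?_⟩
  · zify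
    rw [Int.toNat_of_nonneg (by omega), Int.toNat_of_nonneg (by omega)]
    exact hy1
  · zify
    rw [Int.toNat_of_nonneg (by omega), Int.toNat_of_nonneg (by omega)]
    exact hy2

/-- good points for two rotations -/
def Good3 (A C : ℕ) (E : Set (ℕ × ℕ × ℕ × ℕ)) (Y G1 G2 H1 H2 : ℕ) (x : ℕ × ℕ) : Prop :=
  ¬ AffE A C E Y x.1 x.2 ∧ ¬ AffE A C E Y (r1 C G1 G2 x) (r2 A G1 G2 x) ∧
  ¬ AffE A C E Y (r1 C H1 H2 x) (r2 A H1 H2 x) ∧
  ∃ a b c e p q p' q' p'' q'' : ℕ, 2 * Y ≤ dt A C a b c e ∧ a * e = b * c + 1 ∧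
        1 ≤ p ∧ 1 ≤ q ∧ 1 ≤ p' ∧ 1 ≤ q' ∧ 1 ≤ p'' ∧ 1 ≤ q'' ∧
        x.1 = p * a + q * c ∧ x.2 = p * b + q * e ∧
        r1 C G1 G2 x = p' * a + q' * c ∧ r2 A G1 G2 x = p' * b + q' * e ∧
        r1 C H1 H2 x = p'' * a + q'' * c ∧ r2 A H1 H2 x = p'' * b + q'' * e

open Classical in
lemma good3_count (A C : ℕ) (hd : 1 ≤ C) (E : Set (ℕ × ℕ × ℕ × ℕ)) (hsum : Summable (wf A C E))
    (ε : ℝ) (hε : 0 < ε) : ∃ Y M0 : ℕ, 1 ≤ Y ∧ 3 + A + C ≤ M0 ∧ ∀ G1 G2 H1 H2 : ℕ, 1 ≤ G2 →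
      M0 * G2 ≤ G1 → 1 ≤ H2 → M0 * H2 ≤ H1 → G2 * H1 < G1 * H2 →
      ∃ R0 : ℕ, ∀ R, R0 ≤ R →
        (((TT R).filter (fun x => ¬ Good3 A C E Y G1 G2 H1 H2 x)).card : ℝ) ≤ ε * R ^ 2 := by
  obtain ⟨Y, hY1, hY⟩ := family_count A C E hsum (ε / 4) (by positivity)
  obtain ⟨M0, hM0, hsep⟩ := sep_count A C (2 * Y) hd (ε / 4) (by positivity)
  refine ⟨Y, M0, hY1, hM0, ?_⟩
  intro G1 G2 H1 H2 hG2 hG hH2 hH hGH
  have hG' : (3 + A + C) * G2 ≤ G1 := (Nat.mul_le_mul_right _ hM0).trans hG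
  have hG1 : 1 ≤ G1 := by nlinarith
  have hH' : (3 + A + C) * H2 ≤ H1 := (Nat.mul_le_mul_right _ hM0).trans hH
  have hH1 : 1 ≤ H1 := by nlinarith
  obtain ⟨Ra, hRa⟩ := hY Y le_rfl 1 0 le_rfl (by omega)
  obtain ⟨Rb, hRb⟩ := hY Y le_rfl G1 G2 hG1 hG'
  obtain ⟨Rc, hRc⟩ := hY Y le_rfl H1 H2 hH1 hH'
  obtain ⟨Rd, hRd⟩ := hsep H1 H2 hH2 hH
  refine ⟨max (max Ra Rb) (max Rc Rd), ?_⟩
  intro R hR
  have h1 := hRa R (by omega)
  have h2 := hRb R (by omega)
  have h3 := hRc R (by omega)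
  have h4 := hRd R (by omega)
  have hsub : (TT R).filter (fun x => ¬ Good3 A C E Y G1 G2 H1 H2 x) ⊆
      (((TT R).filter (fun x => AffE A C E Y (r1 C 1 0 x) (r2 A 1 0 x))) ∪
      ((TT R).filter (fun x => AffE A C E Y (r1 C G1 G2 x) (r2 A G1 G2 x)))) ∪
      (((TT R).filter (fun x => AffE A C E Y (r1 C H1 H2 x) (r2 A H1 H2 x))) ∪
      ((TT R).filter (fun x => Sep A C (2 * Y) H1 H2 x))) := by
    intro x hx
    rw [Finset.mem_filter] at hx
    obtain ⟨hxT, hg⟩ := hx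
    rw [Finset.mem_union, Finset.mem_union, Finset.mem_union, Finset.mem_filter, Finset.mem_filter,
      Finset.mem_filter, Finset.mem_filter]
    by_contra hcon
    push Not at hcon
    obtain ⟨⟨k1, k2⟩, k3, k4⟩ := hcon
    have e1 : r1 C 1 0 x = x.1 := by unfold r1; simp
    have e2 : r2 A 1 0 x = x.2 := by unfold r2; simp
    have n1 := k1 hxT
    rw [e1, e2] at n1
    have n2 := k2 hxT
    have n3 := k3 hxT
    have n4 := k4 hxT
    apply hg
    refine ⟨n1, n2, n3, ?_⟩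
    have hr := r1_add hH' hxT
    have hrG := r1_add hG' hxT
    have hr2p := r2_pos (A := A) (G2 := H2) hH1 hxT
    have hlt := r2_lt_r1 hH' hH1 hxT
    have hxT' := hxT
    rw [mem_TT] at hxT'
    have hNx : 0 < Nm A C x.1 x.2 := nm_pos hd (by omega)
    have hcr : x.2 * r1 C H1 H2 x < x.1 * r2 A H1 H2 x := by
      have h8 : x.1 * r2 A H1 H2 x = x.2 * r1 C H1 H2 x + H2 * Nm A C x.1 x.2 := by
        unfold r2 Nm
        zify at hr ⊢
        linear_combination (-(x.2 : ℤ)) * hr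
      have h9 : 0 < H2 * Nm A C x.1 x.2 := Nat.mul_pos hH2 hNx
      omega
    have hcrG : x.2 * r1 C G1 G2 x < x.1 * r2 A G1 G2 x := by
      have h8 : x.1 * r2 A G1 G2 x = x.2 * r1 C G1 G2 x + G2 * Nm A C x.1 x.2 := by
        unfold r2 Nm
        zify at hrG ⊢
        linear_combination (-(x.2 : ℤ)) * hrG
      have h9 : 0 < G2 * Nm A C x.1 x.2 := Nat.mul_pos hG2 hNx
      omega
    have hcrGH : r2 A G1 G2 x * r1 C H1 H2 x < r1 C G1 G2 x * r2 A H1 H2 x := by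
      have h8 : (r1 C G1 G2 x : ℤ) * r2 A H1 H2 x - r2 A G1 G2 x * r1 C H1 H2 x =
          ((G1 : ℤ) * H2 - G2 * H1) * Nm A C x.1 x.2 := by
        have e3 : (r1 C G1 G2 x : ℤ) = G1 * x.1 - C * (G2 * x.2) := by
          zify at hrG; linarith
        have e4 : (r1 C H1 H2 x : ℤ) = H1 * x.1 - C * (H2 * x.2) := by
          zify at hr; linarith
        rw [e3, e4]
        unfold r2 Nm
        push_cast
        ring
      have h9 : (0 : ℤ) < ((G1 : ℤ) * H2 - G2 * H1) * Nm A C x.1 x.2 := by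
        apply mul_pos
        · zify at hGH; linarith
        · exact_mod_cast hNx
      zify
      linarith
    obtain ⟨a, b, c, e, p, q, p', q', g1, g2, g3, g4, g5, g6, g7, g8, g9, g10⟩ :=
      common_edge A C (2 * Y) hd x.1 x.2 (r1 C H1 H2 x) (r2 A H1 H2 x) hcr (by
        intro c1 c2 hne hN hcon
        exact n4 ⟨c1, c2, hne, hN, hcon.1, hcon.2⟩) (2 * Y) 1 0 0 1 x.1 x.2
      (r1 C H1 H2 x) (r2 A H1 H2 x) (by omega) (by norm_num) hxT'.1 hxT'.2.2.1 (by omega) hr2p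
      (by ring) (by ring) (by ring) (by ring)
    obtain ⟨r, s, m1, m2, m3, m4⟩ := middle_mem g2 g3 g4 g5 g6 g7 g8 g9 g10 hcrG hcrGH hcr
    exact ⟨a, b, c, e, p, q, r, s, p', q', g1, g2, g3, g4, m1, m2, g5, g6, g7, g8, m3, m4, g9, g10⟩
  have hc : (((TT R).filter (fun x => ¬ Good3 A C E Y G1 G2 H1 H2 x)).card : ℝ) ≤
      ((((TT R).filter (fun x => AffE A C E Y (r1 C 1 0 x) (r2 A 1 0 x))).card : ℝ) +
      (((TT R).filter (fun x => AffE A C E Y (r1 C G1 G2 x) (r2 A G1 G2 x))).card : ℝ)) +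
      ((((TT R).filter (fun x => AffE A C E Y (r1 C H1 H2 x) (r2 A H1 H2 x))).card : ℝ) +
      (((TT R).filter (fun x => Sep A C (2 * Y) H1 H2 x)).card : ℝ)) := by
    have := (Finset.card_le_card hsub).trans ((Finset.card_union_le _ _).trans
      (Nat.add_le_add (Finset.card_union_le _ _) (Finset.card_union_le _ _)))
    exact_mod_cast this
  linarith

lemma exists_good3 (A C : ℕ) (hd : 1 ≤ C) (E : Set (ℕ × ℕ × ℕ × ℕ)) (hsum : Summable (wf A C E))
    (p : ℕ) (hp : 2 ≤ p) :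
    ∃ Y M0 : ℕ, 1 ≤ Y ∧ 3 + A + C ≤ M0 ∧ ∀ G1 G2 H1 H2 : ℕ, 1 ≤ G2 →
      M0 * G2 ≤ G1 → 1 ≤ H2 → M0 * H2 ≤ H1 → G2 * H1 < G1 * H2 →
      ∃ (R : ℕ) (x : ℕ × ℕ), x ∈ TT R ∧ Nat.Coprime x.1 x.2 ∧ x.1 % p = 1 % p ∧ p ∣ x.2 ∧
        Good3 A C E Y G1 G2 H1 H2 x := by
  classical
  obtain ⟨N0, hN0⟩ := class_count p hp
  have hpR : (0 : ℝ) < p := by exact_mod_cast (by omega : 0 < p)
  obtain ⟨Y, M0, hY, hM0, hG⟩ := good3_count A C hd E hsum (1 / (128 * p ^ 2)) (by positivity)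
  refine ⟨Y, M0, hY, hM0, ?_⟩
  intro G1 G2 H1 H2 hG2 hG12 hH2 hH12 hGH
  obtain ⟨R0, hR0⟩ := hG G1 G2 H1 H2 hG2 hG12 hH2 hH12 hGH
  set N := N0 + R0 + 1 with hN
  have hRR : R0 ≤ 4 * p * N := by
    have : 1 * N ≤ (4 * p) * N := Nat.mul_le_mul_right _ (by omega)
    omega
  have h1 := hR0 (4 * p * N) hRR
  have h2 := hN0 N (by omega)
  by_contra hcon
  push Not at hcon
  have hsub : (TT (4 * p * N)).filter (fun x => Nat.Coprime x.1 x.2 ∧ x.1 % p = 1 % p ∧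
      p ∣ x.2) ⊆ (TT (4 * p * N)).filter (fun x => ¬ Good3 A C E Y G1 G2 H1 H2 x) := by
    intro x hx
    rw [Finset.mem_filter] at hx ⊢
    exact ⟨hx.1, hcon (4 * p * N) x hx.1 hx.2.1 hx.2.2.1 hx.2.2.2⟩
  have h3 : (((TT (4 * p * N)).filter (fun x => Nat.Coprime x.1 x.2 ∧ x.1 % p = 1 % p ∧
      p ∣ x.2)).card : ℝ) ≤ (((TT (4 * p * N)).filter
        (fun x => ¬ Good3 A C E Y G1 G2 H1 H2 x)).card : ℝ) := by
    exact_mod_cast Finset.card_le_card hsub
  have h4 : (0 : ℝ) < N := by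
    have : 0 < N := by omega
    exact_mod_cast this
  have h5 : (1 / (128 * (p : ℝ) ^ 2)) * ((4 * p * N : ℕ) : ℝ) ^ 2 = (N : ℝ) ^ 2 / 8 := by
    push_cast
    field_simp
    ring
  rw [h5] at h1
  have : (0 : ℝ) < (N : ℝ) ^ 2 := by positivity
  linarith

end H359R4
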