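import Pool.Agent.H359R4.Main

/-! Both parities of `n`. -/

namespace H359R4

open Finset H359R2 H359R3

variable {H : Type*} [AddCommGroup H]

/-- the value at the vectors `≡ (1,0) (mod 2)` beyond an edge -/
def T0 (ε : ℕ) (v fx fy : H) (a b c : ℕ) : H :=
  if a % 2 = 1 ∧ b % 2 = 0 then fx else
  if ε = 0 then (if a % 2 = 0 then v - fx else (if c % 2 = 1 then fy else v - fy))
  else (if a % 2 = 0 then fx else v - fx)

lemma T0_of {ε : ℕ} {v fx fy : H} {a b c : ℕ} (h1 : a % 2 = 1) (h2 : b % 2 = 0) :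
    T0 ε v fx fy a b c = fx := by
  unfold T0
  rw [if_pos ⟨h1, h2⟩]

lemma par_mul {x y r s : ℕ} (hx : x % 2 = r) (hy : y % 2 = s) : (x * y) % 2 = (r * s) % 2 := by
  rw [Nat.mul_mod, hx, hy]

lemma par_add {x y r s : ℕ} (hx : x % 2 = r) (hy : y % 2 = s) : (x + y) % 2 = (r + s) % 2 := by
  rw [Nat.add_mod, hx, hy]

set_option maxHeartbeats 4000000 in
lemma T0_step {ε a b c e : ℕ} (hε : ε < 2) (h : a * e = b * c + 1) {v fx fy fz : H}
    (k1 : dt 0 1 a b c e % 2 = ε → fx + fy = v)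
    (k2 : dt 0 1 a b (a + c) (b + e) % 2 = ε → fx + fz = v)
    (k3 : dt 0 1 (a + c) (b + e) c e % 2 = ε → fz + fy = v) :
    T0 ε v fx fz a b (a + c) = T0 ε v fx fy a b c ∧
      T0 ε v fz fy (a + c) (b + e) c = T0 ε v fx fy a b c := by
  have hpar : (a * e) % 2 = (b * c + 1) % 2 := by rw [h]
  unfold dt at k1 k2 k3
  simp only [zero_mul, add_zero, one_mul] at k1 k2 k3
  have hε' : ε = 0 ∨ ε = 1 := by omega
  rcases Nat.mod_two_eq_zero_or_one a with ha | ha <;>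
  rcases Nat.mod_two_eq_zero_or_one b with hb | hb <;>
  rcases Nat.mod_two_eq_zero_or_one c with hc | hc <;>
  rcases Nat.mod_two_eq_zero_or_one e with he | he <;>
  (have p1 := par_mul ha he
   have p2 := par_mul hb hc
   norm_num at p1 p2
   first
   | (exfalso; omega)
   | skip) <;>
  (have p3 := par_mul ha hc
   have p4 := par_mul hb he
   have p5 := par_mul ha (par_add ha hc)
   have p6 := par_mul hb (par_add hb he)
   have p7 := par_mul (par_add ha hc) hc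
   have p8 := par_mul (par_add hb he) he
   norm_num at p3 p4 p5 p6 p7 p8) <;>
  rcases hε' with rfl | rfl <;>
  (unfold T0
   constructor <;> split_ifs <;>
   first
   | rfl
   | (exfalso; omega)
   | (have q1 := k1 (by omega); rw [← q1]; abel1)
   | (have q2 := k2 (by omega); rw [← q2]; abel1)
   | (have q3 := k3 (by omega); rw [← q3]; abel1)
   | (have q1 := k1 (by omega); have q2 := k2 (by omega); exact add_left_cancel (q2.trans q1.symm))
   | (have q1 := k1 (by omega); have q2 := k3 (by omega); exact add_right_cancel (q2.trans q1.symm)))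

lemma descent_par {ε : ℕ} (hε : ε < 2) {f : ℕ → H}
    (hf : ∀ m n : ℕ, m ≠ 0 → n ≠ 0 → f (m * n) = f m + f n) {v : H}
    {B : Set ℕ} (hB : ∀ n, n ∉ B → n % 2 = ε → f (PP 0 1 n) = v) {Y w1 w2 : ℕ} (hY : 1 ≤ Y)
    (hw : ¬ AffE 0 1 (EA 0 1 B) Y w1 w2) (hcop : Nat.Coprime w1 w2) (hw1 : w1 % 2 = 1)
    (hw2 : w2 % 2 = 0) :
    ∀ (k a b c e p q : ℕ), p + q ≤ k → a * e = b * c + 1 → 2 * Y ≤ dt 0 1 a b c e → 1 ≤ p → 1 ≤ q →
      w1 = p * a + q * c → w2 = p * b + q * e →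
      f (Nm 0 1 w1 w2) = T0 ε v (f (Nm 0 1 a b)) (f (Nm 0 1 c e)) a b c := by
  intro k
  induction k with
  | zero => intro a b c e p q hk; omega
  | succ k ih =>
    intro a b c e p q hk h hdt hp hq h1 h2
    obtain ⟨g1, g2, g3⟩ := unaff_good le_rfl hY hw a b c e p q h hdt hp hq h1 h2
    have hr : a * (b + e) = b * (a + c) + 1 := by
      have : a * (b + e) = a * b + a * e := by ring
      rw [this, h]; ring
    have hl : (a + c) * e = (b + e) * c + 1 := by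
      have : (a + c) * e = a * e + c * e := by ring
      rw [this, h]; ring
    have k1 := hB _ g1
    have k2 := hB _ g2
    have k3 := hB _ g3
    rw [← nm_mul_nm 0 1 _ _ _ _ h, hf _ _ (nm_pos le_rfl (edge_left_ne h)).ne'
      (nm_pos le_rfl (edge_right_ne h)).ne'] at k1
    rw [← nm_mul_nm 0 1 _ _ _ _ hr, hf _ _ (nm_pos le_rfl (edge_left_ne hr)).ne'
      (nm_pos le_rfl (edge_right_ne hr)).ne'] at k2
    rw [← nm_mul_nm 0 1 _ _ _ _ hl, hf _ _ (nm_pos le_rfl (edge_left_ne hl)).ne'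
      (nm_pos le_rfl (edge_right_ne hl)).ne'] at k3
    obtain ⟨s1, s2⟩ := T0_step hε h k1 k2 k3
    rcases lt_trichotomy p q with hpq | hpq | hpq
    · obtain ⟨r, hr', rfl⟩ : ∃ r, 1 ≤ r ∧ q = p + r := ⟨q - p, by omega, by omega⟩
      have := ih (a + c) (b + e) c e p r (by omega) hl (hdt.trans (dt_add_left 0 1 a b c e)) hp hr'
        (by rw [h1]; ring) (by rw [h2]; ring)
      rwa [s2] at this
    · subst hpq
      have hp1 : p = 1 := by
        have e1 : p ∣ w1 := ⟨a + c, by rw [h1]; ring⟩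
        have e2 : p ∣ w2 := ⟨b + e, by rw [h2]; ring⟩
        exact Nat.eq_one_of_dvd_coprimes hcop e1 e2
      subst hp1
      rw [one_mul, one_mul] at h1 h2
      rw [← s2, h1, h2, T0_of (by rw [← h1]; exact hw1) (by rw [← h2]; exact hw2)]
    · obtain ⟨r, hr', rfl⟩ : ∃ r, 1 ≤ r ∧ p = q + r := ⟨p - q, by omega, by omega⟩
      have := ih a b (a + c) (b + e) r q (by omega) hr (hdt.trans (dt_add_right 0 1 a b c e)) hr' hq
        (by rw [h1]; ring) (by rw [h2]; ring)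
      rwa [s1] at this

theorem rigid_par {ε : ℕ} (hε : ε < 2) (f : ℕ → H)
    (hf : ∀ m n : ℕ, m ≠ 0 → n ≠ 0 → f (m * n) = f m + f n) (v : H)
    (hsum : Summable (wtK 0 1 {n | n % 2 = ε ∧ f (PP 0 1 n) ≠ v}))
    (p : ℕ) (hp : p.Prime) (hp4 : p % 4 = 1) (m : ℕ) (hm : 1 ≤ m) (hmf : m • f p = 0)
    (hfp : f p ≠ 0) : False := by
  set B : Set ℕ := {n | n % 2 = ε ∧ f (PP 0 1 n) ≠ v} with hB
  have hBv : ∀ n, n ∉ B → n % 2 = ε → f (PP 0 1 n) = v := by
    intro n hn hn2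
    rw [hB, Set.mem_ofPred_eq] at hn
    by_contra hne
    exact hn ⟨hn2, hne⟩
  obtain ⟨Y, M0, hY, hM0, hgood⟩ := exists_good3 0 1 le_rfl (EA 0 1 B)
    (summable_EA 0 1 le_rfl B hsum) (2 * p) (by have := hp.two_le; omega)
  obtain ⟨k, G1, G2, hG2, hG, hcop, hnorm, hodd, i, hi⟩ := small_angle_odd p hp hp4 m (2 * M0) hm
  have hMG : M0 * G2 ≤ G1 := by nlinarith
  have hMH : M0 * (2 * G2) ≤ G1 := by nlinarith
  have hG1 : 1 ≤ G1 := by nlinarith
  obtain ⟨R, x, hxT, hxc, hx1, hx2, hA1, hA2, hA3, a, b, c, e, q1, q2, q3, q4, q5, q6, hYd, hedge,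
    t1, t2, t3, t4, t5, t6, s1, s2, s3, s4, s5, s6⟩ := hgood G1 G2 G1 (2 * G2) hG2 hMG (by omega) hMH
      (by
        have : 0 < G1 * G2 := by positivity
        nlinarith)
  have h4G : 4 * G2 ≤ G1 := (Nat.mul_le_mul_right _ hM0).trans hMG
  have hNg : Nm 0 1 G1 G2 = G1 ^ 2 + G2 ^ 2 := by unfold Nm; ring
  have hc1 := coprime_rot (2 * p) G1 G2 (by
    intro l hl h
    rw [hnorm] at h
    exact dvd_mul_of_dvd_right (hl.dvd_of_dvd_pow h) _) hcop h4G hxT hxc hx1 hx2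
  -- parities
  have hx1o : x.1 % 2 = 1 := by
    have h1 : x.1 ≡ 1 [MOD 2 * p] := hx1
    exact h1.of_dvd (Dvd.intro _ rfl)
  have hx2e : x.2 % 2 = 0 := Nat.mod_eq_zero_of_dvd (dvd_trans (Dvd.intro _ rfl) hx2)
  have hG2e : G2 % 2 = 0 := by
    have h1 : (G1 ^ 2 + G2 ^ 2) % 2 = 1 := by
      rw [hnorm, Nat.pow_mod]
      have : p % 2 = 1 := by omega
      rw [this]; simp
    rw [Nat.add_mod, Nat.pow_mod G1, hodd] at h1
    rcases Nat.mod_two_eq_zero_or_one G2 with h2 | h2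
    · exact h2
    · rw [Nat.pow_mod G2, h2] at h1
      norm_num at h1
  have hr := r1_add (A := 0) (C := 1) (G1 := G1) (G2 := G2) (by omega) hxT
  have hr1 : (r1 1 G1 G2 x) % 2 = 1 := by
    have e1 : (G1 * x.1) % 2 = 1 := by rw [Nat.mul_mod, hodd, hx1o]
    have e2 : (G2 * x.2) % 2 = 0 := by rw [Nat.mul_mod, hG2e]; simp
    omega
  have hr2 : (r2 0 G1 G2 x) % 2 = 0 := by
    have e1 : (G1 * x.2) % 2 = 0 := by rw [Nat.mul_mod, hx2e]; simp
    have e2 : (G2 * x.1) % 2 = 0 := by rw [Nat.mul_mod, hG2e]; simp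
    unfold r2
    omega
  have d1 := descent_par hε hf hBv hY hA1 hxc hx1o hx2e (q1 + q2) a b c e q1 q2 le_rfl hedge hYd t1 t2 s1 s2
  have d2 := descent_par hε hf hBv hY hA2 hc1 hr1 hr2 (q3 + q4) a b c e q3 q4 le_rfl hedge hYd t3 t4 s3 s4
  have hx0 : Nm 0 1 x.1 x.2 ≠ 0 := by
    rw [mem_TT] at hxT
    exact (nm_pos le_rfl (by omega)).ne'
  rw [nm_rot (by omega) hxT, hNg, hf _ _ (by positivity) hx0, ← d1] at d2
  have h0 : f (G1 ^ 2 + G2 ^ 2) = 0 := by
    have := d2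
    rwa [add_eq_right] at this
  rw [hnorm, f_pow hf hp.ne_zero] at h0
  have hz : (i * m + 1 : ℤ) • f p = f p := by
    rw [add_smul, one_smul, mul_smul]
    have : (m : ℤ) • f p = 0 := by rw [natCast_zsmul]; exact hmf
    rw [this, smul_zero, zero_add]
  have h0' : (k : ℤ) • f p = 0 := by rw [natCast_zsmul]; exact h0
  rcases hi with hi | hi
  · rw [hi, hz] at h0'; exact hfp h0'
  · rw [hi, neg_smul, hz] at h0'; exact hfp (neg_eq_zero.mp h0')

end H359R4
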