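import Pool.Agent.H359R4.Par

/-! Two values for `n` even and for `n` odd. -/

namespace H359R4

open Finset H359R2 H359R3

/-- the `n` in `(X,2X]` with `Q n` and `n^2+1 = s^2 m`, `m` squarefree, `s` small. -/
def SQ (Q : ℕ → Prop) (X : ℕ) : Set ℕ :=
  {n : ℕ | X < n ∧ n ≤ 2 * X ∧ Q n ∧
    ∃ s m : ℕ, n ^ 2 + 1 = s ^ 2 * m ∧ Squarefree m ∧ (s : ℝ) ≤ Real.log X ^ 45}

lemma SQ_finite (Q : ℕ → Prop) (X : ℕ) : (SQ Q X).Finite := by
  apply Set.Finite.subset (Set.finite_Icc 0 (2 * X))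
  intro n hn
  exact ⟨Nat.zero_le _, hn.2.1⟩

open Classical in
lemma cnt_leQ (Q : ℕ → Prop) (X Z : ℕ) (hX : 3 ≤ X) :
    (cnt {n | Q n} X : ℝ) ≤ ((SQ Q X).ncard : ℝ) +
      (4 * X * (1 + Real.log Z) ^ 4 / (Real.log X ^ 45) + 4 * Z * (1 + Real.log Z) ^ 4 +
        117 * (X : ℝ) ^ 2 / (Z + 1) ^ 2) := by
  have hlog : 0 < Real.log X := Real.log_pos (by exact_mod_cast (by omega : 1 < X))
  have h1 := card_large_square 0 1 X Z (Real.log X ^ 45) le_rfl (by norm_num) (by omega)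
    (by positivity)
  have hDD : DD 0 1 = 4 := by unfold DD; norm_num
  rw [hDD] at h1
  norm_num at h1
  set L := (Finset.Ioc X (X + X)).filter (fun n => ∃ s : ℕ, Real.log X ^ 45 < s ∧ s ^ 2 ∣ PP 0 1 n)
    with hL
  have hsub : (Finset.Ioc X (X + X)).filter (fun n => n ∈ {n | Q n}) ⊆
      (SQ_finite Q X).toFinset ∪ L := by
    intro n hn
    rw [Finset.mem_filter, Finset.mem_Ioc, Set.mem_ofPred_eq] at hn
    obtain ⟨⟨hn1, hn2⟩, hfn⟩ := hn
    obtain ⟨m, s, hms, hm⟩ := Nat.sq_mul_squarefree (PP 0 1 n)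
    rw [Finset.mem_union]
    by_cases hs : (s : ℝ) ≤ Real.log X ^ 45
    · left
      rw [Set.Finite.mem_toFinset]
      refine ⟨hn1, by omega, hfn, s, m, ?_, hm, hs⟩
      rw [← PP_eq, hms]
    · right
      rw [hL, Finset.mem_filter, Finset.mem_Ioc]
      push Not at hs
      exact ⟨⟨hn1, hn2⟩, s, hs, ⟨m, hms.symm⟩⟩
  have h2 : cnt {n | Q n} X ≤ (SQ Q X).ncard + L.card := by
    unfold cnt
    rw [Set.ncard_eq_toFinset_card _ (SQ_finite Q X)]
    refine le_trans (le_of_eq ?_) ((Finset.card_le_card hsub).trans (Finset.card_union_le _ _))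
    congr
  have h4 : (cnt {n | Q n} X : ℝ) ≤ ((SQ Q X).ncard : ℝ) + (L.card : ℝ) := by
    exact_mod_cast h2
  linarith

lemma summable_of_rare (Q : ℕ → Prop)
    (hV : ¬ ∀ X0 : ℕ, ∃ X : ℕ, X0 ≤ X ∧ (X : ℝ) / Real.log X ^ 41 ≤ ((SQ Q X).ncard : ℝ)) :
    Summable (wtK 0 1 {n | Q n}) := by
  push Not at hV
  obtain ⟨X0, hX0⟩ := hV
  set c : ℝ := (1 : ℝ) + 245 with hc
  have hcpos : 0 < c := by positivity
  have hev : ∀ᶠ x : ℝ in Filter.atTop, ‖Real.log x ^ 133‖ ≤ 1 * ‖id x‖ :=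
    Real.isLittleO_pow_log_id_atTop.bound (by norm_num)
  have hev2 : ∀ᶠ x : ℝ in Filter.atTop, c ≤ Real.log x :=
    Real.tendsto_log_atTop.eventually_ge_atTop _
  obtain ⟨x1, hx1⟩ := Filter.eventually_atTop.mp (hev.and hev2)
  apply summable_of_sparse2 0 1 (by norm_num) le_rfl _ (max X0 (⌈x1⌉₊ + 3))
  intro X hX
  have hXX0 : X0 ≤ X := (le_max_left _ _).trans hX
  have hX1 : ⌈x1⌉₊ + 3 ≤ X := (le_max_right _ _).trans hX
  have hxX : x1 ≤ (X : ℝ) := by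
    calc x1 ≤ (⌈x1⌉₊ : ℝ) := Nat.le_ceil _
      _ ≤ X := by exact_mod_cast (by omega : ⌈x1⌉₊ ≤ X)
  obtain ⟨hA, hB⟩ := hx1 X hxX
  set L := Real.log X with hL
  have hL1 : 1 ≤ L := by
    rw [hc] at hB
    linarith
  have hLpos : 0 < L := by linarith
  have hXpos : (0 : ℝ) < X := by exact_mod_cast (by omega : 0 < X)
  rw [id, Real.norm_of_nonneg (by positivity), Real.norm_of_nonneg hXpos.le, one_mul] at hA
  set Z := ⌊(X : ℝ) / L ^ 46⌋₊ with hZ
  have hZle : (Z : ℝ) ≤ X / L ^ 46 := Nat.floor_le (by positivity)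
  have hZgt : (X : ℝ) / L ^ 46 < Z + 1 := Nat.lt_floor_add_one _
  have hZX : (Z : ℝ) ≤ X := by
    refine hZle.trans ?_
    rw [div_le_iff₀ (by positivity)]
    have : (1 : ℝ) ≤ L ^ 46 := one_le_pow₀ (by linarith)
    nlinarith
  have hlogZ : 1 + Real.log Z ≤ 2 * L := by
    have h1 : Real.log Z ≤ L := by
      rcases Nat.eq_zero_or_pos Z with h | h
      · rw [h]; simp only [Nat.cast_zero, Real.log_zero]; linarith
      · exact Real.log_le_log (by exact_mod_cast h) hZX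
    linarith
  have hlogZ0 : 0 ≤ 1 + Real.log Z := by
    have : 0 ≤ Real.log Z := Real.log_natCast_nonneg _
    linarith
  have hpow : (1 + Real.log Z) ^ 4 ≤ 16 * L ^ 4 := by
    calc (1 + Real.log Z) ^ 4 ≤ (2 * L) ^ 4 := pow_le_pow_left₀ hlogZ0 hlogZ 4
      _ = 16 * L ^ 4 := by ring
  have hmain := cnt_leQ Q X Z (by omega)
  rw [← hL] at hmain
  have hsumle : ((SQ Q X).ncard : ℝ) ≤ (X / L ^ 41) := (hX0 X hXX0).le
  have t1 : 4 * X * (1 + Real.log Z) ^ 4 / (L ^ 45) ≤ 64 * (X / L ^ 41) := by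
    calc 4 * X * (1 + Real.log Z) ^ 4 / (L ^ 45) ≤ 4 * X * (16 * L ^ 4) / (L ^ 45) := by
          apply div_le_div_of_nonneg_right _ (by positivity)
          exact mul_le_mul_of_nonneg_left hpow (by positivity)
      _ = 64 * (X / L ^ 41) := by field_simp; norm_num
  have t2 : 4 * Z * (1 + Real.log Z) ^ 4 ≤ 64 * (X / L ^ 41) := by
    calc 4 * Z * (1 + Real.log Z) ^ 4 ≤ 4 * (X / L ^ 46) * (16 * L ^ 4) := by
          apply mul_le_mul _ hpow (by positivity) (by positivity)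
          exact mul_le_mul_of_nonneg_left hZle (by positivity)
      _ = 64 * (X / L ^ 41) / L := by field_simp; norm_num
      _ ≤ 64 * (X / L ^ 41) := by
          apply div_le_self (by positivity)
          linarith
  have t3 : 117 * (X : ℝ) ^ 2 / (Z + 1) ^ 2 ≤ 117 * (X / L ^ 41) := by
    have h1 : (X / L ^ 46) ^ 2 ≤ ((Z : ℝ) + 1) ^ 2 :=
      pow_le_pow_left₀ (by positivity) hZgt.le 2
    calc 117 * (X : ℝ) ^ 2 / (Z + 1) ^ 2 ≤ 117 * (X : ℝ) ^ 2 / (X / L ^ 46) ^ 2 :=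
          div_le_div_of_nonneg_left (by positivity) (by positivity) h1
      _ = 117 * L ^ 92 := by field_simp
      _ ≤ 117 * (X / L ^ 41) := by
          apply mul_le_mul_of_nonneg_left _ (by norm_num)
          rw [le_div_iff₀ (by positivity)]
          calc L ^ 92 * L ^ 41 = L ^ 133 := by ring
            _ ≤ (X : ℝ) := hA
  have hfin : (cnt {n | Q n} X : ℝ) ≤ c * (X / L ^ 41) := by
    have e1 : c * (X / L ^ 41) = (X / L ^ 41) +
        (64 * (X / L ^ 41) + 64 * (X / L ^ 41) + 117 * (X / L ^ 41)) := by rw [hc]; ring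
    rw [e1]
    refine hmain.trans ?_
    exact add_le_add hsumle (add_le_add (add_le_add t1 t2) t3)
  calc (cnt {n | Q n} X : ℝ) ≤ c * (X / L ^ 41) := hfin
    _ = (c / L) * (X / L ^ 40) := by field_simp
    _ ≤ 1 * (X / L ^ 40) := by
        apply mul_le_mul_of_nonneg_right _ (by positivity)
        rw [div_le_one hLpos]; exact hB
    _ = X / L ^ 40 := one_mul _

variable {H : Type*} [AddCommGroup H]

theorem par_main [Finite H] (f : ℕ → H)
    (hf : ∀ m n : ℕ, m ≠ 0 → n ≠ 0 → f (m * n) = f m + f n)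
    (hp : ∃ p : ℕ, p.Prime ∧ p % 4 = 1 ∧ f p ≠ 0) (v : H) (ε : ℕ) (hε : ε < 2) (X0 : ℕ) :
    ∃ X : ℕ, X0 ≤ X ∧ (X : ℝ) / Real.log X ^ 41 ≤
      ((SQ (fun n => n % 2 = ε ∧ f (n ^ 2 + 1) ≠ v) X).ncard : ℝ) := by
  have := Fintype.ofFinite H
  revert X0
  by_contra hcon
  have hsum := summable_of_rare _ hcon
  obtain ⟨p, hp, hp4, hfp⟩ := hp
  have heq : {n : ℕ | n % 2 = ε ∧ f (n ^ 2 + 1) ≠ v} = {n | n % 2 = ε ∧ f (PP 0 1 n) ≠ v} := by
    ext n
    simp only [Set.mem_ofPred_eq, PP_eq]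
  rw [heq] at hsum
  exact rigid_par hε f hf v hsum p hp hp4 (Fintype.card H) Fintype.card_pos
      (card_nsmul_eq_zero) hfp

end H359R4
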